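import Mathlib

/-! Project F5 (MP_f1db85_nt): the ring `O = ℤ[ζ₅]`. -/

namespace Pool.Agent.Helper38.F5

open NumberField Polynomial

instance fact5 : Fact (Nat.Prime 5) := ⟨Nat.prime_five⟩

abbrev K : Type := CyclotomicField 5 ℚ
abbrev O : Type := 𝓞 K

instance cycK : IsCyclotomicExtension {5} ℚ K := CyclotomicField.isCyclotomicExtension 5 ℚ

instance pidO : IsPrincipalIdealRing O := IsCyclotomicExtension.Rat.five_pid K

/-- the fifth root of unity -/
noncomputable def z : O := (IsCyclotomicExtension.zeta_spec 5 ℚ K).toInteger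

lemma z_prim : IsPrimitiveRoot z 5 :=
  (IsCyclotomicExtension.zeta_spec 5 ℚ K).toInteger_isPrimitiveRoot

lemma z5 : z ^ 5 = 1 := z_prim.pow_eq_one

lemma z_rel : z ^ 4 + z ^ 3 + z ^ 2 + z + 1 = 0 := by
  have h := z_prim.geom_sum_eq_zero (by norm_num)
  rw [← h]
  simp [Finset.sum_range_succ]
  ring

lemma cyc5 : (cyclotomic 5 ℤ) = X ^ 4 + X ^ 3 + X ^ 2 + X + 1 := by
  rw [cyclotomic_prime]
  simp [Finset.sum_range_succ]
  ring

noncomputable def pb : PowerBasis ℤ O :=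
  (IsCyclotomicExtension.zeta_spec 5 ℚ K).integralPowerBasis

lemma pb_gen : pb.gen = z :=
  (IsCyclotomicExtension.zeta_spec 5 ℚ K).integralPowerBasis_gen

lemma pb_dim : pb.dim = 4 := by
  have := (IsCyclotomicExtension.zeta_spec 5 ℚ K).integralPowerBasis_dim
  rw [pb, this]
  decide

lemma minpoly_z : minpoly ℤ z = cyclotomic 5 ℤ := by
  rw [cyclotomic_eq_minpoly (IsCyclotomicExtension.zeta_spec 5 ℚ K) (by norm_num : 0 < 5)]
  exact (minpoly.algebraMap_eq (RingOfIntegers.coe_injective) z).symm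

/-- ring homs out of `O` -/
noncomputable def lft {R : Type*} [CommRing R] (y : R) (hy : y ^ 4 + y ^ 3 + y ^ 2 + y + 1 = 0) :
    O →+* R :=
  (pb.lift y (by rw [pb_gen, minpoly_z, cyc5]; simpa using hy)).toRingHom

lemma lft_z {R : Type*} [CommRing R] (y : R) (hy : y ^ 4 + y ^ 3 + y ^ 2 + y + 1 = 0) :
    lft y hy z = y := by
  have := pb.lift_gen y (by rw [pb_gen, minpoly_z, cyc5]; simpa using hy)
  exact (congrArg (pb.lift y (by rw [pb_gen, minpoly_z, cyc5]; simpa using hy))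
    pb_gen.symm).trans this

/-- coordinates -/
lemma coords (x : O) : ∃ a b c d : ℤ, x = a + b * z + c * z ^ 2 + d * z ^ 3 := by
  have h := pb.basis.sum_repr x
  have hb : ∀ i, pb.basis i = z ^ (i : ℕ) := by
    intro i
    rw [PowerBasis.basis_eq_pow, pb_gen]
  simp only [hb] at h
  have e : ∑ i : Fin pb.dim, (pb.basis.repr x) i • z ^ (i : ℕ)
      = ∑ i : Fin 4, (pb.basis.repr x) (Fin.cast pb_dim.symm i) • z ^ (i : ℕ) := by
    refine Fintype.sum_equiv (finCongr pb_dim) _ _ ?_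
    intro i
    simp
  rw [e, Fin.sum_univ_four] at h
  refine ⟨(pb.basis.repr x) (Fin.cast pb_dim.symm 0), (pb.basis.repr x) (Fin.cast pb_dim.symm 1),
    (pb.basis.repr x) (Fin.cast pb_dim.symm 2), (pb.basis.repr x) (Fin.cast pb_dim.symm 3),
    h.symm.trans ?_⟩
  simp [zsmul_eq_mul]

lemma hom_ext {R : Type*} [CommRing R] {f g : O →+* R} (h : f z = g z) : f = g := by
  ext x
  obtain ⟨a, b, c, d, rfl⟩ := coords x
  simp [h]

lemma coords_inj {a b c d : ℤ} (h : (a : O) + b * z + c * z ^ 2 + d * z ^ 3 = 0) :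
    a = 0 ∧ b = 0 ∧ c = 0 ∧ d = 0 := by
  have hl := pb.basis.linearIndependent
  rw [Fintype.linearIndependent_iff] at hl
  have h2 := hl (fun i => if (i : ℕ) = 0 then a else if (i : ℕ) = 1 then b else
    if (i : ℕ) = 2 then c else d) (by
      have hb : ∀ i, pb.basis i = z ^ (i : ℕ) := by
        intro i
        rw [PowerBasis.basis_eq_pow, pb_gen]
      simp only [hb]
      have e : ∑ i : Fin pb.dim, (if (i : ℕ) = 0 then a else if (i : ℕ) = 1 then b else
          if (i : ℕ) = 2 then c else d) • z ^ (i : ℕ)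
          = ∑ i : Fin 4, (if (i : ℕ) = 0 then a else if (i : ℕ) = 1 then b else
          if (i : ℕ) = 2 then c else d) • z ^ (i : ℕ) := by
        refine Fintype.sum_equiv (finCongr pb_dim) _ _ ?_
        intro i
        simp
      rw [e, Fin.sum_univ_four]
      simpa [zsmul_eq_mul] using h)
  have hd : pb.dim = 4 := pb_dim
  refine ⟨?_, ?_, ?_, ?_⟩
  · simpa using h2 (Fin.cast hd.symm 0)
  · simpa using h2 (Fin.cast hd.symm 1)
  · simpa using h2 (Fin.cast hd.symm 2)
  · simpa using h2 (Fin.cast hd.symm 3)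

lemma zk_rel (k : ℕ) (hk : ¬ 5 ∣ k) :
    (z ^ k) ^ 4 + (z ^ k) ^ 3 + (z ^ k) ^ 2 + (z ^ k) + 1 = 0 := by
  have h := (z_prim.pow_of_coprime k ((Nat.Prime.coprime_iff_not_dvd Nat.prime_five).2 hk).symm
    ).geom_sum_eq_zero (by norm_num)
  rw [← h]
  simp [Finset.sum_range_succ]
  ring

/-- the automorphism `ζ ↦ ζ^k` -/
noncomputable def sg (k : ℕ) (hk : ¬ 5 ∣ k) : O →+* O := lft (z ^ k) (zk_rel k hk)

lemma sg_z (k : ℕ) (hk : ¬ 5 ∣ k) : sg k hk z = z ^ k := lft_z _ _

end Pool.Agent.Helper38.F5
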