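import Pool.Agent.Helper38.F5.P1

/-! Project F5: rational integers; the case `5 ∣ z`. -/

namespace Pool.Agent.Helper38.F5

open NumberField Polynomial Finset

lemma exists_t (p : ℕ) [Fact p.Prime] {m : ℕ} (hm : p - 1 = 5 * m) : Nonempty (O →+* ZMod p) := by
  obtain ⟨g, hg, hp⟩ := exists_gen' p
  have h2 := (Fact.out : p.Prime).two_le
  have hw : IsPrimitiveRoot (g ^ m) 5 := hp.pow (by omega) (by rw [hm]; ring)
  refine ⟨lft (g ^ m) ?_⟩
  have h1 := hw.geom_sum_eq_zero (by norm_num)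
  rw [← h1]
  simp [Finset.sum_range_succ]
  ring

lemma coprime_cast {x y : ℤ} (h : IsCoprime x y) : IsCoprime (x : O) (y : O) := by
  simpa using h.map (Int.castRingHom O)

lemma ok_int {n : ℤ} : ok (n : O) ↔ ¬ (5 : ℤ) ∣ n := by
  rw [ok_cc, map_intCast, Ne, ZMod.intCast_zmod_eq_zero_iff_dvd]
  rfl

lemma five_lam : (5 : O) = lam ^ 4 * ∏ i, eps i := by
  have h1 : lam ^ 4 * ∏ i, eps i = ∏ i : Fin 4, (1 - z ^ ex i) := by
    simp_rw [← lam_eps]
    rw [prod_mul_distrib, prod_const, card_univ, Fintype.card_fin]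
  rw [h1, Fin.prod_univ_four]
  show (5 : O) = (1 - z ^ 1) * (1 - z ^ 2) * (1 - z ^ 3) * (1 - z ^ 4)
  have h := z_rel
  linear_combination (4 - 3 * z - z ^ 3 + 2 * z ^ 5 - z ^ 6) * h

theorem case_one {p : ℕ} [Fact p.Prime] (t : O →+* ZMod p) (hp : p ≠ 5) (hN : NoHit t)
    {x y c : ℤ} (hxy : IsCoprime x y) (hc : c ≠ 0) (h5 : (5 : ℤ) ∣ c)
    (h : x ^ 5 + y ^ 5 = (p : ℤ) ^ 2 * c ^ 5) : False := by
  obtain ⟨v, c', hc', rfl⟩ : ∃ (v : ℕ) (c' : ℤ), ¬ (5 : ℤ) ∣ c' ∧ c = 5 ^ v * c' := by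
    have hfin : FiniteMultiplicity (5 : ℤ) c := Int.finiteMultiplicity_iff.2 ⟨by norm_num, hc⟩
    obtain ⟨c', hc1, hc2⟩ := hfin.exists_eq_pow_mul_and_not_dvd
    exact ⟨_, c', hc2, hc1⟩
  have hv : 1 ≤ v := by
    by_contra h0
    have : v = 0 := by omega
    subst this
    rw [pow_zero, one_mul] at h5
    exact hc' h5
  refine descent t hp hN (4 * v) x y c' ((∏ i, eps i) ^ (5 * v)) (by omega) ?_
    (coprime_cast hxy) (ok_int.2 hc') ?_
  · refine IsUnit.pow _ ?_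
    rw [IsUnit.prod_univ_iff]
    exact eps_unit
  · have h1 : ((x : O)) ^ 5 + (y : O) ^ 5 = (p : O) ^ 2 * ((5 : O) ^ v * c') ^ 5 := by
      exact_mod_cast congrArg (Int.cast : ℤ → O) h
    rw [h1, five_lam]
    ring

end Pool.Agent.Helper38.F5
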