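import Pool.Agent.Helper38.F5.CaseOne

/-! Project F5: the case `5 ∤ z`. -/

namespace Pool.Agent.Helper38.F5

open NumberField Polynomial Finset

/-- the linear factors -/
noncomputable def ff (x y : ℤ) (i : Fin 5) : O := x + z ^ (i : ℕ) * y

lemma prod_ff (x y : ℤ) : ∏ i, ff x y i = (x : O) ^ 5 + (y : O) ^ 5 := by
  rw [← prod_f, Fin.prod_univ_succ]
  congr 1
  · show (x : O) + z ^ 0 * y = x + y
    ring

lemma five_dvd_iff {x y c : ℤ} {p : ℕ} [Fact p.Prime] (hp : p ≠ 5) (h5 : ¬ (5 : ℤ) ∣ c)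
    (h : x ^ 5 + y ^ 5 = (p : ℤ) ^ 2 * c ^ 5) : ok ((x : O) + y) := by
  rw [ok_cc, map_add]
  have h1 : ((x : O)) ^ 5 + (y : O) ^ 5 = (p : O) ^ 2 * (c : O) ^ 5 := by
    exact_mod_cast congrArg (Int.cast : ℤ → O) h
  have h2 := congrArg cc h1
  rw [map_add, map_pow, map_pow, fifth_zmod5, fifth_zmod5, map_mul, map_pow, map_pow] at h2
  rw [h2]
  exact mul_ne_zero (pow_ne_zero _ (ok_p hp)) (pow_ne_zero _ (ok_int.2 h5))

lemma T_ff (x y : ℤ) (i : Fin 5) : cc (ff x y i) = cc ((x : O) + y) := by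
  unfold ff
  rw [map_add, map_mul, map_pow, cc_z, one_pow, one_mul, map_add]

lemma coprime_ff {x y : ℤ} (hxy : IsCoprime x y) (hs : ok ((x : O) + y)) {i j : Fin 5}
    (hij : i ≠ j) : IsCoprime (ff x y i) (ff x y j) := by
  have hl : lam ≠ 0 := lam_prime.ne_zero
  have main : ∀ i j : Fin 5, i < j → IsCoprime (ff x y i) (ff x y j) := by
    intro i j hij
    obtain ⟨w, hw, hwe⟩ := diff_unit (a := i) (b := j) hij j.2
    obtain ⟨w', rfl⟩ := hw
    have hwi : (w' : O) * ((w'⁻¹ : (𝓞 K)ˣ) : O) = 1 := by simp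
    obtain ⟨r, s, hrs⟩ := coprime_cast hxy
    have hli : IsCoprime (ff x y i) lam := by
      rw [isCoprime_comm, lam_prime.coprime_iff_not_dvd]
      have : ok (ff x y i) := by rw [ok_cc, T_ff]; exact hs
      exact (ok_iff _).1 this
    obtain ⟨a, b, hab⟩ := hli
    -- lam = combination
    have e1 : ff x y i - ff x y j = lam * w' * y := by
      unfold ff
      linear_combination (y : O) * hwe
    have e2 : z ^ (j : ℕ) * ff x y i - z ^ (i : ℕ) * ff x y j = - (lam * w' * x) := by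
      unfold ff
      linear_combination -(x : O) * hwe
    refine ⟨a + b * ((w'⁻¹ : (𝓞 K)ˣ) : O) * (s - r * z ^ (j : ℕ)),
      b * ((w'⁻¹ : (𝓞 K)ˣ) : O) * (- s + r * z ^ (i : ℕ)), ?_⟩
    linear_combination hab + b * ((w'⁻¹ : (𝓞 K)ˣ) : O) * s * e1 -
      b * ((w'⁻¹ : (𝓞 K)ˣ) : O) * r * e2 + b * lam * ((w' : O) * ((w'⁻¹ : (𝓞 K)ˣ) : O)) * hrs +
      b * lam * hwi
  rcases lt_or_gt_of_ne hij with h | h
  · exact main i j h
  · exact (main j i h).symm

/-- `T (x + ζ y)` -/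
lemma T_f1 (x y : ℤ) : T (ff x y 1) = ⟨x + y, y, 3 * y, y⟩ := by
  unfold ff
  show T ((x : O) + z ^ 1 * y) = _
  rw [pow_one, map_add, map_mul, T_z, T_int, T_int]
  ext <;> simp

section
variable {p : ℕ} [Fact p.Prime]

lemma exists_hom (t : O →+* ZMod p) {x y c : ℤ} (h : x ^ 5 + y ^ 5 = (p : ℤ) ^ 2 * c ^ 5) :
    (∃ t : O →+* ZMod p, t ((x : O) + y) = 0) ∨ (∃ t : O →+* ZMod p, t (ff x y 1) = 0) := by
  have h1 : ((x : O)) ^ 5 + (y : O) ^ 5 = (p : O) ^ 2 * (c : O) ^ 5 := by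
    exact_mod_cast congrArg (Int.cast : ℤ → O) h
  have h2 := congrArg t h1
  rw [← prod_ff, map_prod, map_mul, map_pow, map_natCast, CharP.cast_eq_zero] at h2
  have h3 : ∏ i, t (ff x y i) = 0 := by rw [h2]; ring
  obtain ⟨i, -, hi⟩ := Finset.prod_eq_zero_iff.1 h3
  rcases Fin.eq_zero_or_eq_succ i with h0 | ⟨k, rfl⟩
  · left
    refine ⟨t, ?_⟩
    rw [← hi, h0]
    congr 1
    show (x : O) + y = x + z ^ 0 * y
    ring
  · right
    refine ⟨t.comp (sg (ex k) (ex_nd k)), ?_⟩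
    rw [RingHom.comp_apply, ← hi]
    congr 1
    unfold ff
    rw [map_add, map_mul, map_intCast, map_intCast, map_pow, sg_z, ← pow_mul]
    have : ∀ k : Fin 4, ex k * ((1 : Fin 5) : ℕ) = ((k.succ : Fin 5) : ℕ) := by decide
    rw [this k]

lemma t_y_ne (t : O →+* ZMod p) {x y : ℤ} (hxy : IsCoprime x y) {r : ZMod p}
    (h : t x + r * t y = 0) : t y ≠ 0 := by
  intro h0
  rw [h0, mul_zero, add_zero] at h
  rw [map_intCast, ZMod.intCast_zmod_eq_zero_iff_dvd] at h h0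
  have := hxy.isUnit_of_dvd' h h0
  rw [Int.isUnit_iff] at this
  have h2 := (Fact.out : p.Prime).two_le
  omega

end

end Pool.Agent.Helper38.F5
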