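import Pool.Agent.Helper38.F5.CaseTwo

/-! Project F5: the case `5 ∤ z`, `p ∣ x + y`. -/

namespace Pool.Agent.Helper38.F5

open NumberField Polynomial Finset

section
variable {p : ℕ} [Fact p.Prime] {m : ℕ}

lemma QD.ind5 {w : ZMod p} (h : QD p m w) {x : ZMod p} (hx : x ≠ 0) : ind w m (x ^ 5) = 0 := by
  rw [h.ind_pow hx]
  have : ((5 : ℕ) : ZMod 5) = 0 := by decide
  rw [this, zero_mul]

lemma s_z_ne (s : O →+* ZMod p) : s z ≠ 0 := by
  intro h
  have := congrArg s z5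
  rw [map_pow, h, map_one] at this
  norm_num at this

lemma s_ph_ne (s : O →+* ZMod p) : s ph ≠ 0 := by
  intro h
  have := t_ph_sq s
  rw [h] at this
  norm_num at this

/-- index of an element `z^R φ^j Y⁵` -/
lemma ind_form {w : ZMod p} (h : QD p m w) (s : O →+* ZMod p) {g Y : O} {R j : ℕ}
    (hg : g = z ^ R * ph ^ j * Y ^ 5) (hne : s g ≠ 0) :
    ind w m (s g) = R * ind w m (s z) + j * ind w m (s ph) := by
  have hY : s Y ≠ 0 := by
    intro h0
    apply hne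
    rw [hg, map_mul, map_pow s Y, h0]
    ring
  rw [hg, map_mul, map_mul, map_pow, map_pow, map_pow,
    h.ind_mul (mul_ne_zero (pow_ne_zero _ (s_z_ne s)) (pow_ne_zero _ (s_ph_ne s)))
      (pow_ne_zero _ hY), h.ind_mul (pow_ne_zero _ (s_z_ne s)) (pow_ne_zero _ (s_ph_ne s)),
    h.ind_pow (s_z_ne s), h.ind_pow (s_ph_ne s), h.ind5 hY, add_zero]

variable (t : O →+* ZMod p)

lemma ind_s_z (h : QD p m (t z)) (k : Fin 4) :
    ind (t z) m (t (sg (ex k) (ex_nd k) z)) = ex k * ind (t z) m (t z) := by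
  rw [t_sg_z, h.ind_pow (s_z_ne t)]

lemma ph2 : ph * sg (ex 1) (ex_nd 1) ph = -1 := by
  unfold ph
  rw [map_neg, map_add, map_pow, map_pow, sg_z]
  show -(z ^ 2 + z ^ 3) * -((z ^ 2) ^ 2 + (z ^ 2) ^ 3) = -1
  linear_combination (z + z ^ 2 + z ^ 3 + z ^ 4) * z5 + z_rel

lemma ph3 : sg (ex 2) (ex_nd 2) ph = sg (ex 1) (ex_nd 1) ph := by
  unfold ph
  rw [map_neg, map_add, map_pow, map_pow, sg_z, map_neg, map_add, map_pow, map_pow, sg_z]
  show -((z ^ 3) ^ 2 + (z ^ 3) ^ 3) = -((z ^ 2) ^ 2 + (z ^ 2) ^ 3)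
  linear_combination (- z ^ 4) * z5

lemma ph4 : sg (ex 3) (ex_nd 3) ph = ph := by
  unfold ph
  rw [map_neg, map_add, map_pow, map_pow, sg_z]
  show -((z ^ 4) ^ 2 + (z ^ 4) ^ 3) = -(z ^ 2 + z ^ 3)
  linear_combination (- z ^ 3 - z ^ 7 - z ^ 2) * z5

lemma ind_s_ph (h : QD p m (t z)) :
    ind (t z) m (t (sg (ex 1) (ex_nd 1) ph)) = - ind (t z) m (t ph) ∧
    ind (t z) m (t (sg (ex 2) (ex_nd 2) ph)) = - ind (t z) m (t ph) ∧
    ind (t z) m (t (sg (ex 3) (ex_nd 3) ph)) = ind (t z) m (t ph) := by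
  have h1 : ind (t z) m (t (sg (ex 1) (ex_nd 1) ph)) = - ind (t z) m (t ph) := by
    have e := congrArg (fun a => ind (t z) m (t a)) ph2
    simp only [map_mul, map_neg, map_one] at e
    have hne2 : t (sg (ex 1) (ex_nd 1) ph) ≠ 0 := s_ph_ne (t.comp (sg (ex 1) (ex_nd 1)))
    rw [h.ind_mul (s_ph_ne t) hne2, h.ind_neg_one] at e
    linear_combination e
  exact ⟨h1, by rw [ph3, h1], by rw [ph4]⟩

/-- invariants of `x + ζ y` -/
lemma L_ff {x y : ℤ} :
    L1 (ff x y 1) = (y : ZMod 5) * (x + y) ^ 3 ∧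
    L2 (ff x y 1) = 3 * (y * (x + y) ^ 3) + 2 * (y * (x + y) ^ 3) ^ 2 ∧
    L3 (ff x y 1) = (y * (x + y) ^ 3) - 3 * (y * (x + y) ^ 3) ^ 2 + 2 * (y * (x + y) ^ 3) ^ 3 := by
  unfold L1 L2 L3
  rw [T_f1]
  unfold R4.l1 R4.l2 R4.l3
  refine ⟨rfl, ?_, ?_⟩
  · simp only; ring
  · simp only; ring

lemma ok_of_pow5 {g u r : O} (h : g = u * r ^ 5) (hg : ok g) : ok r := by
  rw [h, ok_mul] at hg
  rw [ok_iff]
  intro hd
  exact (ok_iff _).1 hg.2 (hd.trans (dvd_pow_self r (by norm_num)))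

/-- the splitting for the second case -/
lemma split2 (hp : p ≠ 5) {x y c : ℤ} (hxy : IsCoprime x y) (hs : ok ((x : O) + y))
    (h : x ^ 5 + y ^ 5 = (p : ℤ) ^ 2 * c ^ 5) :
    ∃ d : Fin 4 → Fin 5, (∀ k i, pi t k ∣ ff x y i ↔ i = d k) ∧
      ∀ i, ∃ u r : O, IsUnit u ∧ (dl t d i) ^ 3 * ff x y i = u * r ^ 5 := by
  apply split t hp (ff x y) (fun i j hij => coprime_ff hxy hs hij) 1 (c : O) isUnit_one
  rw [prod_ff, one_mul]
  exact_mod_cast congrArg (Int.cast : ℤ → O) h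

theorem case_two_a (hp : p ≠ 5) (hq : QD p m (t z)) {x y c : ℤ} (hxy : IsCoprime x y)
    (h5 : ¬ (5 : ℤ) ∣ c) (h : x ^ 5 + y ^ 5 = (p : ℤ) ^ 2 * c ^ 5) (h0 : t ((x : O) + y) = 0) :
    ind (t z) m (t ph) = 0 ∧ (ind (t z) m (t z) = 0 ∨ (x : ZMod 5) = y) := by
  have hs := five_dvd_iff hp h5 h
  obtain ⟨d, hd, hspl⟩ := split2 t hp hxy hs h
  have hd0 : ∀ k, d k = 0 := by
    intro k
    refine ((hd k 0).1 ?_).symm
    rw [pi_dvd]
    have e : ff x y 0 = (x : O) + y := by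
      show (x : O) + z ^ 0 * y = x + y
      ring
    rw [e, map_add, map_intCast, map_intCast]
    exact h0
  obtain ⟨u, r, hu, hur⟩ := hspl 1
  rw [dl_one t (fun l => by rw [hd0 l]; decide), one_pow, one_mul] at hur
  have hok1 : ok (ff x y 1) := by rw [ok_cc, T_ff]; exact hs
  have hokr := ok_of_pow5 hur hok1
  obtain ⟨R, j, Y, hY, hu', hR, hj⟩ := unit_form hu
  obtain ⟨l1, l2, l3⟩ := L_ff (x := x) (y := y)
  have k1 : L1 (ff x y 1) = R := by
    rw [hur, L1_mul (ok_unit hu) (ok_pow hokr 5), L1_pow5 hokr, add_zero, hR]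
  have k2 : L2 (ff x y 1) = 2 * j := by
    rw [hur, L2_mul (ok_unit hu) (ok_pow hokr 5), L2_pow5 hokr, add_zero, hj]
  have k3 : L3 (ff x y 1) = 0 := by
    rw [hur, L3_mul (ok_unit hu) (ok_pow hokr 5), L3_pow5 hokr, add_zero, unit_L3 hu]
  rw [k1] at l1
  rw [k2] at l2
  rw [k3] at l3
  have hg : ff x y 1 = z ^ R * ph ^ j * (Y * r) ^ 5 := by
    rw [hur, hu']; ring
  have ty : t (y : O) ≠ 0 := t_y_ne t hxy (r := 1) (by rw [one_mul, ← map_add]; exact h0)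
  have tx : t (x : O) = - t (y : O) := by
    rw [map_add] at h0
    linear_combination h0
  -- values under the homomorphisms
  have hval : ∀ k : Fin 4, t (sg (ex k) (ex_nd k) (ff x y 1)) = ((t z) ^ ex k - 1) * t (y : O) := by
    intro k
    unfold ff
    rw [map_add, map_mul, map_intCast, map_intCast, map_add, map_mul, tx]
    show - t (y : O) + t ((sg (ex k) (ex_nd k)) (z ^ 1)) * t (y : O) = _
    rw [pow_one, t_sg_z]
    ring
  have hn : ∀ k : Fin 4, (t z) ^ ex k - 1 ≠ 0 := by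
    intro k h0
    have hlt : ∀ k : Fin 4, 0 < ex k ∧ ex k < 5 := by decide
    exact hq.one_sub_ne (hlt k).1 (hlt k).2 (by linear_combination -h0)
  have hind : ∀ k : Fin 4, ind (t z) m ((t z) ^ ex k - 1) + ind (t z) m (t (y : O)) =
      R * (ex k * ind (t z) m (t z)) + j * ind (t z) m (t (sg (ex k) (ex_nd k) ph)) := by
    intro k
    rw [← hq.ind_mul (hn k) ty, ← hval k, ← ind_s_z t hq k]
    have := ind_form hq (t.comp (sg (ex k) (ex_nd k))) hg
      (by rw [RingHom.comp_apply, hval]; exact mul_ne_zero (hn k) ty)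
    exact this
  have e0 := hind 0
  have e1 := hind 1
  have e3 := hind 3
  obtain ⟨p1, p2, p3⟩ := ind_s_ph t hq
  rw [p1] at e1
  rw [p3] at e3
  have p0 : sg (ex 0) (ex_nd 0) ph = ph := sg_one' ph
  rw [p0] at e0
  have f0 : (t z) ^ ex 0 - 1 = t z - 1 := by show (t z) ^ 1 - 1 = _; rw [pow_one]
  have hw1 : t z - 1 ≠ 0 := by rw [← f0]; exact hn 0
  have f1 : (t z) ^ ex 1 - 1 = (t z - 1) * ((-1) * ((t z) ^ 3 * t ph)) := by
    show (t z) ^ 2 - 1 = _
    rw [t_ph]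
    have := hq.hw.pow_eq_one
    linear_combination (- (t z) ^ 2 + 1) * this
  have f3 : (t z) ^ ex 3 - 1 = (t z - 1) * ((-1) * (t z) ^ 4) := by
    show (t z) ^ 4 - 1 = _
    have := hq.hw.pow_eq_one
    linear_combination this
  have hwne := s_z_ne t
  have hphne := s_ph_ne t
  have hm1 : (-1 : ZMod p) ≠ 0 := neg_ne_zero.2 one_ne_zero
  rw [f0] at e0
  rw [f1, hq.ind_mul hw1 (mul_ne_zero hm1 (mul_ne_zero (pow_ne_zero _ hwne) hphne)),
    hq.ind_mul hm1 (mul_ne_zero (pow_ne_zero _ hwne) hphne), hq.ind_neg_one,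
    hq.ind_mul (pow_ne_zero _ hwne) hphne, hq.ind_pow hwne] at e1
  rw [f3, hq.ind_mul hw1 (mul_ne_zero hm1 (pow_ne_zero _ hwne)),
    hq.ind_mul hm1 (pow_ne_zero _ hwne), hq.ind_neg_one, hq.ind_pow hwne] at e3
  have x0 : ((ex 0 : ℕ) : ZMod 5) = 1 := by decide
  have x1 : ((ex 1 : ℕ) : ZMod 5) = 2 := by decide
  have x3 : ((ex 3 : ℕ) : ZMod 5) = 4 := by decide
  rw [x0] at e0
  rw [x1] at e1
  rw [x3] at e3
  push_cast at e1 e3
  have d1 : 3 * ind (t z) m (t z) + ind (t z) m (t ph) =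
      R * ind (t z) m (t z) - 2 * j * ind (t z) m (t ph) := by
    linear_combination e1 - e0
  have d2 : 4 * ind (t z) m (t z) = 3 * R * ind (t z) m (t z) := by
    linear_combination e3 - e0
  have hxy0 : (x : ZMod 5) + y ≠ 0 := by
    have := hs
    rw [ok_cc, map_add, map_intCast, map_intCast] at this
    exact this
  clear e0 e1 e3 hind
  generalize ind (t z) m (t z) = om at *
  generalize ind (t z) m (t ph) = f at *
  generalize (R : ZMod 5) = R' at *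
  generalize (j : ZMod 5) = j' at *
  generalize (x : ZMod 5) = X at *
  generalize (y : ZMod 5) = Y' at *
  have key : ∀ X Y' : ZMod 5, X + Y' ≠ 0 → ∀ R' j' om f : ZMod 5, R' = Y' * (X + Y') ^ 3 →
      2 * j' = 3 * (Y' * (X + Y') ^ 3) + 2 * (Y' * (X + Y') ^ 3) ^ 2 →
      0 = (Y' * (X + Y') ^ 3) - 3 * (Y' * (X + Y') ^ 3) ^ 2 + 2 * (Y' * (X + Y') ^ 3) ^ 3 →
      3 * om + f = R' * om - 2 * j' * f → 4 * om = 3 * R' * om →
      f = 0 ∧ (om = 0 ∨ X = Y') := by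
    intro X Y' hXY R' j' om f a1 a2 a3 a4 a5
    have hR3 : ∀ τ : ZMod 5, 0 = τ - 3 * τ ^ 2 + 2 * τ ^ 3 → τ = 0 ∨ τ = 1 ∨ τ = 3 := by decide
    rcases hR3 _ a3 with h | h | h
    · rw [h] at a1 a2
      subst a1
      have hj0 : j' = 0 := by
        have : ∀ j' : ZMod 5, 2 * j' = 3 * 0 + 2 * 0 ^ 2 → j' = 0 := by decide
        exact this j' a2
      subst hj0
      have : ∀ om f : ZMod 5, 3 * om + f = 0 * om - 2 * 0 * f → 4 * om = 3 * 0 * om →
          f = 0 ∧ om = 0 := by decide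
      obtain ⟨b1, b2⟩ := this om f a4 a5
      exact ⟨b1, Or.inl b2⟩
    · rw [h] at a1 a2
      subst a1
      have hj0 : j' = 0 := by
        have : ∀ j' : ZMod 5, 2 * j' = 3 * 1 + 2 * 1 ^ 2 → j' = 0 := by decide
        exact this j' a2
      subst hj0
      have : ∀ om f : ZMod 5, 3 * om + f = 1 * om - 2 * 0 * f → 4 * om = 3 * 1 * om →
          f = 0 ∧ om = 0 := by decide
      obtain ⟨b1, b2⟩ := this om f a4 a5
      exact ⟨b1, Or.inl b2⟩
    · rw [h] at a1 a2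
      subst a1
      have hj0 : j' = 1 := by
        have : ∀ j' : ZMod 5, 2 * j' = 3 * 3 + 2 * 3 ^ 2 → j' = 1 := by decide
        exact this j' a2
      subst hj0
      have : ∀ om f : ZMod 5, 3 * om + f = 3 * om - 2 * 1 * f → f = 0 := by decide
      refine ⟨this om f a4, Or.inr ?_⟩
      have h3 : ∀ X Y' : ZMod 5, X + Y' ≠ 0 → Y' * (X + Y') ^ 3 = 3 → X = Y' := by decide
      exact h3 X Y' hXY h
  exact key X Y' hxy0 R' j' om f l1 l2 l3 d1 d2

end

end Pool.Agent.Helper38.F5
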