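import Pool.Agent.Helper38.F5.Wilson

/-! Project F5: the case `5 ∤ z`, `p ∤ x + y`. -/

namespace Pool.Agent.Helper38.F5

open NumberField Polynomial Finset

section
variable {p : ℕ} [Fact p.Prime] {m : ℕ} (t : O →+* ZMod p)

/-- the position of the primes -/
def dd : Fin 4 → Fin 5 := ![1, 3, 2, 4]

lemma sg_ff (k : Fin 4) (x y : ℤ) (i j : Fin 5) (h : (ex k * (i : ℕ)) % 5 = (j : ℕ)) :
    sg (ex k) (ex_nd k) (ff x y i) = ff x y j := by
  unfold ff
  rw [map_add, map_mul, map_intCast, map_intCast, map_pow, sg_z, ← pow_mul, z_pow_mod, h]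

lemma L12_J {w : ZMod p} (h : QD p m w) : ok (J h) ∧ L1 (J h) = 0 ∧ L2 (J h) = 0 := by
  unfold ok L1 L2
  rw [T_J]
  unfold R4.l1 R4.l2
  simp only
  refine ⟨by decide, by ring, by ring⟩

theorem case_two_b (hp : p ≠ 5) (hq : QD p m (t z)) {x y c : ℤ} (hxy : IsCoprime x y)
    (h5 : ¬ (5 : ℤ) ∣ c) (h : x ^ 5 + y ^ 5 = (p : ℤ) ^ 2 * c ^ 5) (h0 : t (ff x y 1) = 0) :
    ind (t z) m (((4 * m).choose m : ℕ) : ZMod p) = 0 ∧ (ind (t z) m (t z) = 3 ∨
      (ind (t z) m (t ph) = 0 ∧ (ind (t z) m (t z) = 0 ∨ (x : ZMod 5) = y))) := by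
  have hs := five_dvd_iff hp h5 h
  obtain ⟨d, hd, hspl⟩ := split2 t hp hxy hs h
  have hdd : d = dd := by
    funext k
    refine ((hd k (dd k)).1 ?_).symm
    rw [pi_dvd, sg_ff k x y (dd k) 1 (by
      have : ∀ k : Fin 4, (ex k * ((dd k : Fin 5) : ℕ)) % 5 = ((1 : Fin 5) : ℕ) := by decide
      exact this k)]
    exact h0
  subst hdd
  have hok : ∀ i, ok (ff x y i) := fun i => by rw [ok_cc, T_ff]; exact hs
  have hokp := ok_pi t hp
  -- the three relations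
  obtain ⟨u1, r1, hu1, e1⟩ := hspl 1
  obtain ⟨u3, r3, hu3, e3⟩ := hspl 3
  obtain ⟨u0, r0, hu0, e0⟩ := hspl 0
  have dl1 : dl t dd 1 = pi t 0 := by
    have : ∀ l, dd l = dd 0 → l = 0 := by decide
    exact dl_single t this
  have dl3 : dl t dd 3 = pi t 1 := by
    have : ∀ l, dd l = dd 1 → l = 1 := by decide
    exact dl_single t this
  have dl0 : dl t dd 0 = 1 := by
    have : ∀ l, dd l ≠ 0 := by decide
    exact dl_one t this
  rw [dl1] at e1
  rw [dl3] at e3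
  rw [dl0, one_pow, one_mul] at e0
  have okr1 : ok r1 := ok_of_pow5 e1 (ok_mul.2 ⟨ok_pow (hokp 0) 3, hok 1⟩)
  have okr3 : ok r3 := ok_of_pow5 e3 (ok_mul.2 ⟨ok_pow (hokp 1) 3, hok 3⟩)
  have okr0 : ok r0 := ok_of_pow5 e0 (hok 0)
  -- (i) L3
  obtain ⟨l1, l2, l3⟩ := L_ff (x := x) (y := y)
  have k3 : 3 * L3 (pi1 t) + L3 (ff x y 1) = 0 := by
    have := congrArg L3 e1
    rw [L3_mul (ok_pow (hokp 0) 3) (hok 1), L3_mul (ok_unit hu1) (ok_pow okr1 5),
      L3_pow (hokp 0), L3_pow5 okr1, unit_L3 hu1, L3_pi] at this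
    have e : ((ix 0 : ℕ) : ZMod 5) ^ 3 = 1 := by decide
    rw [e] at this
    linear_combination this
  rw [← L3_J t hp hq, L3_J' t hq] at k3
  -- (ii) the factor x + y
  have ty : t (y : O) ≠ 0 := by
    refine t_y_ne t hxy (r := t z) ?_
    have : t (ff x y 1) = t (x : O) + t z * t (y : O) := by
      unfold ff
      show t ((x : O) + z ^ 1 * y) = _
      rw [pow_one, map_add, map_mul]
    rw [← this]
    exact h0
  have tx : t (x : O) = - (t z * t (y : O)) := by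
    have : t (ff x y 1) = t (x : O) + t z * t (y : O) := by
      unfold ff
      show t ((x : O) + z ^ 1 * y) = _
      rw [pow_one, map_add, map_mul]
    rw [this] at h0
    linear_combination h0
  have hval : ∀ i : Fin 5, t (ff x y i) = ((t z) ^ (i : ℕ) - t z) * t (y : O) := by
    intro i
    unfold ff
    rw [map_add, map_mul, map_pow, tx]
    ring
  have hw := hq.hw
  have hwne := s_z_ne t
  have n1 := hq.one_sub_ne (k := 1) (by norm_num) (by norm_num)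
  have n2 := hq.one_sub_ne (k := 2) (by norm_num) (by norm_num)
  have n3 := hq.one_sub_ne (k := 3) (by norm_num) (by norm_num)
  rw [pow_one] at n1
  have m1 : (-1 : ZMod p) ≠ 0 := neg_ne_zero.2 one_ne_zero
  have v0 : t (ff x y 0) = (1 - t z) * t (y : O) := by
    rw [hval]; show ((t z) ^ 0 - t z) * _ = _; ring
  have v2 : t (ff x y 2) = (-1) * (t z * ((1 - t z) * t (y : O))) := by
    rw [hval]; show ((t z) ^ 2 - t z) * _ = _; ring
  have v3 : t (ff x y 3) = (-1) * (t z * ((1 - (t z) ^ 2) * t (y : O))) := by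
    rw [hval]; show ((t z) ^ 3 - t z) * _ = _; ring
  have v4 : t (ff x y 4) = (-1) * (t z * ((1 - (t z) ^ 3) * t (y : O))) := by
    rw [hval]; show ((t z) ^ 4 - t z) * _ = _; ring
  have i0 : ind (t z) m (t (ff x y 0)) = ind (t z) m (1 - t z) + ind (t z) m (t (y : O)) := by
    rw [v0, hq.ind_mul n1 ty]
  have i2 : ind (t z) m (t (ff x y 2)) = ind (t z) m (t z) +
      (ind (t z) m (1 - t z) + ind (t z) m (t (y : O))) := by
    rw [v2, hq.ind_mul m1 (mul_ne_zero hwne (mul_ne_zero n1 ty)), hq.ind_neg_one,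
      hq.ind_mul hwne (mul_ne_zero n1 ty), hq.ind_mul n1 ty, zero_add]
  have i3 : ind (t z) m (t (ff x y 3)) = ind (t z) m (t z) +
      (ind (t z) m (1 - (t z) ^ 2) + ind (t z) m (t (y : O))) := by
    rw [v3, hq.ind_mul m1 (mul_ne_zero hwne (mul_ne_zero n2 ty)), hq.ind_neg_one,
      hq.ind_mul hwne (mul_ne_zero n2 ty), hq.ind_mul n2 ty, zero_add]
  have i4 : ind (t z) m (t (ff x y 4)) = ind (t z) m (t z) +
      (ind (t z) m (1 - (t z) ^ 3) + ind (t z) m (t (y : O))) := by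
    rw [v4, hq.ind_mul m1 (mul_ne_zero hwne (mul_ne_zero n3 ty)), hq.ind_neg_one,
      hq.ind_mul hwne (mul_ne_zero n3 ty), hq.ind_mul n3 ty, zero_add]
  have f2ne : t (ff x y 2) ≠ 0 := by
    rw [v2]; exact mul_ne_zero m1 (mul_ne_zero hwne (mul_ne_zero n1 ty))
  have f3ne : t (ff x y 3) ≠ 0 := by
    rw [v3]; exact mul_ne_zero m1 (mul_ne_zero hwne (mul_ne_zero n2 ty))
  have f4ne : t (ff x y 4) ≠ 0 := by
    rw [v4]; exact mul_ne_zero m1 (mul_ne_zero hwne (mul_ne_zero n3 ty))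
  have i00 : ind (t z) m (t (ff x y 0)) = 0 := by
    -- x + y is a fifth power in O
    have hf0 : ff x y 0 = ((x + y : ℤ) : O) := by
      unfold ff
      show (x : O) + z ^ 0 * y = _
      push_cast; ring
    have L10 : L1 (ff x y 0) = 0 := by
      unfold L1; rw [hf0, T_int]; unfold R4.l1; ring
    have L20 : L2 (ff x y 0) = 0 := by
      unfold L2; rw [hf0, T_int]; unfold R4.l2; ring
    have a1 : L1 u0 = 0 := by
      rw [e0, L1_mul (ok_unit hu0) (ok_pow okr0 5), L1_pow5 okr0, add_zero] at L10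
      exact L10
    have a2 : L2 u0 = 0 := by
      rw [e0, L2_mul (ok_unit hu0) (ok_pow okr0 5), L2_pow5 okr0, add_zero] at L20
      exact L20
    obtain ⟨Y0, hY0, hY0e⟩ := unit_fifth hu0 a1 a2
    have e : ff x y 0 = (Y0 * r0) ^ 5 := by rw [e0, hY0e]; ring
    have hne : t (ff x y 0) ≠ 0 := by rw [v0]; exact mul_ne_zero n1 ty
    rw [e, map_pow] at hne ⊢
    exact hq.ind5 (fun h => hne (by rw [h]; ring))
  -- (iii) the Jacobi sum relation
  obtain ⟨a, ha, haJ⟩ := J_factor t hp hq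
  obtain ⟨okJ, L1J, L2J⟩ := L12_J hq
  have hJrel : (J hq) ^ 3 * (ff x y 1 * ff x y 3) = (a ^ 3 * u1 * u3) * (r1 * r3) ^ 5 := by
    rw [haJ]
    linear_combination (pi t 1 ^ 3 * a ^ 3 * ff x y 3) * e1 + (a ^ 3 * u1 * r1 ^ 5) * e3
  have hU : IsUnit (a ^ 3 * u1 * u3) := ((ha.pow 3).mul hu1).mul hu3
  obtain ⟨R, j, Y, hY, hUe, hR, hj⟩ := unit_form hU
  have okr : ok (r1 * r3) := ok_mul.2 ⟨okr1, okr3⟩
  have hff3 : ff x y 3 = sg (ex 2) (ex_nd 2) (ff x y 1) := (sg_ff 2 x y 1 3 rfl).symm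
  have b1 : L1 (ff x y 3) = 3 * L1 (ff x y 1) := by
    rw [hff3, L1_sg]; rfl
  have b2 : L2 (ff x y 3) = 3 ^ 2 * L2 (ff x y 1) := by
    rw [hff3, L2_sg]; rfl
  have hR' : (R : ZMod 5) = 4 * L1 (ff x y 1) := by
    have := congrArg L1 hJrel
    rw [L1_mul (ok_pow okJ 3) (ok_mul.2 ⟨hok 1, hok 3⟩), L1_mul (hok 1) (hok 3), L1_pow okJ,
      L1_mul (ok_unit hU) (ok_pow okr 5), L1_pow5 okr, L1J, hR, b1] at this
    linear_combination -this
  have hj' : (j : ZMod 5) = 0 := by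
    have := congrArg L2 hJrel
    rw [L2_mul (ok_pow okJ 3) (ok_mul.2 ⟨hok 1, hok 3⟩), L2_mul (hok 1) (hok 3), L2_pow okJ,
      L2_mul (ok_unit hU) (ok_pow okr 5), L2_pow5 okr, L2J, hj, b2] at this
    have h5' := R4.h5
    linear_combination (-3) * this + (6 * L2 (ff x y 1) - j) * h5'
  have hg : (J hq) ^ 3 * (ff x y 1 * ff x y 3) = z ^ R * ph ^ j * (Y * (r1 * r3)) ^ 5 := by
    rw [hJrel, hUe]; ring
  obtain ⟨J3ne, J3i⟩ := ind_J3 t hq
  obtain ⟨J4ne, J4i⟩ := ind_J4 t hq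
  have s31 : sg (ex 2) (ex_nd 2) (ff x y 1) = ff x y 3 := sg_ff 2 x y 1 3 rfl
  have s33 : sg (ex 2) (ex_nd 2) (ff x y 3) = ff x y 4 := sg_ff 2 x y 3 4 rfl
  have s41 : sg (ex 3) (ex_nd 3) (ff x y 1) = ff x y 4 := sg_ff 3 x y 1 4 rfl
  have s43 : sg (ex 3) (ex_nd 3) (ff x y 3) = ff x y 2 := sg_ff 3 x y 3 2 rfl
  have E3 : 3 * ind (t z) m (((3 * m).choose m : ℕ) : ZMod p) +
      (ind (t z) m (t (ff x y 3)) + ind (t z) m (t (ff x y 4))) =
      R * (3 * ind (t z) m (t z)) := by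
    have hne : (t.comp (sg (ex 2) (ex_nd 2))) ((J hq) ^ 3 * (ff x y 1 * ff x y 3)) ≠ 0 := by
      rw [RingHom.comp_apply, map_mul, map_mul, map_pow, map_mul, map_mul, map_pow, s31, s33]
      exact mul_ne_zero (pow_ne_zero _ J3ne) (mul_ne_zero f3ne f4ne)
    have := ind_form hq (t.comp (sg (ex 2) (ex_nd 2))) hg hne
    rw [RingHom.comp_apply, RingHom.comp_apply, RingHom.comp_apply, ind_s_z t hq, map_mul,
      map_mul, map_pow, map_mul, map_mul, map_pow, s31, s33,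
      hq.ind_mul (pow_ne_zero _ J3ne) (mul_ne_zero f3ne f4ne), hq.ind_pow J3ne,
      hq.ind_mul f3ne f4ne, J3i, hj', zero_mul, add_zero] at this
    exact this
  have E4 : 3 * ind (t z) m (((4 * m).choose m : ℕ) : ZMod p) +
      (ind (t z) m (t (ff x y 4)) + ind (t z) m (t (ff x y 2))) =
      R * (4 * ind (t z) m (t z)) := by
    have hne : (t.comp (sg (ex 3) (ex_nd 3))) ((J hq) ^ 3 * (ff x y 1 * ff x y 3)) ≠ 0 := by
      rw [RingHom.comp_apply, map_mul, map_mul, map_pow, map_mul, map_mul, map_pow, s41, s43]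
      exact mul_ne_zero (pow_ne_zero _ J4ne) (mul_ne_zero f4ne f2ne)
    have := ind_form hq (t.comp (sg (ex 3) (ex_nd 3))) hg hne
    rw [RingHom.comp_apply, RingHom.comp_apply, RingHom.comp_apply, ind_s_z t hq, map_mul,
      map_mul, map_pow, map_mul, map_mul, map_pow, s41, s43,
      hq.ind_mul (pow_ne_zero _ J4ne) (mul_ne_zero f4ne f2ne), hq.ind_pow J4ne,
      hq.ind_mul f4ne f2ne, J4i, hj', zero_mul, add_zero] at this
    exact this
  have hcc := ind_choose hq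
  obtain ⟨q3, q4⟩ := hq.ind34
  have hph := hq.ind_ph
  rw [← t_ph] at hph
  rw [hR', l1] at E3 E4
  rw [l3] at k3
  have hxy0 : (x : ZMod 5) + y ≠ 0 := by
    have := hs
    rw [ok_cc, map_add, map_intCast, map_intCast] at this
    exact this
  have hx3 : ∀ X Y' : ZMod 5, X + Y' ≠ 0 → Y' * (X + Y') ^ 3 = 3 → X = Y' := by decide
  have hx3' := hx3 x y hxy0
  generalize (y : ZMod 5) * (x + y) ^ 3 = τ at *
  rw [i3, i4, q3] at E3
  rw [i4, i2, q3] at E4
  rw [q3, q4] at hph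
  rw [hcc] at E4 ⊢
  rw [i0] at i00
  generalize ind (t z) m (t (y : O)) = ga at *
  generalize ind (t z) m (1 - t z) = A at *
  generalize ind (t z) m (1 - (t z) ^ 2) = B at *
  generalize ind (t z) m (t z) = om at *
  generalize ind (t z) m (t ph) = f at *
  generalize ind (t z) m (((3 * m).choose m : ℕ) : ZMod p) = b3 at *
  have h5' := R4.h5
  have g1 : f = (τ + 2) * om := by
    linear_combination 3 * hph - E3 + 3 * E4 - 4 * i00 +
      (-f - 57 * om + 7 * τ * om - 10 * A - 8 * B - 3 * b3) * h5'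
  have g2 : b3 = 0 := by
    linear_combination E3 - 2 * E4 + 2 * i00 + (2 * b3 + om - 4 * τ * om) * h5'
  refine ⟨by rw [g2, mul_zero], ?_⟩
  have key : ∀ τ om : ZMod 5, 2 * ((τ + 2) * om) + (τ - 3 * τ ^ 2 + 2 * τ ^ 3) = 0 →
      om = 3 ∨ ((τ + 2) * om = 0 ∧ (om = 0 ∨ τ = 3)) := by decide
  rw [g1] at k3 ⊢
  rcases key τ om k3 with h | ⟨h1, h2 | h2⟩
  · exact Or.inl h
  · exact Or.inr ⟨h1, Or.inl h2⟩
  · exact Or.inr ⟨h1, Or.inr (hx3' h2)⟩

end

end Pool.Agent.Helper38.F5
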