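import Pool.Agent.Helper38.F5.Norm

/-! Project F5: the descent. -/

namespace Pool.Agent.Helper38.F5

open NumberField Polynomial

section
variable {p : ℕ} [Fact p.Prime] (t : O →+* ZMod p)

/-- what the splitting lemma gives for the configuration -/
def NoHit : Prop := ∀ (X Y : O) (g : Fin 5 → O) (c : Fin 4 → Fin 5), IsCoprime X Y → ok Y →
  (∀ i : Fin 4, lam * (eps i * g i.succ) = X + z ^ ex i * Y) →
  (∀ i : Fin 4, ∃ q, g i.succ = lam ^ 5 * q - Y) →
  (∀ k i, pi t k ∣ g i ↔ i = c k) →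
  (∀ i, ∃ u r : O, IsUnit u ∧ (dl t c i) ^ 3 * g i = u * r ^ 5) →
  ∀ k, c k = 0

lemma dl_one {c : Fin 4 → Fin 5} {j : Fin 5} (h : ∀ l, c l ≠ j) : dl t c j = 1 := by
  unfold dl
  rw [Finset.filter_eq_empty_iff.2 (fun l _ => h l), Finset.prod_empty]

lemma dl_single {c : Fin 4 → Fin 5} {k : Fin 4} (h : ∀ l, c l = c k → l = k) :
    dl t c (c k) = pi t k := by
  unfold dl
  have : Finset.univ.filter (fun l => c l = c k) = {k} := by
    ext l
    simp only [Finset.mem_filter, Finset.mem_univ, true_and, Finset.mem_singleton]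
    exact ⟨h l, fun h => by rw [h]⟩
  rw [this, Finset.prod_singleton]

/-- units with equal invariants differ by a fifth power -/
lemma unit_ratio {u v : O} (hu : IsUnit u) (hv : IsUnit v) (h1 : L1 u = L1 v) (h2 : L2 u = L2 v) :
    ∃ y, IsUnit y ∧ u = v * y ^ 5 := by
  obtain ⟨v', rfl⟩ := hv
  have hi : ((v'⁻¹ : (𝓞 K)ˣ) : O) * (v' : O) = 1 := by simp
  have hiu : IsUnit ((v'⁻¹ : (𝓞 K)ˣ) : O) := (v'⁻¹).isUnit
  have e1 : L1 ((v'⁻¹ : (𝓞 K)ˣ) : O) + L1 (v' : O) = 0 := by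
    rw [← L1_mul (ok_unit hiu) (ok_unit v'.isUnit), hi, L1_one]
  have e2 : L2 ((v'⁻¹ : (𝓞 K)ˣ) : O) + L2 (v' : O) = 0 := by
    rw [← L2_mul (ok_unit hiu) (ok_unit v'.isUnit), hi, L2_one]
  obtain ⟨y, hy, hye⟩ := unit_fifth (w := u * ((v'⁻¹ : (𝓞 K)ˣ) : O)) (hu.mul hiu)
    (by rw [L1_mul (ok_unit hu) (ok_unit hiu), h1, add_comm]; exact e1)
    (by rw [L2_mul (ok_unit hu) (ok_unit hiu), h2, add_comm]; exact e2)
  refine ⟨y, hy, ?_⟩
  linear_combination (v' : O) * hye - u * hi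

/-- two elements `u r⁵` with the same image under `T` have units differing by a fifth power -/
lemma unit_of_T {x y u v r s : O} (hx : x = u * r ^ 5) (hy : y = v * s ^ 5) (hu : IsUnit u)
    (hv : IsUnit v) (hT : T x = T y) (hok : ok x) : ∃ w, IsUnit w ∧ u = v * w ^ 5 := by
  have hoky : ok y := by unfold ok at *; rwa [← hT]
  have hr : ok r := by
    rw [hx, ok_mul] at hok
    rw [ok_iff]
    intro hd
    exact (ok_iff _).1 hok.2 (hd.trans (dvd_pow_self r (by norm_num)))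
  have hs : ok s := by
    rw [hy, ok_mul] at hoky
    rw [ok_iff]
    intro hd
    exact (ok_iff _).1 hoky.2 (hd.trans (dvd_pow_self s (by norm_num)))
  apply unit_ratio hu hv
  · have h1 : L1 x = L1 y := by unfold L1; rw [hT]
    rw [hx, hy, L1_mul (ok_unit hu) (ok_pow hr 5), L1_mul (ok_unit hv) (ok_pow hs 5),
      L1_pow5 hr, L1_pow5 hs, add_zero, add_zero] at h1
    exact h1
  · have h1 : L2 x = L2 y := by unfold L2; rw [hT]
    rw [hx, hy, L2_mul (ok_unit hu) (ok_pow hr 5), L2_mul (ok_unit hv) (ok_pow hs 5),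
      L2_pow5 hr, L2_pow5 hs, add_zero, add_zero] at h1
    exact h1

theorem descent (hp : p ≠ 5) (hN : NoHit t) (n : ℕ) : ∀ (X Y Z e : O), 1 ≤ n → IsUnit e →
    IsCoprime X Y → ok Z → X ^ 5 + Y ^ 5 = e * (p : O) ^ 2 * lam ^ (5 * n) * Z ^ 5 → False := by
  induction n with
  | zero => intro X Y Z e h; omega
  | succ n ih =>
  intro X Y Z e hn he hXY hZ h
  -- normalise
  have hd : lam ∣ X ^ 5 + Y ^ 5 := by
    rw [h]
    exact Dvd.dvd.mul_right (Dvd.dvd.mul_left (dvd_pow_self lam (by omega)) _) _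
  obtain ⟨-, -, r, hr⟩ := normalise hXY hd
  set Y' := z ^ r * Y with hY'
  have hY5 : Y' ^ 5 = Y ^ 5 := by
    rw [hY', mul_pow, ← pow_mul, mul_comm r 5, pow_mul, z5, one_pow, one_mul]
  have hXY' : IsCoprime X Y' :=
    (isCoprime_mul_unit_left_right (z_unit.pow r) X Y).2 hXY
  rw [← hY5] at h
  obtain ⟨hn2, hYok, g0, e', g, he', hg0, hgg, hsum, hg, hge, hco, hprod⟩ :=
    config hp hn he hXY' hZ h hr
  obtain ⟨c, hc, hsplit⟩ := split t hp g hco e' Z he' hprod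
  have hlam5 : ∀ i : Fin 4, ∃ q, g i.succ = lam ^ 5 * q - Y' := by
    intro i
    refine ⟨kap i * lam ^ (5 * (n + 1) - 10) * g0, ?_⟩
    rw [hg i]
    have e2 : lam ^ (5 * (n + 1) - 5) = lam ^ (5 * (n + 1) - 10) * lam ^ 5 := by
      rw [← pow_add]; congr 1; omega
    rw [e2]
    ring
  have hc0 := hN X Y' g c hXY' hYok hge hlam5 hc hsplit
  have hTg : ∀ i : Fin 4, T (g i.succ) = - T Y' := by
    intro i
    obtain ⟨q, hq⟩ := hlam5 i
    rw [hq, map_sub, map_mul, T_lam5, zero_mul, zero_sub]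
  have hokg : ∀ i : Fin 4, ok (g i.succ) := by
    intro i
    unfold ok
    rw [hTg i, R4.neg_a0]
    exact neg_ne_zero.2 hYok
  have hd1 : ∀ j : Fin 5, j ≠ 0 → dl t c j = 1 := by
    intro j hj
    apply dl_one
    intro l h
    rw [hc0 l] at h
    exact hj h.symm
  obtain ⟨u1, r1, hu1, h1⟩ := hsplit 1
  obtain ⟨u2, r2, hu2, h2⟩ := hsplit 2
  rw [hd1 1 (by decide), one_pow, one_mul] at h1
  rw [hd1 2 (by decide), one_pow, one_mul] at h2
  have e1 : g 1 = g (0 : Fin 4).succ := rfl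
  have e2 : g 2 = g (1 : Fin 4).succ := rfl
  obtain ⟨w, hw, huw⟩ := unit_of_T h2 h1 hu2 hu1 (by rw [e1, e2, hTg, hTg]) (by rw [e2]; exact hokg 1)
  -- the factor g 0
  obtain ⟨u0, r0, hu0, h0⟩ := hsplit 0
  have hdl0 : dl t c 0 = ∏ k, pi t k := by
    unfold dl
    rw [Finset.filter_true_of_mem (fun k _ => hc0 k)]
  obtain ⟨v, hv⟩ := prod_pi t hp
  have hdvd : (∏ k, pi t k) ∣ r0 := by
    refine Finset.prod_dvd_of_coprime ?_ ?_
    · intro k _ l _ hkl
      exact pi_coprime t hp hkl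
    · intro k _
      have hk : pi t k ∣ u0 * r0 ^ 5 := by
        rw [← h0, hdl0]
        refine Dvd.dvd.mul_right ?_ _
        exact (Finset.dvd_prod_of_mem _ (Finset.mem_univ k)).trans (dvd_pow_self _ (by norm_num))
      rcases (pi_prime t k).dvd_or_dvd hk with h | h
      · exact absurd (isUnit_of_dvd_unit h hu0) (pi_prime t k).not_isUnit
      · exact (pi_prime t k).dvd_of_dvd_pow h
  obtain ⟨r0', hr0'⟩ := hdvd
  have hP0 : (∏ k, pi t k) ≠ 0 := Finset.prod_ne_zero_iff.2 fun k _ => (pi_prime t k).ne_zero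
  have hg0' : g 0 = u0 * (∏ k, pi t k) ^ 2 * r0' ^ 5 := by
    apply mul_left_cancel₀ (pow_ne_zero 3 hP0)
    rw [hdl0, hr0'] at h0
    linear_combination h0
  have hokr : ok r0' := by
    have : ok (g 0) := by rw [hgg]; exact hg0
    rw [hg0', ok_mul] at this
    rw [ok_iff]
    intro hd
    exact (ok_iff _).1 this.2 (hd.trans (dvd_pow_self r0' (by norm_num)))
  have hvi : (v : O) * ((v⁻¹ : (𝓞 K)ˣ) : O) = 1 := by simp
  -- the relation
  obtain ⟨u1', rfl⟩ := hu1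
  have hui : (u1' : O) * ((u1'⁻¹ : (𝓞 K)ˣ) : O) = 1 := by simp
  have hkap : kap 1 * (1 + z) = 1 := by
    rw [mul_comm]
    exact eps_kap 1
  have hrel : (w * r2) ^ 5 + (- r1) ^ 5 =
      (-z * kap 1 * ((u1'⁻¹ : (𝓞 K)ˣ) : O) * u0 * ((v⁻¹ : (𝓞 K)ˣ) : O) ^ 2) *
      (p : O) ^ 2 * lam ^ (5 * n) * r0' ^ 5 := by
    have h3 : (1 + z) * (g 2 - g 1) = - z * lam ^ (5 * (n + 1) - 5) * g 0 := by
      rw [e1, e2, hg, hg, hgg]
      have hk : (1 + z) * (kap 1 - kap 0) = - z := by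
        show (1 + z) * ((1 + z ^ 2 + z ^ 4) - 1) = - z
        linear_combination z_rel + z5
      linear_combination lam ^ (5 * (n + 1) - 5) * g0 * hk
    have e3 : 5 * (n + 1) - 5 = 5 * n := by omega
    rw [e3, h1, h2, hg0', huw] at h3
    rw [← hv]
    linear_combination (kap 1 * ((u1'⁻¹ : (𝓞 K)ˣ) : O)) * h3 -
      ((w * r2) ^ 5 + (- r1) ^ 5) * ((u1'⁻¹ : (𝓞 K)ˣ) : O) * u1' * hkap -
      ((w * r2) ^ 5 + (- r1) ^ 5) * hui -
      (-z * kap 1 * ((u1'⁻¹ : (𝓞 K)ˣ) : O) * u0 * (∏ k, pi t k) ^ 2 * lam ^ (5 * n) * r0' ^ 5) *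
        (v * ((v⁻¹ : (𝓞 K)ˣ) : O) + 1) * hvi
  have hcop : IsCoprime (w * r2) (- r1) := by
    have h21 := hco 2 1 (by decide)
    rw [IsCoprime.neg_right_iff, isCoprime_mul_unit_left_left hw]
    refine (h21.of_isCoprime_of_dvd_left ?_).of_isCoprime_of_dvd_right ?_
    · rw [h2]
      exact Dvd.dvd.mul_left (dvd_pow_self _ (by norm_num)) _
    · rw [h1]
      exact Dvd.dvd.mul_left (dvd_pow_self _ (by norm_num)) _
  refine ih (w * r2) (- r1) r0' _ (by omega) ?_ hcop hokr hrel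
  exact ((((z_unit.neg).mul (kap_unit 1)).mul (u1'⁻¹).isUnit).mul hu0).mul ((v⁻¹).isUnit.pow 2)

end

end Pool.Agent.Helper38.F5
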