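import Pool.Agent.Helper38.F5.Wilson

/-! Project F5: exclusion of the primes above `p` from `h_1, …, h_4` when the golden ratio is a
quintic residue. -/

namespace Pool.Agent.Helper38.F5

open NumberField Polynomial Finset

section
variable {p : ℕ} [Fact p.Prime] {m : ℕ} (t : O →+* ZMod p)

lemma ind_sign {w : ZMod p} (h : QD p m w) {s : ZMod p} (hs : s = 1 ∨ s = -1) :
    s ≠ 0 ∧ ind w m s = 0 := by
  rcases hs with rfl | rfl
  · exact ⟨one_ne_zero, h.ind_one⟩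
  · exact ⟨neg_ne_zero.2 one_ne_zero, h.ind_neg_one⟩

/-- if `φ` has index zero then the two products have the same index -/
lemma ind_of_RP (hq : QD p m (t z)) (hph : ind (t z) m (t ph) = 0) {i j j' : ℕ}
    (hR : RP (t z) i j j') (hA : (1 - (t z) ^ j) * ((t z) ^ j' - (t z) ^ i) ≠ 0)
    (hB : (1 - (t z) ^ j') * ((t z) ^ j - (t z) ^ i) ≠ 0) :
    ind (t z) m ((1 - (t z) ^ j) * ((t z) ^ j' - (t z) ^ i)) =
      ind (t z) m ((1 - (t z) ^ j') * ((t z) ^ j - (t z) ^ i)) := by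
  obtain ⟨s, hs, h⟩ := hR
  obtain ⟨s0, si⟩ := ind_sign hq hs
  rw [← t_ph] at h
  have hp0 := s_ph_ne t
  generalize (1 - (t z) ^ j) * ((t z) ^ j' - (t z) ^ i) = A at *
  generalize (1 - (t z) ^ j') * ((t z) ^ j - (t z) ^ i) = B at *
  rcases h with h | h | h | h
  · rw [h, hq.ind_mul (mul_ne_zero s0 hp0) hB, hq.ind_mul s0 hp0, si, hph]; ring
  · rw [h, hq.ind_mul (mul_ne_zero s0 (pow_ne_zero _ hp0)) hB, hq.ind_mul s0 (pow_ne_zero _ hp0),
      si, hq.ind_pow hp0, hph]; ring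
  · rw [h, hq.ind_mul (mul_ne_zero s0 hp0) hA, hq.ind_mul s0 hp0, si, hph]; ring
  · rw [h, hq.ind_mul (mul_ne_zero s0 (pow_ne_zero _ hp0)) hA, hq.ind_mul s0 (pow_ne_zero _ hp0),
      si, hq.ind_pow hp0, hph]; ring

lemma sg_pi (a : ℕ) (ha : ¬ 5 ∣ a) (k l : Fin 4) (h : (a * ix k) % 5 = ix l) :
    sg a ha (pi t k) = pi t l := by
  unfold pi
  apply sg_comp_eq
  rw [h]
  have : ∀ l : Fin 4, ix l = ix l % 5 := by decide
  exact this l

theorem noHitB (hp : p ≠ 5) (hq : QD p m (t z)) (hph : ind (t z) m (t ph) = 0)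
    (hC : ind (t z) m (((4 * m).choose m : ℕ) : ZMod p) ≠ 0)
    (hcount : ∀ (Y : O) (g : Fin 5 → O) (c : Fin 4 → Fin 5), ok Y →
      (∀ i : Fin 4, ∃ q, g i.succ = lam ^ 5 * q - Y) →
      (∀ i, ∃ u r : O, IsUnit u ∧ (dl t c i) ^ 3 * g i = u * r ^ 5) →
      ∀ i j : Fin 4, (univ.filter (fun k => c k = i.succ)).card =
        (univ.filter (fun k => c k = j.succ)).card) :
    NoHit t := by
  intro X Y g c hXY hY hge hlam5 hc hsplit
  have hcnt := hcount Y g c hY hlam5 hsplit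
  have hTg : ∀ i : Fin 4, T (g i.succ) = - T Y := by
    intro i
    obtain ⟨q, hq⟩ := hlam5 i
    rw [hq, map_sub, map_mul, T_lam5, zero_mul, zero_sub]
  have hokg : ∀ i : Fin 4, ok (g i.succ) := by
    intro i
    unfold ok
    rw [hTg i, R4.neg_a0]
    exact neg_ne_zero.2 hY
  have hge' : ∀ i : Fin 4, (1 - z ^ ex i) * g i.succ = X + z ^ ex i * Y := by
    intro i
    rw [← lam_eps, mul_assoc]
    exact hge i
  -- combinatorics
  have hcomb : ∀ c : Fin 4 → Fin 5, (∀ i j : Fin 4, (univ.filter (fun k => c k = i.succ)).card =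
      (univ.filter (fun k => c k = j.succ)).card) → (∀ k, c k = 0) ∨
      ((∀ k, c k ≠ 0) ∧ ∀ k l, c k = c l → k = l) := by
    decide +kernel
  rcases hcomb c hcnt with h0 | ⟨hne0, hinj⟩
  · exact h0
  exfalso
  -- indices
  have hi : ∀ k, ∃ i : Fin 4, i.succ = c k := fun k => Fin.exists_succ_eq.2 (hne0 k)
  choose e he using hi
  have hokp := ok_pi t hp
  have hrel : ∀ k, ∃ u r : O, IsUnit u ∧ (pi t k) ^ 3 * g (c k) = u * r ^ 5 := by
    intro k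
    obtain ⟨u, r, hu, h⟩ := hsplit (c k)
    rw [dl_single t (fun l hl => hinj l k hl)] at h
    exact ⟨u, r, hu, h⟩
  obtain ⟨u1, r1, hu1, e1⟩ := hrel 1
  obtain ⟨u2, r2, hu2, e2⟩ := hrel 2
  obtain ⟨u3, r3, hu3, e3⟩ := hrel 3
  have okg : ∀ k, ok (g (c k)) := fun k => by rw [← he k]; exact hokg _
  have okr1 : ok r1 := ok_of_pow5 e1 (ok_mul.2 ⟨ok_pow (hokp 1) 3, okg 1⟩)
  have okr2 : ok r2 := ok_of_pow5 e2 (ok_mul.2 ⟨ok_pow (hokp 2) 3, okg 2⟩)
  have okr3 : ok r3 := ok_of_pow5 e3 (ok_mul.2 ⟨ok_pow (hokp 3) 3, okg 3⟩)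
  obtain ⟨a, ha, haJ⟩ := J_factor t hp hq
  set J3 := sg (ex 2) (ex_nd 2) (J hq) with hJ3
  set J4 := sg (ex 3) (ex_nd 3) (J hq) with hJ4
  have f3 : J3 = pi t 1 * pi t 3 * sg (ex 2) (ex_nd 2) a := by
    rw [hJ3, haJ, map_mul, map_mul, sg_pi t _ _ 0 1 rfl, sg_pi t _ _ 1 3 rfl]
  have f4 : J4 = pi t 3 * pi t 2 * sg (ex 3) (ex_nd 3) a := by
    rw [hJ4, haJ, map_mul, map_mul, sg_pi t _ _ 0 3 rfl, sg_pi t _ _ 1 2 rfl]
  have okJ : ok (J hq) ∧ L1 (J hq) = 0 ∧ L2 (J hq) = 0 := by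
    unfold ok L1 L2
    rw [T_J]
    unfold R4.l1 R4.l2
    simp only
    refine ⟨by decide, by ring, by ring⟩
  have okJ3 : ok J3 := by
    unfold ok; rw [hJ3, T_sg]; exact okJ.1
  have okJ4 : ok J4 := by
    unfold ok; rw [hJ4, T_sg]; exact okJ.1
  have L1J3 : L1 J3 = 0 := by rw [hJ3, L1_sg, okJ.2.1, mul_zero]
  have L2J3 : L2 J3 = 0 := by rw [hJ3, L2_sg, okJ.2.2, mul_zero]
  have L1J4 : L1 J4 = 0 := by rw [hJ4, L1_sg, okJ.2.1, mul_zero]
  have L2J4 : L2 J4 = 0 := by rw [hJ4, L2_sg, okJ.2.2, mul_zero]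
  have q3 : J3 ^ 3 * (g (c 1) * g (c 3)) =
      ((sg (ex 2) (ex_nd 2) a) ^ 3 * u1 * u3) * (r1 * r3) ^ 5 := by
    rw [f3]
    linear_combination (pi t 3 ^ 3 * (sg (ex 2) (ex_nd 2) a) ^ 3 * g (c 3)) * e1 +
      ((sg (ex 2) (ex_nd 2) a) ^ 3 * u1 * r1 ^ 5) * e3
  have q4 : J4 ^ 3 * (g (c 3) * g (c 2)) =
      ((sg (ex 3) (ex_nd 3) a) ^ 3 * u3 * u2) * (r3 * r2) ^ 5 := by
    rw [f4]
    linear_combination (pi t 2 ^ 3 * (sg (ex 3) (ex_nd 3) a) ^ 3 * g (c 2)) * e3 +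
      ((sg (ex 3) (ex_nd 3) a) ^ 3 * u3 * r3 ^ 5) * e2
  have hU3 : IsUnit ((sg (ex 2) (ex_nd 2) a) ^ 3 * u1 * u3) :=
    ((((ha.map (sg (ex 2) (ex_nd 2))).pow 3).mul hu1).mul hu3)
  have hU4 : IsUnit ((sg (ex 3) (ex_nd 3) a) ^ 3 * u3 * u2) :=
    ((((ha.map (sg (ex 3) (ex_nd 3))).pow 3).mul hu3).mul hu2)
  have lg1 : ∀ k, L1 (g (c k)) = L1 (-Y) := by
    intro k; unfold L1; rw [← he k, hTg, map_neg]
  have lg2 : ∀ k, L2 (g (c k)) = L2 (-Y) := by
    intro k; unfold L2; rw [← he k, hTg, map_neg]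
  obtain ⟨y, hy, hyU⟩ := unit_ratio hU3 hU4
    (by
      have a1 := congrArg L1 q3
      have a2 := congrArg L1 q4
      rw [L1_mul (ok_pow okJ3 3) (ok_mul.2 ⟨okg 1, okg 3⟩), L1_mul (okg 1) (okg 3), L1_pow okJ3,
        L1J3, L1_mul (ok_unit hU3) (ok_pow (ok_mul.2 ⟨okr1, okr3⟩) 5),
        L1_pow5 (ok_mul.2 ⟨okr1, okr3⟩), lg1, lg1] at a1
      rw [L1_mul (ok_pow okJ4 3) (ok_mul.2 ⟨okg 3, okg 2⟩), L1_mul (okg 3) (okg 2), L1_pow okJ4,
        L1J4, L1_mul (ok_unit hU4) (ok_pow (ok_mul.2 ⟨okr3, okr2⟩) 5),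
        L1_pow5 (ok_mul.2 ⟨okr3, okr2⟩), lg1, lg1] at a2
      linear_combination a2 - a1)
    (by
      have a1 := congrArg L2 q3
      have a2 := congrArg L2 q4
      rw [L2_mul (ok_pow okJ3 3) (ok_mul.2 ⟨okg 1, okg 3⟩), L2_mul (okg 1) (okg 3), L2_pow okJ3,
        L2J3, L2_mul (ok_unit hU3) (ok_pow (ok_mul.2 ⟨okr1, okr3⟩) 5),
        L2_pow5 (ok_mul.2 ⟨okr1, okr3⟩), lg2, lg2] at a1
      rw [L2_mul (ok_pow okJ4 3) (ok_mul.2 ⟨okg 3, okg 2⟩), L2_mul (okg 3) (okg 2), L2_pow okJ4,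
        L2J4, L2_mul (ok_unit hU4) (ok_pow (ok_mul.2 ⟨okr3, okr2⟩) 5),
        L2_pow5 (ok_mul.2 ⟨okr3, okr2⟩), lg2, lg2] at a2
      linear_combination a2 - a1)
  -- apply t
  have hpi0 : ∀ x, pi t 0 ∣ x ↔ t x = 0 := by
    intro x
    rw [pi_dvd]
    have : sg (ex 0) (ex_nd 0) x = x := sg_one' x
    rw [this]
  have tg0 : t (g (c 0)) = 0 := by rw [← hpi0, hc]
  have tgk : ∀ k, k ≠ 0 → t (g (c k)) ≠ 0 := by
    intro k hk h
    rw [← hpi0, hc] at h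
    exact hk (hinj k 0 h)
  obtain ⟨J3ne, J3i⟩ := ind_J3 t hq
  obtain ⟨J4ne, J4i⟩ := ind_J4 t hq
  rw [← hJ3] at J3ne J3i
  rw [← hJ4] at J4ne J4i
  set V := (sg (ex 3) (ex_nd 3) a) ^ 3 * u3 * u2 with hV
  have tV : t V ≠ 0 := by
    have := hU4.map t
    exact this.ne_zero
  have hI3 : 3 * ind (t z) m (t J3) + (ind (t z) m (t (g (c 1))) + ind (t z) m (t (g (c 3)))) =
      ind (t z) m (t V) := by
    have e5 : J3 ^ 3 * (g (c 1) * g (c 3)) = V * (y * (r1 * r3)) ^ 5 := by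
      rw [q3, hyU]; ring
    have e6 := congrArg (fun a => ind (t z) m (t a)) e5
    simp only [map_mul, map_pow] at e6
    have hne : t J3 ^ 3 * (t (g (c 1)) * t (g (c 3))) ≠ 0 :=
      mul_ne_zero (pow_ne_zero _ J3ne) (mul_ne_zero (tgk 1 (by decide)) (tgk 3 (by decide)))
    have hr : t y * (t r1 * t r3) ≠ 0 := by
      intro h0
      apply hne
      have := congrArg t e5
      simp only [map_mul, map_pow] at this
      rw [this, h0]
      ring
    rw [hq.ind_mul (pow_ne_zero _ J3ne) (mul_ne_zero (tgk 1 (by decide)) (tgk 3 (by decide))),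
      hq.ind_pow J3ne, hq.ind_mul (tgk 1 (by decide)) (tgk 3 (by decide)),
      hq.ind_mul tV (pow_ne_zero _ hr), hq.ind5 hr, add_zero] at e6
    exact e6
  have hI4 : 3 * ind (t z) m (t J4) + (ind (t z) m (t (g (c 3))) + ind (t z) m (t (g (c 2)))) =
      ind (t z) m (t V) := by
    have e6 := congrArg (fun a => ind (t z) m (t a)) q4
    simp only [map_mul, map_pow] at e6
    have hne : t J4 ^ 3 * (t (g (c 3)) * t (g (c 2))) ≠ 0 :=
      mul_ne_zero (pow_ne_zero _ J4ne) (mul_ne_zero (tgk 3 (by decide)) (tgk 2 (by decide)))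
    have hr : t r3 * t r2 ≠ 0 := by
      intro h0
      apply hne
      have := congrArg t q4
      simp only [map_mul, map_pow] at this
      rw [this, h0]
      ring
    rw [hq.ind_mul (pow_ne_zero _ J4ne) (mul_ne_zero (tgk 3 (by decide)) (tgk 2 (by decide))),
      hq.ind_pow J4ne, hq.ind_mul (tgk 3 (by decide)) (tgk 2 (by decide)),
      hq.ind_mul tV (pow_ne_zero _ hr), hq.ind5 hr, add_zero] at e6
    exact e6
  -- equality of the indices of g (c 1), g (c 2)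
  have hcr : ind (t z) m (t (g (c 1))) = ind (t z) m (t (g (c 2))) := by
    have hsX : t X + (t z) ^ ex (e 0) * t Y = 0 := by
      have := congrArg t (hge' (e 0))
      rw [he 0, map_mul, tg0, mul_zero, map_add, map_mul, map_pow] at this
      exact this.symm
    have hsY : t Y ≠ 0 := by
      intro h
      rw [h, mul_zero, add_zero] at hsX
      rw [← hpi0] at h hsX
      exact (pi_prime t 0).not_isUnit (hXY.isUnit_of_dvd' hsX h)
    have hs : ∀ k, (1 - (t z) ^ ex (e k)) * t (g (c k)) =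
        ((t z) ^ ex (e k) - (t z) ^ ex (e 0)) * t Y := by
      intro k
      have := congrArg t (hge' (e k))
      rw [he k] at this
      simp only [map_mul, map_add, map_sub, map_pow, map_one] at this
      linear_combination this + hsX
    have hinj' := tz_inj t hp
    have hne : ∀ c d : Fin 4, c ≠ d → (t z) ^ ex c - (t z) ^ ex d ≠ 0 :=
      fun c d hcd h => hcd (hinj' (sub_eq_zero.1 h))
    have hlt : ∀ c : Fin 4, 0 < ex c ∧ ex c < 5 := by decide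
    have hne1 : ∀ c : Fin 4, 1 - (t z) ^ ex c ≠ 0 :=
      fun c => hq.one_sub_ne (hlt c).1 (hlt c).2
    have hee : ∀ k l, k ≠ l → e k ≠ e l := by
      intro k l hkl h
      apply hkl
      apply hinj
      rw [← he k, ← he l, h]
    have hA : (1 - (t z) ^ ex (e 1)) * ((t z) ^ ex (e 2) - (t z) ^ ex (e 0)) ≠ 0 :=
      mul_ne_zero (hne1 _) (hne _ _ (hee 2 0 (by decide)))
    have hB : (1 - (t z) ^ ex (e 2)) * ((t z) ^ ex (e 1) - (t z) ^ ex (e 0)) ≠ 0 :=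
      mul_ne_zero (hne1 _) (hne _ _ (hee 1 0 (by decide)))
    have hcross : (1 - (t z) ^ ex (e 1)) * ((t z) ^ ex (e 2) - (t z) ^ ex (e 0)) * t (g (c 1)) =
        (1 - (t z) ^ ex (e 2)) * ((t z) ^ ex (e 1) - (t z) ^ ex (e 0)) * t (g (c 2)) := by
      apply mul_right_cancel₀ hsY
      linear_combination ((t z) ^ ex (e 2) - (t z) ^ ex (e 0)) * t Y * hs 1 -
        ((t z) ^ ex (e 1) - (t z) ^ ex (e 0)) * t Y * hs 2
    have hRP := ratio (tz_rel t) (e 0) (e 1) (e 2) (hee 0 1 (by decide)) (hee 0 2 (by decide))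
      (hee 1 2 (by decide))
    have hAB := ind_of_RP t hq hph hRP hA hB
    have := congrArg (ind (t z) m) hcross
    rw [hq.ind_mul hA (tgk 1 (by decide)), hq.ind_mul hB (tgk 2 (by decide)), hAB] at this
    exact add_left_cancel this
  have hcc := ind_choose hq
  rw [J3i] at hI3
  rw [J4i] at hI4
  apply hC
  rw [hcc] at hI4 ⊢
  rw [hcr] at hI3
  have h5 := R4.h5
  linear_combination 4 * (hI4 - hI3) - 2 * ind (t z) m (((3 * m).choose m : ℕ) : ZMod p) * h5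

end

end Pool.Agent.Helper38.F5
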