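import Pool.Agent.Helper38.F5.Main
import Pool.Agent.Helper38.F5.NoHitB
import Pool.Agent.Helper87.F5.Count

/-! Project F5: final theorem. -/

namespace Pool.Agent.Helper38.F5

open NumberField Polynomial Finset

section
variable {p : ℕ} [Fact p.Prime] {m : ℕ}

/-- converse of `fib_of` -/
lemma pow_of_fib {f : ZMod p} (hf : f ^ 2 = f + 1) (hm : p - 1 = 5 * m) (hm2 : Even m)
    (h : p ∣ Nat.fib m) : f ^ m = 1 := by
  have h1 := binet f hf m
  rw [(ZMod.natCast_eq_zero_iff _ _).2 h, zero_mul] at h1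
  have e : f * (1 - f) = -1 := by linear_combination -hf
  have h2 := congrArg (· ^ m) e
  simp only [mul_pow, hm2.neg_one_pow] at h2
  have h3 : f ^ m * f ^ m = 1 := by
    rw [← h2]; linear_combination -(f ^ m) * h1
  have hf0 : f ≠ 0 := by
    rintro rfl
    norm_num at hf
  have h5 := ZMod.pow_card_sub_one_eq_one hf0
  rw [hm, mul_comm, pow_mul] at h5
  calc f ^ m = (f ^ m) ^ 5 * 1 - ((f ^ m * f ^ m) ^ 2 - 1) * f ^ m := by ring
    _ = 1 := by rw [h5, h3]; ring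

lemma ind_ph_zero (t : O →+* ZMod p) (hp : p ≠ 5) (hm : p - 1 = 5 * m) (hm2 : Even m)
    (h : p ∣ Nat.fib m) : ind (t z) m (t ph) = 0 := by
  have := (mk_QD t hp hm hm2).ind_of (s_ph_ne t) (a := 0)
    (by rw [pow_zero, pow_of_fib (t_ph_sq t) hm hm2 h])
  simpa using this

end

/-- the final theorem -/
theorem final {p : ℕ} (hpp : p.Prime) (hp5 : p % 5 = 1)
    (hC : (¬ p ∣ Nat.fib ((p - 1) / 5) ∧ (p % 25 ≠ 16 ∨
        ¬ ((4 * ((p - 1) / 5)).choose ((p - 1) / 5)) ^ ((p - 1) / 5) ≡ 1 [MOD p])) ∨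
      (p ∣ Nat.fib ((p - 1) / 5) ∧ p % 25 ≠ 1 ∧ p % 25 ≠ 6 ∧
        ¬ ((4 * ((p - 1) / 5)).choose ((p - 1) / 5)) ^ ((p - 1) / 5) ≡ 1 [MOD p]))
    (A B C D : ℕ) (hA : 0 < A) (hB : 0 < B) (hD : 0 < D) (h1 : A + B = C)
    (h2 : A * B * C = D ^ 5) (hg : Nat.gcd (Nat.gcd A B) C = p) : False := by
  rcases hC with ⟨c1, c2⟩ | ⟨c1, c2, c3, c4⟩
  · exact core hpp hp5 c1 c2 A B C D hA hB hD h1 h2 hg
  have : Fact p.Prime := ⟨hpp⟩
  obtain ⟨x, y, c, hxy, hx, hy, hc, h⟩ :=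
    Pool.Agent.Helper87.F5.reduce p hpp A B C D hA hB hD h1 h2 hg
  have hp : p ≠ 5 := by rintro rfl; omega
  have hm : p - 1 = 5 * ((p - 1) / 5) := by omega
  have hm2 : Even ((p - 1) / 5) := by
    have hodd := hpp.eq_two_or_odd
    rw [Nat.even_iff]
    omega
  have hC' : ((((4 * ((p - 1) / 5)).choose ((p - 1) / 5) : ℕ) : ZMod p)) ^ ((p - 1) / 5) ≠ 1 := by
    intro h0
    apply c4
    rw [← ZMod.natCast_eq_natCast_iff]
    push_cast
    exact h0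
  by_cases h5 : (5 : ℤ) ∣ c
  · obtain ⟨t⟩ := exists_t p hm
    have hq := mk_QD t hp hm hm2
    refine case_one t hp (noHitB t hp hq (ind_ph_zero t hp hm hm2 c1) ?_ ?_) hxy hc h5 h
    · intro h0
      exact hC' (ind_zero_pow hq (choose_ne (by omega) (by omega)) h0)
    · intro Y g c hY hlam5 hsplit
      exact Pool.Agent.Helper87.F5.count_eq t hp5 c2 hY hlam5 hsplit
  · rcases case_two hp5 hm hm2 hxy h5 h with ⟨-, h3 | h3⟩ | ⟨h3, -⟩
    · exact c2 h3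
    · exact c3 h3
    · exact hC' h3

end Pool.Agent.Helper38.F5
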