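import Pool.Agent.Helper38.F5.Split

/-! Project F5: explicit unit identities. -/

namespace Pool.Agent.Helper38.F5

open NumberField Polynomial

section
variable {R : Type*} [CommRing R] {w : R} (hw : w ^ 4 + w ^ 3 + w ^ 2 + w + 1 = 0)

/-- the two products differ by `±φ^{±1}` or `±φ^{±2}` -/
def RP (w : R) (i j j' : ℕ) : Prop :=
  ∃ s : R, (s = 1 ∨ s = -1) ∧
    ((1 - w ^ j) * (w ^ j' - w ^ i) = s * (-(w ^ 2 + w ^ 3)) * ((1 - w ^ j') * (w ^ j - w ^ i)) ∨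
     (1 - w ^ j) * (w ^ j' - w ^ i) = s * (-(w ^ 2 + w ^ 3)) ^ 2 *
       ((1 - w ^ j') * (w ^ j - w ^ i)) ∨
     (1 - w ^ j') * (w ^ j - w ^ i) = s * (-(w ^ 2 + w ^ 3)) * ((1 - w ^ j) * (w ^ j' - w ^ i)) ∨
     (1 - w ^ j') * (w ^ j - w ^ i) = s * (-(w ^ 2 + w ^ 3)) ^ 2 *
       ((1 - w ^ j) * (w ^ j' - w ^ i)))

include hw

lemma r123 : RP w 1 2 3 :=
  ⟨1, Or.inl rfl, Or.inl <| by linear_combination ((-1)*w^1 + (1)*w^2 + (1)*w^3 + (-1)*w^4) * hw⟩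
lemma r124 : RP w 1 2 4 :=
  ⟨1, Or.inl rfl, Or.inr <| Or.inl <| by linear_combination ((-1)*w^1 + (1)*w^2 + (1)*w^3 + (-2)*w^6 + (1)*w^8) * hw⟩
lemma r132 : RP w 1 3 2 :=
  ⟨1, Or.inl rfl, Or.inr <| Or.inr <| Or.inl <| by linear_combination ((-1)*w^1 + (1)*w^2 + (1)*w^3 + (-1)*w^4) * hw⟩
lemma r134 : RP w 1 3 4 :=
  ⟨1, Or.inl rfl, Or.inl <| by linear_combination ((-1)*w^1 + (1)*w^2 + (-1)*w^3 + (2)*w^4 + (-1)*w^6) * hw⟩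
lemma r142 : RP w 1 4 2 :=
  ⟨1, Or.inl rfl, Or.inr <| Or.inr <| Or.inr <| by linear_combination ((-1)*w^1 + (1)*w^2 + (1)*w^3 + (-2)*w^6 + (1)*w^8) * hw⟩
lemma r143 : RP w 1 4 3 :=
  ⟨1, Or.inl rfl, Or.inr <| Or.inr <| Or.inl <| by linear_combination ((-1)*w^1 + (1)*w^2 + (-1)*w^3 + (2)*w^4 + (-1)*w^6) * hw⟩
lemma r213 : RP w 2 1 3 :=
  ⟨-1, Or.inr rfl, Or.inr <| Or.inr <| Or.inl <| by linear_combination ((1)*w^1 + (-2)*w^2 + (1)*w^3) * hw⟩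
lemma r214 : RP w 2 1 4 :=
  ⟨-1, Or.inr rfl, Or.inl <| by linear_combination ((-1)*w^2 + (1)*w^3 + (1)*w^4 + (-1)*w^5) * hw⟩
lemma r231 : RP w 2 3 1 :=
  ⟨-1, Or.inr rfl, Or.inl <| by linear_combination ((1)*w^1 + (-2)*w^2 + (1)*w^3) * hw⟩
lemma r234 : RP w 2 3 4 :=
  ⟨1, Or.inl rfl, Or.inr <| Or.inl <| by linear_combination ((-1)*w^2 + (1)*w^3 + (1)*w^4 + (-2)*w^7 + (1)*w^9) * hw⟩
lemma r241 : RP w 2 4 1 :=
  ⟨-1, Or.inr rfl, Or.inr <| Or.inr <| Or.inl <| by linear_combination ((-1)*w^2 + (1)*w^3 + (1)*w^4 + (-1)*w^5) * hw⟩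
lemma r243 : RP w 2 4 3 :=
  ⟨1, Or.inl rfl, Or.inr <| Or.inr <| Or.inr <| by linear_combination ((-1)*w^2 + (1)*w^3 + (1)*w^4 + (-2)*w^7 + (1)*w^9) * hw⟩
lemma r312 : RP w 3 1 2 :=
  ⟨1, Or.inl rfl, Or.inr <| Or.inr <| Or.inr <| by linear_combination ((1)*w^1 + (-1)*w^2 + (-2)*w^3 + (2)*w^4 + (1)*w^5 + (-1)*w^6) * hw⟩
lemma r314 : RP w 3 1 4 :=
  ⟨-1, Or.inr rfl, Or.inr <| Or.inr <| Or.inl <| by linear_combination ((1)*w^1 + (-1)*w^2 + (-1)*w^3 + (1)*w^4) * hw⟩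
lemma r321 : RP w 3 2 1 :=
  ⟨1, Or.inl rfl, Or.inr <| Or.inl <| by linear_combination ((1)*w^1 + (-1)*w^2 + (-2)*w^3 + (2)*w^4 + (1)*w^5 + (-1)*w^6) * hw⟩
lemma r324 : RP w 3 2 4 :=
  ⟨-1, Or.inr rfl, Or.inl <| by linear_combination ((-1)*w^3 + (1)*w^4 + (1)*w^5 + (-1)*w^6) * hw⟩
lemma r341 : RP w 3 4 1 :=
  ⟨-1, Or.inr rfl, Or.inl <| by linear_combination ((1)*w^1 + (-1)*w^2 + (-1)*w^3 + (1)*w^4) * hw⟩
lemma r342 : RP w 3 4 2 :=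
  ⟨-1, Or.inr rfl, Or.inr <| Or.inr <| Or.inl <| by linear_combination ((-1)*w^3 + (1)*w^4 + (1)*w^5 + (-1)*w^6) * hw⟩
lemma r412 : RP w 4 1 2 :=
  ⟨1, Or.inl rfl, Or.inr <| Or.inr <| Or.inl <| by linear_combination ((1)*w^1 + (-1)*w^2 + (-1)*w^3 + (1)*w^4) * hw⟩
lemma r413 : RP w 4 1 3 :=
  ⟨1, Or.inl rfl, Or.inr <| Or.inr <| Or.inr <| by linear_combination ((1)*w^1 + (-1)*w^2 + (-2)*w^4 + (2)*w^5 + (1)*w^6 + (-1)*w^7) * hw⟩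
lemma r421 : RP w 4 2 1 :=
  ⟨1, Or.inl rfl, Or.inl <| by linear_combination ((1)*w^1 + (-1)*w^2 + (-1)*w^3 + (1)*w^4) * hw⟩
lemma r423 : RP w 4 2 3 :=
  ⟨1, Or.inl rfl, Or.inr <| Or.inr <| Or.inl <| by linear_combination ((1)*w^2 + (-1)*w^3 + (-1)*w^4 + (1)*w^5) * hw⟩
lemma r431 : RP w 4 3 1 :=
  ⟨1, Or.inl rfl, Or.inr <| Or.inl <| by linear_combination ((1)*w^1 + (-1)*w^2 + (-2)*w^4 + (2)*w^5 + (1)*w^6 + (-1)*w^7) * hw⟩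
lemma r432 : RP w 4 3 2 :=
  ⟨1, Or.inl rfl, Or.inl <| by linear_combination ((1)*w^2 + (-1)*w^3 + (-1)*w^4 + (1)*w^5) * hw⟩

lemma ratio : ∀ i j j' : Fin 4, i ≠ j → i ≠ j' → j ≠ j' → RP w (ex i) (ex j) (ex j') := by
  intro i j j' h1 h2 h3
  fin_cases i <;> fin_cases j <;> fin_cases j' <;> first
    | exact absurd rfl h1
    | exact absurd rfl h2
    | exact absurd rfl h3
    | exact r123 hw
    | exact r124 hw
    | exact r132 hw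
    | exact r134 hw
    | exact r142 hw
    | exact r143 hw
    | exact r213 hw
    | exact r214 hw
    | exact r231 hw
    | exact r234 hw
    | exact r241 hw
    | exact r243 hw
    | exact r312 hw
    | exact r314 hw
    | exact r321 hw
    | exact r324 hw
    | exact r341 hw
    | exact r342 hw
    | exact r412 hw
    | exact r413 hw
    | exact r421 hw
    | exact r423 hw
    | exact r431 hw
    | exact r432 hw

end

/-- `(1 - z^i)/(1 - z)` -/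
noncomputable def eps : Fin 4 → O := ![1, 1 + z, 1 + z + z ^ 2, 1 + z + z ^ 2 + z ^ 3]
/-- `(1 - z)/(1 - z^i)` -/
noncomputable def kap : Fin 4 → O := ![1, 1 + z ^ 2 + z ^ 4, 1 + z ^ 3, 1 + z ^ 2 + z ^ 3 + z ^ 4]

lemma eps_kap (i : Fin 4) : eps i * kap i = 1 := by
  have h := z_rel
  have h5 := z5
  fin_cases i
  · show (1 : O) * 1 = 1
    ring
  · show (1 + z) * (1 + z ^ 2 + z ^ 4) = 1
    linear_combination h + h5
  · show (1 + z + z ^ 2) * (1 + z ^ 3) = 1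
    linear_combination h + h5
  · show (1 + z + z ^ 2 + z ^ 3) * (1 + z ^ 2 + z ^ 3 + z ^ 4) = 1
    linear_combination (1 + z ^ 2 + z ^ 3 + z ^ 4) * h - z ^ 4 * h + h5

lemma lam_eps (i : Fin 4) : lam * eps i = 1 - z ^ ex i := by
  unfold lam
  fin_cases i
  · show (1 - z) * 1 = 1 - z ^ 1
    ring
  · show (1 - z) * (1 + z) = 1 - z ^ 2
    ring
  · show (1 - z) * (1 + z + z ^ 2) = 1 - z ^ 3
    ring
  · show (1 - z) * (1 + z + z ^ 2 + z ^ 3) = 1 - z ^ 4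
    ring

lemma eps_unit (i : Fin 4) : IsUnit (eps i) := IsUnit.of_mul_eq_one _ (eps_kap i)
lemma kap_unit (i : Fin 4) : IsUnit (kap i) :=
  IsUnit.of_mul_eq_one (eps i) (by rw [mul_comm]; exact eps_kap i)

lemma lam_prime : Prime lam := by
  have hT : ∀ x, lam ∣ x ↔ R4.c0 (T x) = 0 := lam_dvd_iff
  refine ⟨?_, ?_, ?_⟩
  · intro h
    unfold lam at h
    have := z_prim.ne_one (by norm_num)
    exact this (sub_eq_zero.1 h).symm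
  · intro h
    have h2 := (hT 1).1 h.dvd
    rw [map_one, map_one] at h2
    exact one_ne_zero h2
  · intro a b h
    rw [hT, map_mul, map_mul, mul_eq_zero] at h
    rwa [hT, hT]

lemma T_lam5 : T (lam ^ 5) = 0 := by
  rw [map_pow]
  have : T lam = ⟨0, 4, 2, 4⟩ := by
    unfold lam
    rw [map_sub, map_one, T_z]
    decide
  rw [this]
  decide

lemma cases_c (c : Fin 4 → Fin 5) : (∀ k, c k = 0) ∨
    (∃ k, c k ≠ 0 ∧ ∃ j j' : Fin 5, j ≠ 0 ∧ j' ≠ 0 ∧ j ≠ j' ∧ (∀ l, c l ≠ j) ∧ (∀ l, c l ≠ j')) ∨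
    (∃ k k', c k ≠ 0 ∧ c k' ≠ 0 ∧ k ≠ k' ∧ (∀ l, c l = c k → l = k) ∧
      (∀ l, c l = c k' → l = k')) := by
  revert c
  decide +kernel

end Pool.Agent.Helper38.F5
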