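import Pool.Agent.Helper38.F5.NoHit

/-! Project F5: quintic indices modulo `p`. -/

namespace Pool.Agent.Helper38.F5

open NumberField Polynomial Finset

section
variable {p : ℕ} [Fact p.Prime]

/-- data of a primitive fifth root of unity modulo `p` -/
structure QD (p m : ℕ) [Fact p.Prime] (w : ZMod p) : Prop where
  hm : p - 1 = 5 * m
  hm2 : Even m
  hw : IsPrimitiveRoot w 5

variable {m : ℕ} {w : ZMod p}

/-- the index -/
noncomputable def ind (w : ZMod p) (m : ℕ) (x : ZMod p) : ZMod 5 :=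
  if h : x ≠ 0 ∧ ∃ i : ℕ, i < 5 ∧ w ^ i = x ^ m then (h.2.choose : ZMod 5) else 0

lemma QD.mpos (h : QD p m w) : 0 < m := by
  have := h.hm
  have h2 := (Fact.out : p.Prime).two_le
  omega

lemma QD.pow_mod (h : QD p m w) (n : ℕ) : w ^ n = w ^ (n % 5) := by
  conv_lhs => rw [← Nat.div_add_mod n 5]
  rw [pow_add, pow_mul, h.hw.pow_eq_one, one_pow, one_mul]

lemma QD.pow_eq_iff (h : QD p m w) (a b : ℕ) : w ^ a = w ^ b ↔ (a : ZMod 5) = b := by
  rw [ZMod.natCast_eq_natCast_iff, h.pow_mod a, h.pow_mod b]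
  constructor
  · intro e
    exact h.hw.pow_inj (Nat.mod_lt _ (by norm_num)) (Nat.mod_lt _ (by norm_num)) e
  · intro e
    rw [show a % 5 = b % 5 from e]

lemma QD.ind_spec (h : QD p m w) {x : ZMod p} (hx : x ≠ 0) : w ^ (ind w m x).val = x ^ m := by
  have h5 : (x ^ m) ^ 5 = 1 := by
    rw [← pow_mul, mul_comm, ← h.hm]
    exact ZMod.pow_card_sub_one_eq_one hx
  obtain ⟨i, hi, hie⟩ := h.hw.eq_pow_of_pow_eq_one h5
  have hh : x ≠ 0 ∧ ∃ i : ℕ, i < 5 ∧ w ^ i = x ^ m := ⟨hx, i, hi, hie⟩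
  unfold ind
  rw [dif_pos hh]
  rw [ZMod.val_natCast, ← h.pow_mod]
  exact hh.2.choose_spec.2

lemma QD.ind_zero (_h : QD p m w) : ind w m (0 : ZMod p) = 0 := by
  unfold ind
  rw [dif_neg]
  simp

lemma QD.ind_of (h : QD p m w) {x : ZMod p} (hx : x ≠ 0) {a : ℕ} (ha : w ^ a = x ^ m) :
    ind w m x = a := by
  have := h.ind_spec hx
  rw [← ha, h.pow_eq_iff] at this
  simpa using this

lemma QD.ind_mul (h : QD p m w) {x y : ZMod p} (hx : x ≠ 0) (hy : y ≠ 0) :
    ind w m (x * y) = ind w m x + ind w m y := by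
  rw [h.ind_of (mul_ne_zero hx hy) (a := (ind w m x).val + (ind w m y).val)
    (by rw [pow_add, h.ind_spec hx, h.ind_spec hy, mul_pow])]
  push_cast
  simp

lemma QD.ind_one (h : QD p m w) : ind w m 1 = 0 := by
  have := h.ind_of (x := 1) one_ne_zero (a := 0) (by simp)
  simpa using this

lemma QD.ind_neg_one (h : QD p m w) : ind w m (-1) = 0 := by
  have := h.ind_of (x := -1) (neg_ne_zero.2 one_ne_zero) (a := 0)
    (by rw [h.hm2.neg_one_pow, pow_zero])
  simpa using this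

lemma QD.ind_pow (h : QD p m w) {x : ZMod p} (hx : x ≠ 0) (n : ℕ) :
    ind w m (x ^ n) = n * ind w m x := by
  induction n with
  | zero => simp [h.ind_one]
  | succ n ih => rw [pow_succ, h.ind_mul (pow_ne_zero n hx) hx, ih]; push_cast; ring

lemma QD.ind_prod (h : QD p m w) {ι : Type*} (s : Finset ι) (f : ι → ZMod p)
    (hf : ∀ i ∈ s, f i ≠ 0) : ind w m (∏ i ∈ s, f i) = ∑ i ∈ s, ind w m (f i) := by
  classical
  induction s using Finset.induction_on with
  | empty => simp [h.ind_one]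
  | insert a s ha ih =>
    rw [prod_insert ha, sum_insert ha, h.ind_mul (hf a (mem_insert_self a s))
      (prod_ne_zero_iff.2 fun i hi => hf i (mem_insert_of_mem hi)),
      ih fun i hi => hf i (mem_insert_of_mem hi)]

/-- a generator -/
lemma exists_gen' (p : ℕ) [Fact p.Prime] : ∃ g : ZMod p, g ≠ 0 ∧ IsPrimitiveRoot g (p - 1) := by
  obtain ⟨g, hg⟩ := IsCyclic.exists_generator (α := (ZMod p)ˣ)
  refine ⟨g, g.ne_zero, ?_⟩
  have h1 : orderOf g = p - 1 := by
    rw [orderOf_eq_card_of_forall_mem_zpowers hg, Nat.card_eq_fintype_card, ZMod.card_units]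
  rw [← h1, ← orderOf_units]
  exact IsPrimitiveRoot.orderOf _

lemma QD.exists_ind (h : QD p m w) : ∃ g : ZMod p, g ≠ 0 ∧ ind w m g ≠ 0 := by
  obtain ⟨g, hg, hp⟩ := exists_gen' p
  refine ⟨g, hg, fun h0 => ?_⟩
  have h1 := h.ind_spec hg
  rw [h0, ZMod.val_zero, pow_zero] at h1
  have := hp.dvd_of_pow_eq_one _ h1.symm
  have h2 := Nat.le_of_dvd h.mpos this
  have := h.hm
  have := h.mpos
  omega

/-- power sums of the index -/
noncomputable def A (w : ZMod p) (m k : ℕ) : ZMod 5 := ∑ x : ZMod p, (ind w m x) ^ k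

lemma QD.sum_shift (h : QD p m w) {g : ZMod p} (hg : g ≠ 0) (F : ZMod 5 → ZMod 5)
    (hF : F 0 = 0) : ∑ x : ZMod p, F (ind w m x) + F (ind w m g) =
      ∑ x : ZMod p, F (ind w m x + ind w m g) := by
  have e1 : ∑ x : ZMod p, F (ind w m x) = ∑ x : ZMod p, F (ind w m (x * g)) :=
    (Fintype.sum_equiv (Equiv.mulRight₀ g hg) _ _ (fun x => rfl)).symm
  rw [e1, ← add_sum_erase univ (fun x => F (ind w m (x * g))) (mem_univ 0),
    ← add_sum_erase univ (fun x => F (ind w m x + ind w m g)) (mem_univ 0)]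
  have e2 : ∑ x ∈ univ.erase (0 : ZMod p), F (ind w m (x * g)) =
      ∑ x ∈ univ.erase (0 : ZMod p), F (ind w m x + ind w m g) := by
    refine sum_congr rfl fun x hx => ?_
    rw [h.ind_mul (ne_of_mem_erase hx) hg]
  rw [e2, zero_mul, h.ind_zero, hF, zero_add, zero_add, add_comm]

lemma QD.card_cast (h : QD p m w) : (p : ZMod 5) = 1 := by
  have h1 := h.hm
  have h2 := (Fact.out : p.Prime).two_le
  have : p = 5 * m + 1 := by omega
  rw [this]
  push_cast
  rw [show (5 : ZMod 5) = 0 from by decide]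
  ring

lemma QD.A123 (h : QD p m w) : A w m 1 = 0 ∧ A w m 2 = 0 ∧ A w m 3 = 0 := by
  obtain ⟨g, hg, hg0⟩ := h.exists_ind
  have hc := h.card_cast
  have s2 := h.sum_shift hg (fun a => a ^ 2) (by norm_num)
  have s3 := h.sum_shift hg (fun a => a ^ 3) (by norm_num)
  have s4 := h.sum_shift hg (fun a => a ^ 4) (by norm_num)
  generalize ind w m g = c at *
  have cardu : ∑ x : ZMod p, (1 : ZMod 5) = 1 := by
    rw [sum_const, card_univ, ZMod.card, nsmul_eq_mul, hc, mul_one]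
  have hA1 : A w m 1 = ∑ x : ZMod p, ind w m x := by
    unfold A; simp
  have e2 : ∑ x : ZMod p, (ind w m x + c) ^ 2 = A w m 2 + 2 * c * A w m 1 + c ^ 2 := by
    rw [hA1]
    unfold A
    rw [mul_sum, ← sum_add_distrib]
    have : c ^ 2 = ∑ x : ZMod p, c ^ 2 * 1 := by rw [← mul_sum, cardu, mul_one]
    rw [this, ← sum_add_distrib]
    refine sum_congr rfl fun x _ => ?_
    ring
  have e3 : ∑ x : ZMod p, (ind w m x + c) ^ 3 =
      A w m 3 + 3 * c * A w m 2 + 3 * c ^ 2 * A w m 1 + c ^ 3 := by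
    rw [hA1]
    unfold A
    rw [mul_sum, mul_sum, ← sum_add_distrib, ← sum_add_distrib]
    have : c ^ 3 = ∑ x : ZMod p, c ^ 3 * 1 := by rw [← mul_sum, cardu, mul_one]
    rw [this, ← sum_add_distrib]
    refine sum_congr rfl fun x _ => ?_
    ring
  have e4 : ∑ x : ZMod p, (ind w m x + c) ^ 4 =
      A w m 4 + 4 * c * A w m 3 + 6 * c ^ 2 * A w m 2 + 4 * c ^ 3 * A w m 1 + c ^ 4 := by
    rw [hA1]
    unfold A
    rw [mul_sum, mul_sum, mul_sum, ← sum_add_distrib, ← sum_add_distrib, ← sum_add_distrib]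
    have : c ^ 4 = ∑ x : ZMod p, c ^ 4 * 1 := by rw [← mul_sum, cardu, mul_one]
    rw [this, ← sum_add_distrib]
    refine sum_congr rfl fun x _ => ?_
    ring
  rw [e2] at s2
  rw [e3] at s3
  rw [e4] at s4
  have a1 : A w m 1 = 0 := by
    have : 2 * c * A w m 1 = 0 := by
      unfold A at s2 ⊢
      linear_combination -s2
    rcases mul_eq_zero.1 this with h | h
    · rcases mul_eq_zero.1 h with h | h
      · exact absurd h (by decide)
      · exact absurd h hg0
    · exact h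
  have a2 : A w m 2 = 0 := by
    have : 3 * c * A w m 2 = 0 := by
      rw [a1] at s3
      unfold A at s3 ⊢
      linear_combination -s3
    rcases mul_eq_zero.1 this with h | h
    · rcases mul_eq_zero.1 h with h | h
      · exact absurd h (by decide)
      · exact absurd h hg0
    · exact h
  have a3 : A w m 3 = 0 := by
    have : 4 * c * A w m 3 = 0 := by
      rw [a1, a2] at s4
      unfold A at s4 ⊢
      linear_combination -s4
    rcases mul_eq_zero.1 this with h | h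
    · rcases mul_eq_zero.1 h with h | h
      · exact absurd h (by decide)
      · exact absurd h hg0
    · exact h
  exact ⟨a1, a2, a3⟩

lemma QD.exists_ind_eq (h : QD p m w) (c : ZMod 5) : ∃ x : ZMod p, x ≠ 0 ∧ ind w m x = c := by
  obtain ⟨g, hg, hg0⟩ := h.exists_ind
  refine ⟨g ^ (c * (ind w m g)⁻¹).val, pow_ne_zero _ hg, ?_⟩
  rw [h.ind_pow hg]
  simp only [ZMod.natCast_val, ZMod.cast_id', id_eq]
  rw [mul_assoc, inv_mul_cancel₀ hg0, mul_one]

lemma QD.mem_fibre (h : QD p m w) (c : ZMod 5) (x : ZMod p) :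
    (x ≠ 0 ∧ ind w m x = c) ↔ x ^ m = w ^ c.val := by
  constructor
  · rintro ⟨hx, rfl⟩
    exact (h.ind_spec hx).symm
  · intro hx
    have hx0 : x ≠ 0 := by
      rintro rfl
      rw [zero_pow h.mpos.ne'] at hx
      exact pow_ne_zero c.val (h.hw.ne_zero (by norm_num)) hx.symm
    refine ⟨hx0, ?_⟩
    rw [h.ind_of hx0 hx.symm]
    simp

/-- the fibre product -/
lemma QD.prod_fibre (h : QD p m w) (c : ZMod 5) :
    ∏ x ∈ univ.filter (fun x : ZMod p => x ≠ 0 ∧ ind w m x = c), (1 - x) = 1 - w ^ c.val := by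
  obtain ⟨t0, ht0, ht0c⟩ := h.exists_ind_eq c
  have ht0m : t0 ^ m = w ^ c.val := (h.mem_fibre c t0).1 ⟨ht0, ht0c⟩
  obtain ⟨g, hg, hp⟩ := exists_gen' p
  have hpr : IsPrimitiveRoot (g ^ 5) m := by
    refine hp.pow ?_ h.hm
    have := h.hm
    have := h.mpos
    omega
  have h1 := hpr.pow_sub_pow_eq_prod_sub_mul (1 : ZMod p) t0 h.mpos
  rw [one_pow, ht0m] at h1
  rw [h1]
  symm
  refine Finset.prod_bij' (fun ζ _ => ζ * t0) (fun x _ => x * t0⁻¹) ?_ ?_ ?_ ?_ ?_
  · intro ζ hζ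
    rw [Polynomial.mem_nthRootsFinset h.mpos] at hζ
    rw [mem_filter, h.mem_fibre, mul_pow, hζ, one_mul, ht0m]
    exact ⟨mem_univ _, rfl⟩
  · intro x hx
    rw [mem_filter, h.mem_fibre] at hx
    rw [Polynomial.mem_nthRootsFinset h.mpos, mul_pow, hx.2, inv_pow, ht0m]
    exact mul_inv_cancel₀ (pow_ne_zero _ (h.hw.ne_zero (by norm_num)))
  · intro ζ _
    rw [mul_assoc, mul_inv_cancel₀ ht0, mul_one]
  · intro x _
    rw [mul_assoc, inv_mul_cancel₀ ht0, mul_one]
  · intro ζ _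
    rfl

/-- sums over the fibres -/
lemma QD.sum_fibre (h : QD p m w) {c : ZMod 5} (hc : c ≠ 0) :
    ∑ x ∈ univ.filter (fun x : ZMod p => ind w m x = c), ind w m (1 - x) =
      ind w m (1 - w ^ c.val) := by
  rw [← h.prod_fibre c, h.ind_prod]
  · refine sum_congr ?_ fun x _ => rfl
    ext x
    simp only [mem_filter, mem_univ, true_and]
    constructor
    · intro hx
      refine ⟨?_, hx⟩
      rintro rfl
      exact hc (by rw [← hx, h.ind_zero])
    · exact fun hx => hx.2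
  · intro x hx
    rw [mem_filter] at hx
    intro h0
    have : x = 1 := (sub_eq_zero.1 h0).symm
    rw [this, h.ind_one] at hx
    exact hc hx.2.2.symm

lemma QD.sum_F (h : QD p m w) (F : ZMod 5 → ZMod 5) (hF : F 0 = 0) :
    ∑ x : ZMod p, F (ind w m x) * ind w m (1 - x) =
      F 1 * ind w m (1 - w) + F 2 * ind w m (1 - w ^ 2) + F 3 * ind w m (1 - w ^ 3) +
        F 4 * ind w m (1 - w ^ 4) := by
  have h1 : ∑ x : ZMod p, F (ind w m x) * ind w m (1 - x) =
      ∑ c : ZMod 5, F c * ∑ x ∈ univ.filter (fun x : ZMod p => ind w m x = c),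
        ind w m (1 - x) := by
    rw [← sum_fiberwise univ (fun x : ZMod p => ind w m x)]
    refine sum_congr rfl fun c _ => ?_
    rw [mul_sum]
    refine sum_congr rfl fun x hx => ?_
    rw [mem_filter] at hx
    rw [hx.2]
  rw [h1]
  have h2 : ∀ f : ZMod 5 → ZMod 5, ∑ c : ZMod 5, f c = f 0 + f 1 + f 2 + f 3 + f 4 := by
    intro f
    exact Fin.sum_univ_five f
  rw [h2, hF, zero_mul, zero_add, h.sum_fibre (by decide), h.sum_fibre (by decide),
    h.sum_fibre (by decide), h.sum_fibre (by decide)]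
  have v1 : (1 : ZMod 5).val = 1 := by decide
  have v2 : (2 : ZMod 5).val = 2 := by decide
  have v3 : (3 : ZMod 5).val = 3 := by decide
  have v4 : (4 : ZMod 5).val = 4 := by decide
  rw [v1, v2, v3, v4, pow_one]

lemma QD.one_sub_ne (h : QD p m w) {k : ℕ} (hk : 0 < k) (hk5 : k < 5) : 1 - w ^ k ≠ 0 := by
  intro h0
  exact h.hw.pow_ne_one_of_pos_of_lt hk.ne' hk5 (sub_eq_zero.1 h0).symm

lemma QD.ind34 (h : QD p m w) :
    ind w m (1 - w ^ 3) = ind w m (1 - w ^ 2) + 3 * ind w m w ∧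
    ind w m (1 - w ^ 4) = ind w m (1 - w) + 4 * ind w m w := by
  have hw0 : w ≠ 0 := h.hw.ne_zero (by norm_num)
  have h5 := h.hw.pow_eq_one
  constructor
  · have e : 1 - w ^ 3 = (-1) * (w ^ 3 * (1 - w ^ 2)) := by linear_combination (-1 : ZMod p) * h5
    rw [e, h.ind_mul (neg_ne_zero.2 one_ne_zero)
      (mul_ne_zero (pow_ne_zero _ hw0) (h.one_sub_ne (by norm_num) (by norm_num))),
      h.ind_neg_one, h.ind_mul (pow_ne_zero _ hw0) (h.one_sub_ne (by norm_num) (by norm_num)),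
      h.ind_pow hw0]
    push_cast
    ring
  · have e : 1 - w ^ 4 = (-1) * (w ^ 4 * (1 - w ^ 1)) := by linear_combination (-1 : ZMod p) * h5
    rw [e, h.ind_mul (neg_ne_zero.2 one_ne_zero)
      (mul_ne_zero (pow_ne_zero _ hw0) (h.one_sub_ne (by norm_num) (by norm_num))),
      h.ind_neg_one, h.ind_mul (pow_ne_zero _ hw0) (h.one_sub_ne (by norm_num) (by norm_num)),
      h.ind_pow hw0, pow_one]
    push_cast
    ring

lemma QD.rel (h : QD p m w) : w ^ 4 + w ^ 3 + w ^ 2 + w + 1 = 0 := by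
  have h1 := h.hw.geom_sum_eq_zero (by norm_num)
  rw [← h1]
  simp [Finset.sum_range_succ]
  ring

lemma QD.ph_ne (h : QD p m w) : -(w ^ 2 + w ^ 3) ≠ 0 := by
  intro h0
  have hr := h.rel
  have : (1 : ZMod p) = 0 := by
    linear_combination (-(w ^ 2 + w ^ 3) - 1) * h0 - (-1 + w + w ^ 2) * hr
  exact one_ne_zero this

/-- the index of the golden ratio -/
lemma QD.ind_ph (h : QD p m w) :
    ind w m (1 - w) + 4 * ind w m (1 - w ^ 2) + 9 * ind w m (1 - w ^ 3) +
      16 * ind w m (1 - w ^ 4) = - 2 * ind w m (-(w ^ 2 + w ^ 3)) := by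
  obtain ⟨e3, e4⟩ := h.ind34
  have hr := h.rel
  have hw0 : w ≠ 0 := h.hw.ne_zero (by norm_num)
  have hne := h.ph_ne
  have key : (1 - w ^ 1) * (1 - w ^ 4) * (-(w ^ 2 + w ^ 3)) ^ 2 = (1 - w ^ 2) * (1 - w ^ 3) := by
    linear_combination (-1 + w + w ^ 2 - 2 * w ^ 5 + w ^ 7) * hr
  have n1 := h.one_sub_ne (k := 1) (by norm_num) (by norm_num)
  have n2 := h.one_sub_ne (k := 2) (by norm_num) (by norm_num)
  have n3 := h.one_sub_ne (k := 3) (by norm_num) (by norm_num)
  have n4 := h.one_sub_ne (k := 4) (by norm_num) (by norm_num)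
  have hi := congrArg (ind w m) key
  rw [h.ind_mul (mul_ne_zero n1 n4) (pow_ne_zero _ hne), h.ind_mul n1 n4, h.ind_mul n2 n3,
    h.ind_pow hne, pow_one] at hi
  rw [e3, e4] at hi ⊢
  push_cast at hi
  have h5 := R4.h5
  linear_combination hi + (3 * ind w m (1 - w) + 3 * ind w m (1 - w ^ 2) + 18 * ind w m w) * h5
end

end Pool.Agent.Helper38.F5
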