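import Pool.Agent.Helper38.F5.Ind

/-! Project F5: the quintic Jacobi sum. -/

namespace Pool.Agent.Helper38.F5

open NumberField Polynomial Finset

lemma z_pow_val (a b : ℕ) (h : (a : ZMod 5) = b) : z ^ a = z ^ b := by
  rw [ZMod.natCast_eq_natCast_iff] at h
  rw [z_pow_mod a, z_pow_mod b, show a % 5 = b % 5 from h]

lemma z_pow_ne_one {a : ZMod 5} (h : a ≠ 0) : z ^ a.val ≠ 1 := by
  have h1 := ZMod.val_lt a
  have h2 : a.val ≠ 0 := by rwa [Ne, ZMod.val_eq_zero]
  exact z_prim.pow_ne_one_of_pos_of_lt h2 h1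

section
variable {p : ℕ} [Fact p.Prime] {m : ℕ} {w : ZMod p}

/-- the quintic character -/
noncomputable def chi (h : QD p m w) : MulChar (ZMod p) O where
  toFun x := if x = 0 then 0 else z ^ (ind w m x).val
  map_one' := by
    rw [if_neg one_ne_zero, h.ind_one]
    simp
  map_mul' x y := by
    by_cases hx : x = 0
    · simp [hx]
    by_cases hy : y = 0
    · simp [hy]
    rw [if_neg hx, if_neg hy, if_neg (mul_ne_zero hx hy), ← pow_add]
    apply z_pow_val
    rw [h.ind_mul hx hy]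
    push_cast
    simp
  map_nonunit' x hx := by
    have : x = 0 := by
      by_contra h0
      exact hx (isUnit_iff_ne_zero.2 h0)
    simp [this]

lemma chi_apply (h : QD p m w) {x : ZMod p} (hx : x ≠ 0) : chi h x = z ^ (ind w m x).val := by
  show (if x = 0 then 0 else z ^ (ind w m x).val) = _
  rw [if_neg hx]

lemma chi_zero (h : QD p m w) : chi h 0 = 0 := by
  show (if (0 : ZMod p) = 0 then (0 : O) else z ^ (ind w m 0).val) = _
  rw [if_pos rfl]

noncomputable def J (h : QD p m w) : O := jacobiSum (chi h) (chi h)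

lemma T_zpow (n : ℕ) : T (z ^ n) = ⟨1, n, 3 * (n : ZMod 5) ^ 2, (n : ZMod 5) ^ 3⟩ := by
  rw [map_pow, T_z]
  induction n with
  | zero => rw [pow_zero]; ext <;> simp
  | succ k ih =>
    rw [pow_succ, ih]
    have h5 := R4.h5
    ext
    · simp
    · simp; ring
    · simp
      linear_combination (-(k : ZMod 5)) * h5
    · simp
      ring

lemma T_term (h : QD p m w) (x : ZMod p) : T (chi h x * chi h (1 - x)) =
    ⟨(if x = 0 then 0 else 1) - (if x = 1 then 1 else 0), ind w m x + ind w m (1 - x),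
      3 * (ind w m x + ind w m (1 - x)) ^ 2, (ind w m x + ind w m (1 - x)) ^ 3⟩ := by
  by_cases h0 : x = 0
  · subst h0
    rw [chi_zero, zero_mul, map_zero, sub_zero, h.ind_zero, h.ind_one]
    ext <;> simp
  by_cases h1 : x = 1
  · subst h1
    rw [sub_self, chi_zero, mul_zero, map_zero, h.ind_zero, h.ind_one]
    ext <;> simp
  have h1' : 1 - x ≠ 0 := fun h2 => h1 (sub_eq_zero.1 h2).symm
  rw [chi_apply h h0, chi_apply h h1', ← pow_add, T_zpow]
  rw [if_neg h0, if_neg h1]
  push_cast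
  simp

lemma R4_sum {ι : Type*} (s : Finset ι) (f : ι → R4) :
    ∑ i ∈ s, f i = ⟨∑ i ∈ s, (f i).a0, ∑ i ∈ s, (f i).a1, ∑ i ∈ s, (f i).a2,
      ∑ i ∈ s, (f i).a3⟩ := by
  classical
  induction s using Finset.induction_on with
  | empty => simp; rfl
  | insert a s ha ih =>
    rw [sum_insert ha, ih]
    ext <;> simp [sum_insert ha]

theorem T_J (h : QD p m w) : T (J h) = ⟨-1, 0, 0, -2 * ind w m (-(w ^ 2 + w ^ 3))⟩ := by
  obtain ⟨a1, a2, a3⟩ := h.A123
  have hc := h.card_cast
  have hsub : ∀ F : ZMod p → ZMod 5, ∑ x : ZMod p, F (1 - x) = ∑ x : ZMod p, F x :=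
    fun F => Fintype.sum_equiv (Equiv.subLeft 1) _ _ (fun x => rfl)
  unfold J jacobiSum
  rw [map_sum]
  simp_rw [T_term]
  rw [R4_sum]
  simp only
  have hA1 : A w m 1 = ∑ x : ZMod p, ind w m x := by unfold A; simp
  have sx : ∑ x : ZMod p, ind w m (1 - x) = 0 := by
    rw [hsub (fun x => ind w m x), ← hA1, a1]
  have sx2 : ∑ x : ZMod p, ind w m (1 - x) ^ 2 = 0 := by
    rw [hsub (fun x => ind w m x ^ 2)]; exact a2
  have sx3 : ∑ x : ZMod p, ind w m (1 - x) ^ 3 = 0 := by
    rw [hsub (fun x => ind w m x ^ 3)]; exact a3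
  have b11 := h.sum_F (fun a => a) rfl
  have b21 := h.sum_F (fun a => a ^ 2) (by norm_num)
  have b12 : ∑ x : ZMod p, ind w m x * ind w m (1 - x) ^ 2 =
      ∑ x : ZMod p, ind w m x ^ 2 * ind w m (1 - x) := by
    rw [← hsub (fun x => ind w m x ^ 2 * ind w m (1 - x))]
    refine sum_congr rfl fun x _ => ?_
    rw [sub_sub_cancel]
    ring
  obtain ⟨e3, e4⟩ := h.ind34
  have hph := h.ind_ph
  have h5 := R4.h5
  have b21' : ∑ x : ZMod p, ind w m x ^ 2 * ind w m (1 - x) =
      -2 * ind w m (-(w ^ 2 + w ^ 3)) := by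
    rw [← hph]
    rw [b21]
    ring
  have b11' : ∑ x : ZMod p, ind w m x * ind w m (1 - x) = 0 := by
    rw [b11, e3, e4]
    linear_combination (ind w m (1 - w) + ind w m (1 - w ^ 2) + 5 * ind w m w) * h5
  ext
  · show ∑ x : ZMod p, ((if x = 0 then (0 : ZMod 5) else 1) - (if x = 1 then 1 else 0)) = -1
    rw [sum_sub_distrib]
    have e1 : ∑ x : ZMod p, (if x = 0 then (0 : ZMod 5) else 1) = p - 1 := by
      have : ∀ x : ZMod p, (if x = 0 then (0 : ZMod 5) else 1) = 1 - (if x = 0 then 1 else 0) := by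
        intro x; split_ifs <;> ring
      simp_rw [this]
      rw [sum_sub_distrib, sum_const, card_univ, ZMod.card, nsmul_eq_mul, mul_one]
      simp
    rw [e1, hc]
    simp
  · show ∑ x : ZMod p, (ind w m x + ind w m (1 - x)) = 0
    rw [sum_add_distrib, sx, ← hA1, a1, add_zero]
  · show ∑ x : ZMod p, 3 * (ind w m x + ind w m (1 - x)) ^ 2 = 0
    have : ∀ x : ZMod p, 3 * (ind w m x + ind w m (1 - x)) ^ 2 =
        3 * (ind w m x) ^ 2 + 6 * (ind w m x * ind w m (1 - x)) + 3 * (ind w m (1 - x)) ^ 2 := by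
      intro x; ring
    simp_rw [this]
    rw [sum_add_distrib, sum_add_distrib, ← mul_sum, ← mul_sum, ← mul_sum, sx2, b11']
    have : ∑ x : ZMod p, ind w m x ^ 2 = 0 := a2
    rw [this]
    ring
  · show ∑ x : ZMod p, (ind w m x + ind w m (1 - x)) ^ 3 = -2 * ind w m (-(w ^ 2 + w ^ 3))
    have : ∀ x : ZMod p, (ind w m x + ind w m (1 - x)) ^ 3 =
        (ind w m x) ^ 3 + 3 * (ind w m x ^ 2 * ind w m (1 - x)) +
          3 * (ind w m x * ind w m (1 - x) ^ 2) + (ind w m (1 - x)) ^ 3 := by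
      intro x; ring
    simp_rw [this]
    rw [sum_add_distrib, sum_add_distrib, sum_add_distrib, ← mul_sum, ← mul_sum, sx3, b12, b21']
    have : ∑ x : ZMod p, ind w m x ^ 3 = 0 := a3
    rw [this]
    linear_combination (-2 * ind w m (-(w ^ 2 + w ^ 3))) * h5

/-- `J · σ₄ J = p` -/
theorem J_mul (h : QD p m w) : J h * sg 4 (by norm_num) (J h) = p := by
  apply RingOfIntegers.coe_injective (K := K)
  set i : O →+* K := algebraMap O K
  show i (J h * sg 4 (by norm_num) (J h)) = i p
  obtain ⟨g, hg, hg0⟩ := h.exists_ind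
  have hinj : Function.Injective i := RingOfIntegers.coe_injective
  have hchi : chi h ≠ 1 := by
    intro h1
    have h2 := congrArg (fun c : MulChar (ZMod p) O => c g) h1
    rw [chi_apply h hg, MulChar.one_apply (isUnit_iff_ne_zero.2 hg)] at h2
    exact z_pow_ne_one hg0 h2
  have hchi2 : chi h * chi h ≠ 1 := by
    intro h1
    have h2 := congrArg (fun c : MulChar (ZMod p) O => c g) h1
    rw [MulChar.mul_apply, chi_apply h hg, MulChar.one_apply (isUnit_iff_ne_zero.2 hg),
      ← pow_add] at h2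
    have h3 : (2 * ind w m g) ≠ 0 := mul_ne_zero (by decide) hg0
    apply z_pow_ne_one h3
    rw [← h2]
    apply z_pow_val
    push_cast
    simp
    ring
  have hinv : (chi h).ringHomComp (sg 4 (by norm_num)) = (chi h)⁻¹ := by
    rw [eq_comm, inv_eq_iff_mul_eq_one]
    ext x
    rw [MulChar.mul_apply, MulChar.ringHomComp_apply, MulChar.one_apply_coe,
      chi_apply h x.ne_zero, map_pow, sg_z, ← pow_mul, ← pow_add]
    have : (ind w m (x : ZMod p)).val + 4 * (ind w m (x : ZMod p)).val =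
        5 * (ind w m (x : ZMod p)).val := by ring
    rw [this, pow_mul, z5, one_pow]
  have h1 : sg 4 (by norm_num) (J h) = jacobiSum (chi h)⁻¹ (chi h)⁻¹ := by
    rw [← hinv, jacobiSum_ringHomComp]
    rfl
  rw [h1, map_mul, map_natCast]
  unfold J
  rw [← jacobiSum_ringHomComp, ← jacobiSum_ringHomComp, ← MulChar.ringHomComp_inv]
  have hr : ringChar K ≠ ringChar (ZMod p) := by
    rw [ringChar.eq_zero, ZMod.ringChar_zmod_n]
    exact (Fact.out : p.Prime).ne_zero.symm
  rw [jacobiSum_mul_jacobiSum_inv hr, ZMod.card]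
  · exact (MulChar.ringHomComp_ne_one_iff hinj).2 hchi
  · exact (MulChar.ringHomComp_ne_one_iff hinj).2 hchi
  · rw [← MulChar.ringHomComp_mul]
    exact (MulChar.ringHomComp_ne_one_iff hinj).2 hchi2

end

end Pool.Agent.Helper38.F5
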