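import Pool.Agent.Helper38.F5.Base

/-! Project F5: the map `T : O → F₅[v]/v⁴`, `ζ ↦ exp v`, and the logarithmic invariants. -/

namespace Pool.Agent.Helper38.F5

open NumberField Polynomial

/-- truncated power series `a0 + a1 v + a2 v² + a3 v³` over `F₅` -/
@[ext] structure R4 where
  a0 : ZMod 5
  a1 : ZMod 5
  a2 : ZMod 5
  a3 : ZMod 5
deriving DecidableEq

namespace R4

instance : Zero R4 := ⟨⟨0, 0, 0, 0⟩⟩
instance : One R4 := ⟨⟨1, 0, 0, 0⟩⟩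
instance : Add R4 := ⟨fun x y => ⟨x.a0 + y.a0, x.a1 + y.a1, x.a2 + y.a2, x.a3 + y.a3⟩⟩
instance : Neg R4 := ⟨fun x => ⟨-x.a0, -x.a1, -x.a2, -x.a3⟩⟩
instance : Mul R4 := ⟨fun x y => ⟨x.a0 * y.a0, x.a0 * y.a1 + x.a1 * y.a0,
  x.a0 * y.a2 + x.a1 * y.a1 + x.a2 * y.a0,
  x.a0 * y.a3 + x.a1 * y.a2 + x.a2 * y.a1 + x.a3 * y.a0⟩⟩

@[simp] lemma zero_a0 : (0 : R4).a0 = 0 := rfl
@[simp] lemma zero_a1 : (0 : R4).a1 = 0 := rfl
@[simp] lemma zero_a2 : (0 : R4).a2 = 0 := rfl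
@[simp] lemma zero_a3 : (0 : R4).a3 = 0 := rfl
@[simp] lemma one_a0 : (1 : R4).a0 = 1 := rfl
@[simp] lemma one_a1 : (1 : R4).a1 = 0 := rfl
@[simp] lemma one_a2 : (1 : R4).a2 = 0 := rfl
@[simp] lemma one_a3 : (1 : R4).a3 = 0 := rfl
@[simp] lemma add_a0 (x y : R4) : (x + y).a0 = x.a0 + y.a0 := rfl
@[simp] lemma add_a1 (x y : R4) : (x + y).a1 = x.a1 + y.a1 := rfl
@[simp] lemma add_a2 (x y : R4) : (x + y).a2 = x.a2 + y.a2 := rfl
@[simp] lemma add_a3 (x y : R4) : (x + y).a3 = x.a3 + y.a3 := rfl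
@[simp] lemma neg_a0 (x : R4) : (-x).a0 = -x.a0 := rfl
@[simp] lemma neg_a1 (x : R4) : (-x).a1 = -x.a1 := rfl
@[simp] lemma neg_a2 (x : R4) : (-x).a2 = -x.a2 := rfl
@[simp] lemma neg_a3 (x : R4) : (-x).a3 = -x.a3 := rfl
@[simp] lemma mul_a0 (x y : R4) : (x * y).a0 = x.a0 * y.a0 := rfl
@[simp] lemma mul_a1 (x y : R4) : (x * y).a1 = x.a0 * y.a1 + x.a1 * y.a0 := rfl
@[simp] lemma mul_a2 (x y : R4) : (x * y).a2 = x.a0 * y.a2 + x.a1 * y.a1 + x.a2 * y.a0 := rfl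
@[simp] lemma mul_a3 (x y : R4) : (x * y).a3 =
    x.a0 * y.a3 + x.a1 * y.a2 + x.a2 * y.a1 + x.a3 * y.a0 := rfl

instance : CommRing R4 where
  add_assoc := by intros; ext <;> simp <;> ring
  zero_add := by intros; ext <;> simp
  add_zero := by intros; ext <;> simp
  add_comm := by intros; ext <;> simp <;> ring
  left_distrib := by intros; ext <;> simp <;> ring
  right_distrib := by intros; ext <;> simp <;> ring
  zero_mul := by intros; ext <;> simp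
  mul_zero := by intros; ext <;> simp
  mul_assoc := by intros; ext <;> simp <;> ring
  one_mul := by intros; ext <;> simp
  mul_one := by intros; ext <;> simp
  neg_add_cancel := by intros; ext <;> simp
  mul_comm := by intros; ext <;> simp <;> ring
  nsmul := nsmulRec
  zsmul := zsmulRec

/-- constants -/
def cst : ZMod 5 →+* R4 where
  toFun c := ⟨c, 0, 0, 0⟩
  map_one' := rfl
  map_zero' := rfl
  map_add' := by intros; ext <;> simp
  map_mul' := by intros; ext <;> simp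

lemma int_eq (n : ℤ) : (n : R4) = ⟨(n : ZMod 5), 0, 0, 0⟩ := by
  have := map_intCast cst n
  rw [← this]
  rfl

/-- the constant term -/
def c0 : R4 →+* ZMod 5 where
  toFun x := x.a0
  map_one' := rfl
  map_zero' := rfl
  map_add' := by intros; rfl
  map_mul' := by intros; rfl

/-- logarithmic coordinates -/
def l1 (x : R4) : ZMod 5 := x.a1 * x.a0 ^ 3
def l2 (x : R4) : ZMod 5 := x.a2 * x.a0 ^ 3 + 2 * (x.a1 * x.a0 ^ 3) ^ 2
def l3 (x : R4) : ZMod 5 := x.a3 * x.a0 ^ 3 - (x.a1 * x.a0 ^ 3) * (x.a2 * x.a0 ^ 3)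
  + 2 * (x.a1 * x.a0 ^ 3) ^ 3

lemma inv3 (a : ZMod 5) (h : a ≠ 0) : a * a ^ 3 = 1 := by
  revert a; decide

lemma h5 : (5 : ZMod 5) = 0 := by decide

lemma nrm (x y : R4) (hx : x.a0 ≠ 0) (hy : y.a0 ≠ 0) :
    (x * y).a1 * (x * y).a0 ^ 3 = x.a1 * x.a0 ^ 3 + y.a1 * y.a0 ^ 3 ∧
    (x * y).a2 * (x * y).a0 ^ 3 = x.a2 * x.a0 ^ 3 + (x.a1 * x.a0 ^ 3) * (y.a1 * y.a0 ^ 3)
      + y.a2 * y.a0 ^ 3 ∧
    (x * y).a3 * (x * y).a0 ^ 3 = x.a3 * x.a0 ^ 3 + (x.a2 * x.a0 ^ 3) * (y.a1 * y.a0 ^ 3)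
      + (x.a1 * x.a0 ^ 3) * (y.a2 * y.a0 ^ 3) + y.a3 * y.a0 ^ 3 := by
  have h1 : x.a0 * x.a0 ^ 3 = 1 := inv3 _ hx
  have h2 : y.a0 * y.a0 ^ 3 = 1 := inv3 _ hy
  simp only [mul_a0, mul_a1, mul_a2, mul_a3, mul_pow]
  generalize x.a0 ^ 3 = a at *
  generalize y.a0 ^ 3 = b at *
  refine ⟨?_, ?_, ?_⟩
  · linear_combination (y.a1 * b) * h1 + (x.a1 * a) * h2
  · linear_combination (y.a2 * b) * h1 + (x.a2 * a) * h2
  · linear_combination (y.a3 * b) * h1 + (x.a3 * a) * h2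

lemma l1_mul (x y : R4) (hx : x.a0 ≠ 0) (hy : y.a0 ≠ 0) : l1 (x * y) = l1 x + l1 y :=
  (nrm x y hx hy).1

lemma l2_mul (x y : R4) (hx : x.a0 ≠ 0) (hy : y.a0 ≠ 0) : l2 (x * y) = l2 x + l2 y := by
  obtain ⟨h1, h2, -⟩ := nrm x y hx hy
  unfold l2
  rw [h1, h2]
  linear_combination (x.a1 * x.a0 ^ 3 * (y.a1 * y.a0 ^ 3)) * h5

lemma l3_mul (x y : R4) (hx : x.a0 ≠ 0) (hy : y.a0 ≠ 0) : l3 (x * y) = l3 x + l3 y := by
  obtain ⟨h1, h2, h3⟩ := nrm x y hx hy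
  unfold l3
  rw [h1, h2, h3]
  linear_combination ((x.a1 * x.a0 ^ 3) ^ 2 * (y.a1 * y.a0 ^ 3)
    + (x.a1 * x.a0 ^ 3) * (y.a1 * y.a0 ^ 3) ^ 2) * h5

end R4

/-- `T : O → F₅[v]/v⁴`, `ζ ↦ exp v` -/
noncomputable def T : O →+* R4 := lft (⟨1, 1, 3, 1⟩ : R4) (by decide)

lemma T_z : T z = ⟨1, 1, 3, 1⟩ := lft_z _ _

lemma T_int (n : ℤ) : T n = ⟨(n : ZMod 5), 0, 0, 0⟩ := by
  rw [map_intCast, R4.int_eq]

lemma T_coords (a b c d : ℤ) : T (a + b * z + c * z ^ 2 + d * z ^ 3) =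
    ⟨a + b + c + d, b + 2 * c + 3 * d, 3 * b + 2 * c + 2 * d, b + 3 * c + 2 * d⟩ := by
  simp only [map_add, map_mul, map_pow, T_z, T_int]
  have h2 : (⟨1, 1, 3, 1⟩ : R4) ^ 2 = ⟨1, 2, 2, 3⟩ := by decide
  have h3 : (⟨1, 1, 3, 1⟩ : R4) ^ 3 = ⟨1, 3, 2, 2⟩ := by decide
  rw [h2, h3]
  ext <;> simp <;> ring

/-- `λ = 1 - ζ` -/
noncomputable def lam : O := 1 - z

lemma five_eq : (5 : O) = lam * (4 + 3 * z + 2 * z ^ 2 + z ^ 3) := by
  unfold lam
  linear_combination z_rel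

lemma T_five : T 5 = 0 := by
  have := T_int 5
  simp only [Int.cast_ofNat] at this
  rw [this]
  decide

lemma T_zero_iff (x : O) : T x = 0 ↔ (5 : O) ∣ x := by
  constructor
  · intro h
    obtain ⟨a, b, c, d, rfl⟩ := coords x
    rw [T_coords, R4.ext_iff] at h
    simp only [R4.zero_a0, R4.zero_a1, R4.zero_a2, R4.zero_a3] at h
    obtain ⟨h0, h1, h2, h3⟩ := h
    have hd : ∀ a b c d : ZMod 5, a + b + c + d = 0 → b + 2 * c + 3 * d = 0 →
        3 * b + 2 * c + 2 * d = 0 → b + 3 * c + 2 * d = 0 → a = 0 ∧ b = 0 ∧ c = 0 ∧ d = 0 := by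
      decide
    obtain ⟨ha, hb, hc, hd⟩ := hd _ _ _ _ h0 h1 h2 h3
    rw [ZMod.intCast_zmod_eq_zero_iff_dvd] at ha hb hc hd
    obtain ⟨a', rfl⟩ := ha
    obtain ⟨b', rfl⟩ := hb
    obtain ⟨c', rfl⟩ := hc
    obtain ⟨d', rfl⟩ := hd
    refine ⟨a' + b' * z + c' * z ^ 2 + d' * z ^ 3, ?_⟩
    push_cast
    ring
  · rintro ⟨y, rfl⟩
    rw [map_mul, T_five, zero_mul]

lemma lam_dvd_iff (x : O) : lam ∣ x ↔ (T x).a0 = 0 := by
  constructor
  · rintro ⟨y, rfl⟩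
    have : (T lam).a0 = 0 := by
      simp [lam, sub_eq_add_neg, T_z]
    rw [map_mul, R4.mul_a0, this, zero_mul]
  · intro h
    obtain ⟨a, b, c, d, rfl⟩ := coords x
    rw [T_coords] at h
    simp only at h
    have h' : ((a + b + c + d : ℤ) : ZMod 5) = 0 := by push_cast; exact h
    rw [ZMod.intCast_zmod_eq_zero_iff_dvd] at h'
    obtain ⟨e, he⟩ := h'
    have he' : (a : O) + b + c + d = 5 * e := by exact_mod_cast congrArg (Int.cast : ℤ → O) he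
    refine ⟨(4 + 3 * z + 2 * z ^ 2 + z ^ 3) * e - b - c * (1 + z) - d * (1 + z + z ^ 2), ?_⟩
    have h5 := five_eq
    unfold lam at *
    linear_combination he' + (e : O) * h5

lemma T_neg_one : T (-1) = ⟨4, 0, 0, 0⟩ := by
  have := T_int (-1)
  simp only [Int.cast_neg, Int.cast_one] at this
  rw [this]
  decide

/-- golden ratio -/
noncomputable def ph : O := -(z ^ 2 + z ^ 3)

lemma ph_rel : ph ^ 2 = ph + 1 := by
  unfold ph
  linear_combination (z + 1) * z5 + z_rel - z5 * 0 + (1 : O) * z5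

lemma T_ph : T ph = ⟨3, 0, 1, 0⟩ := by
  unfold ph
  simp only [map_neg, map_add, map_pow, T_z]
  decide

/-- nonvanishing mod λ -/
def ok (x : O) : Prop := (T x).a0 ≠ 0

lemma ok_iff (x : O) : ok x ↔ ¬ lam ∣ x := by
  unfold ok
  rw [lam_dvd_iff]

lemma ok_mul {x y : O} : ok (x * y) ↔ ok x ∧ ok y := by
  unfold ok
  rw [map_mul, R4.mul_a0, mul_ne_zero_iff]

lemma ok_unit {x : O} (hx : IsUnit x) : ok x := by
  have : IsUnit (R4.c0 (T x)) := (hx.map T).map R4.c0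
  exact this.ne_zero

lemma ok_pow {x : O} (hx : ok x) (n : ℕ) : ok (x ^ n) := by
  unfold ok at *
  have : (T (x ^ n)).a0 = (T x).a0 ^ n := by
    rw [map_pow]
    exact map_pow R4.c0 (T x) n
  rw [this]
  exact pow_ne_zero _ hx

noncomputable def L1 (x : O) : ZMod 5 := R4.l1 (T x)
noncomputable def L2 (x : O) : ZMod 5 := R4.l2 (T x)
noncomputable def L3 (x : O) : ZMod 5 := R4.l3 (T x)

lemma L1_mul {x y : O} (hx : ok x) (hy : ok y) : L1 (x * y) = L1 x + L1 y := by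
  unfold L1; rw [map_mul]; exact R4.l1_mul _ _ hx hy
lemma L2_mul {x y : O} (hx : ok x) (hy : ok y) : L2 (x * y) = L2 x + L2 y := by
  unfold L2; rw [map_mul]; exact R4.l2_mul _ _ hx hy
lemma L3_mul {x y : O} (hx : ok x) (hy : ok y) : L3 (x * y) = L3 x + L3 y := by
  unfold L3; rw [map_mul]; exact R4.l3_mul _ _ hx hy

lemma L1_one : L1 1 = 0 := by unfold L1; rw [map_one]; decide
lemma L2_one : L2 1 = 0 := by unfold L2; rw [map_one]; decide
lemma L3_one : L3 1 = 0 := by unfold L3; rw [map_one]; decide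

lemma L1_pow {x : O} (hx : ok x) (n : ℕ) : L1 (x ^ n) = n * L1 x := by
  induction n with
  | zero => simp [L1_one]
  | succ n ih => rw [pow_succ, L1_mul (ok_pow hx n) hx, ih]; push_cast; ring
lemma L2_pow {x : O} (hx : ok x) (n : ℕ) : L2 (x ^ n) = n * L2 x := by
  induction n with
  | zero => simp [L2_one]
  | succ n ih => rw [pow_succ, L2_mul (ok_pow hx n) hx, ih]; push_cast; ring
lemma L3_pow {x : O} (hx : ok x) (n : ℕ) : L3 (x ^ n) = n * L3 x := by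
  induction n with
  | zero => simp [L3_one]
  | succ n ih => rw [pow_succ, L3_mul (ok_pow hx n) hx, ih]; push_cast; ring

lemma L1_pow5 {x : O} (hx : ok x) : L1 (x ^ 5) = 0 := by
  rw [L1_pow hx]
  have : ((5 : ℕ) : ZMod 5) = 0 := by decide
  rw [this, zero_mul]
lemma L2_pow5 {x : O} (hx : ok x) : L2 (x ^ 5) = 0 := by
  rw [L2_pow hx]
  have : ((5 : ℕ) : ZMod 5) = 0 := by decide
  rw [this, zero_mul]
lemma L3_pow5 {x : O} (hx : ok x) : L3 (x ^ 5) = 0 := by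
  rw [L3_pow hx]
  have : ((5 : ℕ) : ZMod 5) = 0 := by decide
  rw [this, zero_mul]

lemma L1_z : L1 z = 1 := by unfold L1; rw [T_z]; decide
lemma L2_z : L2 z = 0 := by unfold L2; rw [T_z]; decide
lemma L3_z : L3 z = 0 := by unfold L3; rw [T_z]; decide
lemma L1_ph : L1 ph = 0 := by unfold L1; rw [T_ph]; decide
lemma L2_ph : L2 ph = 2 := by unfold L2; rw [T_ph]; decide
lemma L3_ph : L3 ph = 0 := by unfold L3; rw [T_ph]; decide
lemma L1_neg_one : L1 (-1) = 0 := by unfold L1; rw [T_neg_one]; decide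
lemma L2_neg_one : L2 (-1) = 0 := by unfold L2; rw [T_neg_one]; decide
lemma L3_neg_one : L3 (-1) = 0 := by unfold L3; rw [T_neg_one]; decide

lemma ok_z : ok z := by unfold ok; rw [T_z]; decide
lemma ok_ph : ok ph := by unfold ok; rw [T_ph]; decide
lemma ok_neg_one : ok (-1) := by unfold ok; rw [T_neg_one]; decide

lemma T_sg (k : ℕ) (hk : ¬ 5 ∣ k) (x : O) :
    T (sg k hk x) = ⟨(T x).a0, k * (T x).a1, k ^ 2 * (T x).a2, k ^ 3 * (T x).a3⟩ := by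
  let f : R4 →+* R4 :=
    { toFun := fun x => ⟨x.a0, k * x.a1, k ^ 2 * x.a2, k ^ 3 * x.a3⟩
      map_one' := by ext <;> simp
      map_zero' := by ext <;> simp
      map_add' := by intros; ext <;> simp <;> ring
      map_mul' := by intros; ext <;> simp <;> ring }
  have : T.comp (sg k hk) = f.comp T := by
    apply hom_ext
    simp only [RingHom.comp_apply, sg_z, map_pow, T_z]
    show (⟨1, 1, 3, 1⟩ : R4) ^ k = ⟨1, k * 1, k ^ 2 * 3, k ^ 3 * 1⟩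
    clear f hk
    induction k with
    | zero => rw [pow_zero]; ext <;> simp
    | succ k ih =>
      rw [pow_succ, ih]
      have h5 := R4.h5
      ext
      · simp
      · simp; ring
      · simp
        linear_combination (-(k : ZMod 5)) * h5
      · simp
        linear_combination (0 : ZMod 5) * h5
  exact congrArg (fun g => g x) this

lemma L3_sg (k : ℕ) (hk : ¬ 5 ∣ k) (x : O) : L3 (sg k hk x) = k ^ 3 * L3 x := by
  unfold L3 R4.l3
  rw [T_sg]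
  ring

lemma L2_sg (k : ℕ) (hk : ¬ 5 ∣ k) (x : O) : L2 (sg k hk x) = k ^ 2 * L2 x := by
  unfold L2 R4.l2
  rw [T_sg]
  ring

lemma L1_sg (k : ℕ) (hk : ¬ 5 ∣ k) (x : O) : L1 (sg k hk x) = k * L1 x := by
  unfold L1 R4.l1
  rw [T_sg]
  ring

end Pool.Agent.Helper38.F5
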