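import Pool.Agent.Helper38.F5.CaseTwoB
import Pool.Agent.Helper87.F5.Red

/-! Project F5: main theorem. -/

namespace Pool.Agent.Helper38.F5

open NumberField Polynomial Finset

lemma fifth_mod (x : ℤ) : x ^ 5 % 25 = (x % 5) ^ 5 % 25 := by
  obtain ⟨q, hq⟩ : ∃ q, x = 5 * q + x % 5 := ⟨x / 5, (Int.mul_ediv_add_emod x 5).symm⟩
  have : x ^ 5 = 25 * (125 * q ^ 5 + 125 * q ^ 4 * (x % 5) + 50 * q ^ 3 * (x % 5) ^ 2 +
      10 * q ^ 2 * (x % 5) ^ 3 + q * (x % 5) ^ 4) + (x % 5) ^ 5 := by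
    conv_lhs => rw [hq]
    ring
  rw [this, Int.mul_add_emod_self_left]

lemma mod25 {x y c : ℤ} {p : ℕ} (hp : p % 5 = 1) (h5 : ¬ (5 : ℤ) ∣ c)
    (h : x ^ 5 + y ^ 5 = (p : ℤ) ^ 2 * c ^ 5) (hxy : (x : ZMod 5) = y) : p % 25 = 6 := by
  have h1 : x % 5 = y % 5 := (ZMod.intCast_eq_intCast_iff x y 5).1 hxy
  have h2 : (x ^ 5 + y ^ 5) % 25 = ((p : ℤ) ^ 2 * c ^ 5) % 25 := by rw [h]
  rw [Int.add_emod, fifth_mod x, fifth_mod y, ← h1, Int.mul_emod, fifth_mod c, pow_two,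
    Int.mul_emod (p : ℤ) p] at h2
  have hc : c % 5 ≠ 0 := fun h0 => h5 (Int.dvd_of_emod_eq_zero h0)
  have hc0 := Int.emod_nonneg c (by norm_num : (5 : ℤ) ≠ 0)
  have hc5 := Int.emod_lt_of_pos c (by norm_num : (0 : ℤ) < 5)
  have hx0 := Int.emod_nonneg x (by norm_num : (5 : ℤ) ≠ 0)
  have hx5 := Int.emod_lt_of_pos x (by norm_num : (0 : ℤ) < 5)
  have hp25 : (p : ℤ) % 25 = 1 ∨ (p : ℤ) % 25 = 6 ∨ (p : ℤ) % 25 = 11 ∨ (p : ℤ) % 25 = 16 ∨
      (p : ℤ) % 25 = 21 := by omega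
  have hgoal : (p : ℤ) % 25 = 6 → p % 25 = 6 := by omega
  apply hgoal
  generalize (p : ℤ) % 25 = P at *
  generalize c % 5 = C at *
  generalize x % 5 = X at *
  clear h1 hxy h h5
  rcases hp25 with rfl | rfl | rfl | rfl | rfl <;> interval_cases C <;> interval_cases X <;>
    first | rfl | (exfalso; revert h2; decide) | exact absurd rfl hc

section
variable {p : ℕ} [Fact p.Prime] {m : ℕ}

lemma ind_w {w : ZMod p} (h : QD p m w) : ind w m w = m :=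
  h.ind_of (h.hw.ne_zero (by norm_num)) rfl

lemma ind_zero_pow {w : ZMod p} (h : QD p m w) {x : ZMod p} (hx : x ≠ 0)
    (h0 : ind w m x = 0) : x ^ m = 1 := by
  rw [← h.ind_spec hx, h0, ZMod.val_zero, pow_zero]

/-- the second case -/
theorem case_two (hp5 : p % 5 = 1) (hm : p - 1 = 5 * m) (hm2 : Even m) {x y c : ℤ}
    (hxy : IsCoprime x y) (h5 : ¬ (5 : ℤ) ∣ c) (h : x ^ 5 + y ^ 5 = (p : ℤ) ^ 2 * c ^ 5) :
    (p ∣ Nat.fib m ∧ (p % 25 = 1 ∨ p % 25 = 6)) ∨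
    ((((4 * m).choose m : ℕ) : ZMod p) ^ m = 1 ∧ p % 25 = 16) := by
  have hp : p ≠ 5 := by rintro rfl; omega
  have h2 := (Fact.out : p.Prime).two_le
  obtain ⟨t⟩ := exists_t p hm
  have hom : ∀ {n : ℕ}, (m : ZMod 5) = n → m % 5 = n % 5 := by
    intro n h
    exact (ZMod.natCast_eq_natCast_iff _ _ _).1 h
  have hfib : ∀ (t : O →+* ZMod p), ind (t z) m (t ph) = 0 → p ∣ Nat.fib m := by
    intro t h0
    exact fib_of (t_ph_sq t) hp hm2 (ind_zero_pow (mk_QD t hp hm hm2) (s_ph_ne t) h0)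
  rcases exists_hom t h with ⟨t, ht⟩ | ⟨t, ht⟩
  · have hq := mk_QD t hp hm hm2
    obtain ⟨a1, a2⟩ := case_two_a t hp hq hxy h5 h ht
    left
    refine ⟨hfib t a1, ?_⟩
    rcases a2 with a2 | a2
    · left
      rw [ind_w hq] at a2
      have := hom (n := 0) (by rw [a2]; simp)
      omega
    · right
      exact mod25 hp5 h5 h a2
  · have hq := mk_QD t hp hm hm2
    obtain ⟨a1, a2⟩ := case_two_b t hp hq hxy h5 h ht
    rcases a2 with a2 | ⟨a3, a2 | a2⟩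
    · right
      refine ⟨ind_zero_pow hq (choose_ne (by omega) (by omega)) a1, ?_⟩
      rw [ind_w hq] at a2
      have := hom (n := 3) (by rw [a2]; rfl)
      omega
    · left
      refine ⟨hfib t a3, Or.inl ?_⟩
      rw [ind_w hq] at a2
      have := hom (n := 0) (by rw [a2]; simp)
      omega
    · left
      exact ⟨hfib t a3, Or.inr (mod25 hp5 h5 h a2)⟩

end

/-- the core theorem -/
theorem core {p : ℕ} (hpp : p.Prime) (hp5 : p % 5 = 1) (hF : ¬ p ∣ Nat.fib ((p - 1) / 5))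
    (hC : p % 25 ≠ 16 ∨ ¬ ((4 * ((p - 1) / 5)).choose ((p - 1) / 5)) ^ ((p - 1) / 5) ≡ 1 [MOD p])
    (A B C D : ℕ) (hA : 0 < A) (hB : 0 < B) (hD : 0 < D) (h1 : A + B = C)
    (h2 : A * B * C = D ^ 5) (hg : Nat.gcd (Nat.gcd A B) C = p) : False := by
  have : Fact p.Prime := ⟨hpp⟩
  obtain ⟨x, y, c, hxy, hx, hy, hc, h⟩ :=
    Pool.Agent.Helper87.F5.reduce p hpp A B C D hA hB hD h1 h2 hg
  have hp : p ≠ 5 := by rintro rfl; omega
  have hm : p - 1 = 5 * ((p - 1) / 5) := by omega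
  have hm2 : Even ((p - 1) / 5) := by
    have hodd := hpp.eq_two_or_odd
    rw [Nat.even_iff]
    omega
  by_cases h5 : (5 : ℤ) ∣ c
  · obtain ⟨t⟩ := exists_t p hm
    obtain ⟨P1, P2⟩ := descent_fib t hp hm hm2 hF
    exact case_one t hp (noHit t hp hm hm2 P1 P2) hxy hc h5 h
  · rcases case_two hp5 hm hm2 hxy h5 h with ⟨h3, -⟩ | ⟨h3, h4⟩
    · exact hF h3
    · rcases hC with hC | hC
      · exact hC h4
      · apply hC
        rw [← ZMod.natCast_eq_natCast_iff]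
        push_cast
        exact h3

end Pool.Agent.Helper38.F5
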