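import Pool.Agent.Helper38.F5.Descent

/-! Project F5: exclusion of the primes above `p` from the factors `h_1, …, h_4`. -/

namespace Pool.Agent.Helper38.F5

open NumberField Polynomial

section
variable {p : ℕ} [Fact p.Prime] (t : O →+* ZMod p)

lemma pow5m {m : ℕ} (hm : p - 1 = 5 * m) {x : ZMod p} (hx : x ≠ 0) : (x ^ 5) ^ m = 1 := by
  rw [← pow_mul, ← hm]
  exact ZMod.pow_card_sub_one_eq_one hx

lemma sign_pow {m : ℕ} (hm2 : Even m) {s : ZMod p} (hs : s = 1 ∨ s = -1) : s ^ m = 1 := by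
  rcases hs with rfl | rfl
  · exact one_pow m
  · exact hm2.neg_one_pow

lemma t_ph (s : O →+* ZMod p) : s ph = -((s z) ^ 2 + (s z) ^ 3) := by
  unfold ph
  simp

/-- equal `m`-th powers of the two products force `φ^m = 1` -/
lemma ph_of_RP {m : ℕ} (hm : p - 1 = 5 * m) (hm2 : Even m) {w : ZMod p} {i j j' : ℕ}
    (hR : RP w i j j') (hA : (1 - w ^ j) * (w ^ j' - w ^ i) ≠ 0)
    (hB : (1 - w ^ j') * (w ^ j - w ^ i) ≠ 0)
    (hAB : ((1 - w ^ j) * (w ^ j' - w ^ i)) ^ m = ((1 - w ^ j') * (w ^ j - w ^ i)) ^ m) :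
    (-(w ^ 2 + w ^ 3)) ^ m = 1 := by
  obtain ⟨s, hs, h⟩ := hR
  generalize (1 - w ^ j) * (w ^ j' - w ^ i) = A at *
  generalize (1 - w ^ j') * (w ^ j - w ^ i) = B at *
  generalize -(w ^ 2 + w ^ 3) = f at *
  have hsm := sign_pow hm2 hs
  have hsq : f ≠ 0 → f ^ (2 * m) = 1 → f ^ m = 1 := by
    intro hf h2
    have h5 := pow5m hm hf
    have e : (f ^ 5) ^ m = f ^ (2 * m) * f ^ (2 * m) * f ^ m := by
      rw [← pow_mul, ← pow_add, ← pow_add]; congr 1; ring
    rw [e, h2, one_mul, one_mul] at h5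
    exact h5
  have hAm := pow_ne_zero m hA
  have hBm := pow_ne_zero m hB
  rcases h with h | h | h | h
  · rw [h, mul_pow, mul_pow, hsm, one_mul] at hAB
    exact mul_right_cancel₀ hBm (by rw [hAB, one_mul])
  · have hf : f ≠ 0 := by
      rintro rfl
      apply hA
      rw [h]; ring
    apply hsq hf
    rw [h, mul_pow, mul_pow, hsm, one_mul, ← pow_mul] at hAB
    exact mul_right_cancel₀ hBm (by rw [hAB, one_mul])
  · rw [h, mul_pow, mul_pow, hsm, one_mul] at hAB
    exact mul_right_cancel₀ hAm (by rw [← hAB, one_mul])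
  · have hf : f ≠ 0 := by
      rintro rfl
      apply hB
      rw [h]; ring
    apply hsq hf
    rw [h, mul_pow, mul_pow, hsm, one_mul, ← pow_mul] at hAB
    exact mul_right_cancel₀ hAm (by rw [← hAB, one_mul])

theorem noHit (hp : p ≠ 5) {m : ℕ} (hm : p - 1 = 5 * m) (hm2 : Even m)
    (P1 : L3 (pi1 t) ≠ 0) (P2 : ∀ k : Fin 4, (t (sg (ex k) (ex_nd k) ph)) ^ m ≠ 1) :
    NoHit t := by
  intro X Y g c hXY hY hge hlam5 hc hsplit
  have hTg : ∀ i : Fin 4, T (g i.succ) = - T Y := by
    intro i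
    obtain ⟨q, hq⟩ := hlam5 i
    rw [hq, map_sub, map_mul, T_lam5, zero_mul, zero_sub]
  have hokg : ∀ i : Fin 4, ok (g i.succ) := by
    intro i
    unfold ok
    rw [hTg i, R4.neg_a0]
    exact neg_ne_zero.2 hY
  have hge' : ∀ i : Fin 4, (1 - z ^ ex i) * g i.succ = X + z ^ ex i * Y := by
    intro i
    rw [← lam_eps, mul_assoc]
    exact hge i
  rcases cases_c c with h0 | ⟨k, hk, j, j', hj, hj', hjj', hcj, hcj'⟩ |
    ⟨k, k', hk, hk', hkk', hs, hs'⟩
  · exact h0
  · exfalso
    obtain ⟨i, hi⟩ := Fin.exists_succ_eq.2 hk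
    obtain ⟨a, rfl⟩ := Fin.exists_succ_eq.2 hj
    obtain ⟨b, rfl⟩ := Fin.exists_succ_eq.2 hj'
    have hia : i ≠ a := by
      rintro rfl
      exact hcj k hi.symm
    have hib : i ≠ b := by
      rintro rfl
      exact hcj' k hi.symm
    have hab : a ≠ b := fun h => hjj' (by rw [h])
    obtain ⟨ua, ra, hua, hga⟩ := hsplit a.succ
    obtain ⟨ub, rb, hub, hgb⟩ := hsplit b.succ
    rw [dl_one t hcj, one_pow, one_mul] at hga
    rw [dl_one t hcj', one_pow, one_mul] at hgb
    obtain ⟨y, hy, huab⟩ := unit_of_T hga hgb hua hub (by rw [hTg, hTg]) (hokg a)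
    set s : O →+* ZMod p := t.comp (sg (ex k) (ex_nd k)) with hsdef
    have hdv : ∀ x, pi t k ∣ x ↔ s x = 0 := fun x => pi_dvd t k x
    have hprim := tz_prim s hp
    have hwr := tz_rel s
    have hsi : s (g i.succ) = 0 := by rw [← hdv, hc, hi]
    have hsX : s X + (s z) ^ ex i * s Y = 0 := by
      have := congrArg s (hge' i)
      rw [map_mul, hsi, mul_zero, map_add, map_mul, map_pow] at this
      exact this.symm
    have hsY : s Y ≠ 0 := by
      intro h
      rw [h, mul_zero, add_zero] at hsX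
      rw [← hdv] at h hsX
      exact (pi_prime t k).not_isUnit (hXY.isUnit_of_dvd' hsX h)
    have hsa : (1 - (s z) ^ ex a) * s (g a.succ) = ((s z) ^ ex a - (s z) ^ ex i) * s Y := by
      have := congrArg s (hge' a)
      simp only [map_mul, map_add, map_sub, map_pow, map_one] at this
      linear_combination this + hsX
    have hsb : (1 - (s z) ^ ex b) * s (g b.succ) = ((s z) ^ ex b - (s z) ^ ex i) * s Y := by
      have := congrArg s (hge' b)
      simp only [map_mul, map_add, map_sub, map_pow, map_one] at this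
      linear_combination this + hsX
    have hna : s (g a.succ) ≠ 0 := by
      rw [Ne, ← hdv, hc]
      exact fun h => hcj k h.symm
    have hnb : s (g b.succ) ≠ 0 := by
      rw [Ne, ← hdv, hc]
      exact fun h => hcj' k h.symm
    have hinj := tz_inj s hp
    have hne : ∀ c d : Fin 4, c ≠ d → (s z) ^ ex c - (s z) ^ ex d ≠ 0 :=
      fun c d hcd h => hcd (hinj (sub_eq_zero.1 h))
    have hne1 : ∀ c : Fin 4, 1 - (s z) ^ ex c ≠ 0 := by
      intro c h
      have hlt' : ∀ c : Fin 4, 0 < ex c ∧ ex c < 5 := by decide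
      have hlt := hlt' c
      exact hprim.pow_ne_one_of_pos_of_lt hlt.1.ne' hlt.2 (sub_eq_zero.1 h).symm
    have hA : (1 - (s z) ^ ex a) * ((s z) ^ ex b - (s z) ^ ex i) ≠ 0 :=
      mul_ne_zero (hne1 a) (hne b i (Ne.symm hib))
    have hB : (1 - (s z) ^ ex b) * ((s z) ^ ex a - (s z) ^ ex i) ≠ 0 :=
      mul_ne_zero (hne1 b) (hne a i (Ne.symm hia))
    have hcross : (1 - (s z) ^ ex a) * ((s z) ^ ex b - (s z) ^ ex i) * s (g a.succ) =
        (1 - (s z) ^ ex b) * ((s z) ^ ex a - (s z) ^ ex i) * s (g b.succ) := by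
      apply mul_right_cancel₀ hsY
      linear_combination ((s z) ^ ex b - (s z) ^ ex i) * s Y * hsa -
        ((s z) ^ ex a - (s z) ^ ex i) * s Y * hsb
    have hga' : s (g a.succ) = s ub * (s (y * ra)) ^ 5 := by
      rw [hga, huab]; simp; ring
    have hgb' : s (g b.succ) = s ub * (s rb) ^ 5 := by
      rw [hgb]; simp
    have hpa : (s (g a.succ)) ^ m = (s ub) ^ m := by
      rw [hga', mul_pow, pow5m hm, mul_one]
      intro h0
      apply hna
      rw [hga', h0]; ring
    have hpb : (s (g b.succ)) ^ m = (s ub) ^ m := by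
      rw [hgb', mul_pow, pow5m hm, mul_one]
      intro h0
      apply hnb
      rw [hgb', h0]; ring
    have hABm : ((1 - (s z) ^ ex a) * ((s z) ^ ex b - (s z) ^ ex i) * s (g a.succ)) ^ m =
        ((1 - (s z) ^ ex b) * ((s z) ^ ex a - (s z) ^ ex i) * s (g b.succ)) ^ m := by
      rw [hcross]
    rw [mul_pow _ (s (g a.succ)) m, mul_pow _ (s (g b.succ)) m, hpa, hpb] at hABm
    have hub0 : (s ub) ^ m ≠ 0 := by rw [← hpa]; exact pow_ne_zero m hna
    have hABm' := mul_right_cancel₀ hub0 hABm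
    apply P2 k
    have := ph_of_RP hm hm2 (ratio hwr i a b hia hib hab) hA hB hABm'
    rw [← t_ph s] at this
    exact this
  · exfalso
    obtain ⟨i, hi⟩ := Fin.exists_succ_eq.2 hk
    obtain ⟨i', hi'⟩ := Fin.exists_succ_eq.2 hk'
    have hokp : ∀ l, ok (pi t l) := by
      intro l
      have h1 : pi t l ∣ (p : O) := by
        rw [pi_dvd, map_natCast, map_natCast, CharP.cast_eq_zero]
      have h2 := ok_p hp
      obtain ⟨q, hq⟩ := h1
      rw [hq] at h2
      exact (ok_mul.1 h2).1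
    have key : ∀ (l : Fin 4) (i : Fin 4), i.succ = c l → (∀ l', c l' = c l → l' = l) →
        3 * L3 (pi t l) + L3 (-Y) = 0 := by
      intro l i hi hs
      obtain ⟨u, r, hu, hgu⟩ := hsplit (c l)
      rw [dl_single t hs] at hgu
      have hokr : ok r := by
        have : ok ((pi t l) ^ 3 * g (c l)) := by
          rw [ok_mul, ← hi]
          exact ⟨ok_pow (hokp l) 3, hokg i⟩
        rw [hgu, ok_mul] at this
        rw [ok_iff]
        intro hd
        exact (ok_iff _).1 this.2 (hd.trans (dvd_pow_self r (by norm_num)))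
      have h3 := congrArg L3 hgu
      rw [L3_mul (ok_pow (hokp l) 3) (by rw [← hi]; exact hokg i),
        L3_mul (ok_unit hu) (ok_pow hokr 5), L3_pow (hokp l), L3_pow5 hokr, unit_L3 hu] at h3
      have h4 : L3 (g (c l)) = L3 (-Y) := by
        unfold L3
        rw [← hi, hTg, map_neg]
      rw [h4] at h3
      linear_combination h3
    have k1 := key k i hi hs
    have k2 := key k' i' hi' hs'
    rw [L3_pi] at k1 k2
    have h5 := R4.h5
    have h6 : ((ix k : ZMod 5) ^ 3 - (ix k' : ZMod 5) ^ 3) * L3 (pi1 t) = 0 := by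
      linear_combination 2 * k1 - 2 * k2 -
        ((ix k : ZMod 5) ^ 3 - (ix k' : ZMod 5) ^ 3) * L3 (pi1 t) * h5
    rcases mul_eq_zero.1 h6 with h7 | h7
    · have : ∀ k k' : Fin 4, ((ix k : ZMod 5) ^ 3 - (ix k' : ZMod 5) ^ 3) = 0 → k = k' := by
        decide
      exact hkk' (this k k' h7)
    · exact P1 h7

end

end Pool.Agent.Helper38.F5
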