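import Pool.Agent.Helper38.F5.Ident

/-! Project F5: normalisation and coprimality in the descent. -/

namespace Pool.Agent.Helper38.F5

open NumberField Polynomial

lemma prod_f (X Y : O) : (X + Y) * ∏ i : Fin 4, (X + z ^ ex i * Y) = X ^ 5 + Y ^ 5 := by
  rw [Fin.prod_univ_four]
  show (X + Y) * ((X + z ^ 1 * Y) * (X + z ^ 2 * Y) * (X + z ^ 3 * Y) * (X + z ^ 4 * Y)) =
    X ^ 5 + Y ^ 5
  linear_combination (X ^ 4 * Y + (z + z ^ 3) * X ^ 3 * Y ^ 2 + (z ^ 3 + z ^ 5) * X ^ 2 * Y ^ 3 +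
    z ^ 6 * X * Y ^ 4 + (-1 + z - z ^ 5 + z ^ 6) * Y ^ 5) * z_rel

/-- reduction modulo `λ` -/
noncomputable def cc : O →+* ZMod 5 := R4.c0.comp T

lemma cc_z : cc z = 1 := by
  show (T z).a0 = 1
  rw [T_z]

lemma lam_dvd_cc (x : O) : lam ∣ x ↔ cc x = 0 := lam_dvd_iff x

lemma ok_cc (x : O) : ok x ↔ cc x ≠ 0 := Iff.rfl

lemma one_sub_zpow (r : ℕ) : 1 - z ^ r = lam * ∑ s ∈ Finset.range r, z ^ s := by
  unfold lam
  rw [mul_neg_geom_sum]

lemma ok_of_coprime {X Y : O} (hXY : IsCoprime X Y) (h : lam ∣ X + Y) : ok Y := by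
  rw [ok_iff]
  intro hY
  have hX : lam ∣ X := (dvd_add_left hY).1 h
  exact lam_prime.not_isUnit (hXY.isUnit_of_dvd' hX hY)

lemma fifth_zmod5 (a : ZMod 5) : a ^ 5 = a := by revert a; decide

lemma normalise {X Y : O} (hXY : IsCoprime X Y) (h : lam ∣ X ^ 5 + Y ^ 5) :
    ok Y ∧ lam ∣ X + Y ∧ ∃ r : ℕ, lam ^ 2 ∣ X + z ^ r * Y := by
  have h1 : lam ∣ X + Y := by
    rw [lam_dvd_cc] at h ⊢
    rw [map_add, map_pow, map_pow, fifth_zmod5, fifth_zmod5] at h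
    rw [map_add]
    exact h
  have hY := ok_of_coprime hXY h1
  refine ⟨hY, h1, ?_⟩
  obtain ⟨H, hH⟩ := h1
  have hcY : cc Y ≠ 0 := hY
  refine ⟨(cc H * (cc Y)⁻¹).val, ?_⟩
  set r := (cc H * (cc Y)⁻¹).val with hr
  have e : X + z ^ r * Y = lam * (H - (∑ s ∈ Finset.range r, z ^ s) * Y) := by
    linear_combination hH - Y * one_sub_zpow r
  rw [e, pow_two]
  refine mul_dvd_mul_left _ ?_
  rw [lam_dvd_cc, map_sub, map_mul, map_sum]
  simp only [map_pow, cc_z, one_pow, Finset.sum_const, Finset.card_range, nsmul_eq_mul, mul_one]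
  rw [hr, ZMod.natCast_val, ZMod.cast_id', id_eq]
  field_simp
  ring

lemma coprime_aux {F G X Y w w' a b : O} (hw : IsUnit w) (hw' : IsUnit w')
    (h1 : F - G = w * Y) (h2 : a * F - b * G = w' * X) (hXY : IsCoprime X Y) : IsCoprime F G := by
  obtain ⟨r, s, hrs⟩ := hXY
  obtain ⟨v, rfl⟩ := hw
  obtain ⟨v', rfl⟩ := hw'
  have hv : (v : O) * ((v⁻¹ : (𝓞 K)ˣ) : O) = 1 := by simp
  have hv' : (v' : O) * ((v'⁻¹ : (𝓞 K)ˣ) : O) = 1 := by simp
  refine ⟨s * ((v⁻¹ : (𝓞 K)ˣ) : O) + r * ((v'⁻¹ : (𝓞 K)ˣ) : O) * a,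
    - s * ((v⁻¹ : (𝓞 K)ˣ) : O) - r * ((v'⁻¹ : (𝓞 K)ˣ) : O) * b, ?_⟩
  linear_combination s * ((v⁻¹ : (𝓞 K)ˣ) : O) * h1 + r * ((v'⁻¹ : (𝓞 K)ˣ) : O) * h2 + hrs +
    s * Y * hv + r * X * hv'

lemma geom_unit {d : ℕ} (hd : ¬ 5 ∣ d) : IsUnit (∑ s ∈ Finset.range d, z ^ s) :=
  z_prim.geom_sum_isUnit (by norm_num)
    ((Nat.Prime.coprime_iff_not_dvd Nat.prime_five).2 hd).symm

lemma diff_unit {a b : ℕ} (hab : a < b) (hb : b < 5) :
    ∃ w : O, IsUnit w ∧ z ^ a - z ^ b = lam * w := by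
  refine ⟨z ^ a * ∑ s ∈ Finset.range (b - a), z ^ s, ?_, ?_⟩
  · exact (z_unit.pow a).mul (geom_unit (by omega))
  · have e : z ^ b = z ^ a * z ^ (b - a) := by rw [← pow_add]; congr 1; omega
    rw [e]
    linear_combination z ^ a * one_sub_zpow (b - a)

lemma coprime_F {X Y : O} (F : Fin 5 → O) (hXY : IsCoprime X Y)
    (hF : ∀ i : Fin 5, lam * F i = X + z ^ (i : ℕ) * Y) {i j : Fin 5} (hij : i ≠ j) :
    IsCoprime (F i) (F j) := by
  have hl : lam ≠ 0 := lam_prime.ne_zero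
  have main : ∀ i j : Fin 5, i < j → IsCoprime (F i) (F j) := by
    intro i j hij
    obtain ⟨w, hw, hwe⟩ := diff_unit (a := i) (b := j) hij j.2
    refine coprime_aux (w := w) (w' := - w) (a := z ^ (j : ℕ)) (b := z ^ (i : ℕ)) hw hw.neg
      ?_ ?_ hXY
    · apply mul_left_cancel₀ hl
      linear_combination hF i - hF j + Y * hwe
    · apply mul_left_cancel₀ hl
      linear_combination z ^ (j : ℕ) * hF i - z ^ (i : ℕ) * hF j - X * hwe
  rcases lt_or_gt_of_ne hij with h | h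
  · exact main i j h
  · exact (main j i h).symm

lemma ok_p {p : ℕ} [Fact p.Prime] (hp : p ≠ 5) : ok (p : O) := by
  rw [ok_cc, map_natCast]
  intro h
  rw [ZMod.natCast_eq_zero_iff] at h
  exact hp ((Nat.prime_dvd_prime_iff_eq Nat.prime_five (Fact.out : p.Prime)).1 h).symm

/-- the normalised situation of the descent -/
lemma config {p : ℕ} [Fact p.Prime] (hp : p ≠ 5) {X Y Z e : O} {n : ℕ} (hn : 1 ≤ n)
    (he : IsUnit e) (hXY : IsCoprime X Y) (hZ : ok Z)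
    (h : X ^ 5 + Y ^ 5 = e * (p : O) ^ 2 * lam ^ (5 * n) * Z ^ 5) (h2 : lam ^ 2 ∣ X + Y) :
    2 ≤ n ∧ ok Y ∧ ∃ (g0 e' : O) (g : Fin 5 → O), IsUnit e' ∧ ok g0 ∧ g 0 = g0 ∧
      X + Y = lam ^ (5 * n - 4) * g0 ∧
      (∀ i : Fin 4, g i.succ = kap i * lam ^ (5 * n - 5) * g0 - Y) ∧
      (∀ i : Fin 4, lam * (eps i * g i.succ) = X + z ^ ex i * Y) ∧
      (∀ i j, i ≠ j → IsCoprime (g i) (g j)) ∧
      ∏ i, g i = e' * (p : O) ^ 2 * Z ^ 5 := by
  have hl : lam ≠ 0 := lam_prime.ne_zero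
  have hY : ok Y := ok_of_coprime hXY ((dvd_pow_self lam (by norm_num)).trans h2)
  obtain ⟨W, hW⟩ := h2
  set hh : Fin 4 → O := fun i => kap i * (lam * W) - Y with hhdef
  have hhe : ∀ i, lam * (eps i * hh i) = X + z ^ ex i * Y := by
    intro i
    simp only [hhdef]
    linear_combination (lam ^ 2 * W) * eps_kap i - Y * lam_eps i - hW
  have hok : ∀ i, ok (hh i) := by
    intro i
    rw [ok_cc]
    have h1 : cc lam = 0 := (lam_dvd_cc lam).1 dvd_rfl
    simp only [hhdef, map_sub, map_mul, h1, zero_mul, mul_zero, zero_sub]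
    exact neg_ne_zero.2 hY
  obtain ⟨eu, heu⟩ : IsUnit (∏ i, eps i) := by
    rw [IsUnit.prod_univ_iff]
    exact eps_unit
  have hprod : (X + Y) * (∏ i, hh i) * (lam ^ 4 * (eu : O)) = X ^ 5 + Y ^ 5 := by
    rw [← prod_f]
    have e1 : ∏ i, (X + z ^ ex i * Y) = lam ^ 4 * (∏ i, eps i) * ∏ i, hh i := by
      simp_rw [← hhe]
      rw [Finset.prod_mul_distrib, Finset.prod_mul_distrib, Finset.prod_const, Finset.card_univ,
        Fintype.card_fin]
      ring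
    rw [e1, ← heu]
    ring
  have hHok : ok ((∏ i, hh i) * (eu : O)) := by
    rw [ok_mul]
    refine ⟨?_, ok_unit eu.isUnit⟩
    rw [ok_cc, map_prod]
    exact Finset.prod_ne_zero_iff.2 fun i _ => hok i
  have h3 : (X + Y) * ((∏ i, hh i) * (eu : O)) = e * (p : O) ^ 2 * lam ^ (5 * n - 4) * Z ^ 5 := by
    apply mul_left_cancel₀ (pow_ne_zero 4 hl)
    have e2 : lam ^ (5 * n) = lam ^ (5 * n - 4) * lam ^ 4 := by
      rw [← pow_add]; congr 1; omega
    rw [e2] at h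
    linear_combination hprod + h
  have h4 : lam ^ (5 * n - 4) ∣ X + Y := by
    apply lam_prime.pow_dvd_of_dvd_mul_right (5 * n - 4) ((ok_iff _).1 hHok)
    rw [h3]
    exact Dvd.intro (e * (p : O) ^ 2 * Z ^ 5) (by ring)
  obtain ⟨g0, hg0⟩ := h4
  have h5 : g0 * ((∏ i, hh i) * (eu : O)) = e * (p : O) ^ 2 * Z ^ 5 := by
    apply mul_left_cancel₀ (pow_ne_zero (5 * n - 4) hl)
    rw [hg0] at h3
    linear_combination h3
  have hg0ok : ok g0 := by
    have : ok (g0 * ((∏ i, hh i) * (eu : O))) := by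
      rw [h5]
      exact ok_mul.2 ⟨ok_mul.2 ⟨ok_unit he, ok_pow (ok_p hp) 2⟩, ok_pow hZ 5⟩
    exact (ok_mul.1 this).1
  have hn2 : 2 ≤ n := by
    by_contra hlt
    have hn1 : n = 1 := by omega
    subst hn1
    have e3 : g0 = lam * W := by
      apply mul_left_cancel₀ hl
      rw [hg0] at hW
      linear_combination hW
    exact (ok_iff g0).1 hg0ok ⟨W, e3⟩
  have hW2 : lam * W = lam ^ (5 * n - 5) * g0 := by
    apply mul_left_cancel₀ hl
    have e2 : lam ^ (5 * n - 4) = lam ^ (5 * n - 5) * lam := by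
      rw [← pow_succ]; congr 1; omega
    rw [hg0, e2] at hW
    linear_combination -hW
  have hrel : ∀ i : Fin 4, (Fin.cons g0 hh : Fin 5 → O) i.succ =
      kap i * lam ^ (5 * n - 5) * g0 - Y := by
    intro i
    rw [Fin.cons_succ]
    simp only [hhdef]
    rw [hW2]
    ring
  refine ⟨hn2, hY, g0, e * ((eu⁻¹ : (𝓞 K)ˣ) : O), Fin.cons g0 hh, he.mul (eu⁻¹).isUnit, hg0ok,
    rfl, hg0, hrel, ?_, ?_, ?_⟩
  · intro i
    rw [Fin.cons_succ]
    exact hhe i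
  · intro i j hij
    have hF := coprime_F (X := X) (Y := Y)
      (Fin.cons (lam ^ (5 * n - 5) * g0) (fun i => eps i * hh i) : Fin 5 → O) hXY ?_ hij
    · have hdv : ∀ i : Fin 5, (Fin.cons g0 hh : Fin 5 → O) i ∣
          (Fin.cons (lam ^ (5 * n - 5) * g0) (fun i => eps i * hh i) : Fin 5 → O) i := by
        intro i
        refine Fin.cases ?_ ?_ i
        · rw [Fin.cons_zero, Fin.cons_zero]
          exact Dvd.intro_left _ rfl
        · intro i
          rw [Fin.cons_succ, Fin.cons_succ]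
          exact Dvd.intro_left _ rfl
      exact (hF.of_isCoprime_of_dvd_left (hdv i)).of_isCoprime_of_dvd_right (hdv j)
    · intro i
      refine Fin.cases ?_ ?_ i
      · rw [Fin.cons_zero]
        show lam * (lam ^ (5 * n - 5) * g0) = X + z ^ 0 * Y
        rw [← hW2]
        linear_combination -hW
      · intro i
        rw [Fin.cons_succ, hhe i]
        have : ex i = (i.succ : ℕ) := by revert i; decide
        rw [this]
  · rw [Fin.prod_univ_succ]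
    simp only [Fin.cons_zero, Fin.cons_succ]
    have : (eu : O) * ((eu⁻¹ : (𝓞 K)ˣ) : O) = 1 := by simp
    linear_combination ((eu⁻¹ : (𝓞 K)ˣ) : O) * h5 - g0 * (∏ i, hh i) * this

end Pool.Agent.Helper38.F5
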