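import Pool.Agent.Helper38.F5.Jacobi

/-! Project F5: factorisation of the Jacobi sum; `L3` of the primes above `p`. -/

namespace Pool.Agent.Helper38.F5

open NumberField Polynomial Finset

section
variable {p : ℕ} [Fact p.Prime]

lemma binom_sum (N : ℕ) : ∑ x : ZMod p, x ^ N * (1 - x) ^ N =
    ∑ j ∈ range (N + 1), (-1 : ZMod p) ^ j * (N.choose j : ZMod p) *
      ∑ x : ZMod p, x ^ (N + j) := by
  have h1 : ∀ x : ZMod p, x ^ N * (1 - x) ^ N =
      ∑ j ∈ range (N + 1), (-1 : ZMod p) ^ j * (N.choose j : ZMod p) * x ^ (N + j) := by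
    intro x
    have e : (1 - x) = (-x + 1) := by ring
    rw [e, add_pow, mul_sum]
    refine sum_congr rfl fun j _ => ?_
    rw [one_pow, neg_pow x j, pow_add]
    ring
  simp_rw [h1]
  rw [sum_comm]
  refine sum_congr rfl fun j _ => ?_
  rw [mul_sum]

lemma sum_zero {N : ℕ} (hN : 2 * N < p - 1) : ∑ x : ZMod p, x ^ N * (1 - x) ^ N = 0 := by
  rw [binom_sum]
  refine sum_eq_zero fun j hj => ?_
  rw [mem_range] at hj
  rw [FiniteField.sum_pow_lt_card_sub_one (K := ZMod p) (N + j) (by rw [ZMod.card]; omega),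
    mul_zero]

variable (t : O →+* ZMod p) {m : ℕ}

lemma mk_QD (hp : p ≠ 5) (hm : p - 1 = 5 * m) (hm2 : Even m) : QD p m (t z) :=
  ⟨hm, hm2, tz_prim t hp⟩

/-- image of the character under the four homomorphisms -/
lemma s_chi (h : QD p m (t z)) (k : Fin 4) (x : ZMod p) :
    t (sg (ex k) (ex_nd k) (chi h x)) = x ^ (m * ex k) := by
  have hk : ∀ k : Fin 4, 0 < ex k := by decide
  by_cases hx : x = 0
  · rw [hx, chi_zero, map_zero, map_zero, zero_pow (Nat.mul_pos h.mpos (hk k)).ne']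
  · rw [chi_apply h hx, map_pow, map_pow, t_sg_z, ← pow_mul, mul_comm, pow_mul, h.ind_spec hx,
      ← pow_mul]

lemma s_J (h : QD p m (t z)) (k : Fin 4) :
    t (sg (ex k) (ex_nd k) (J h)) = ∑ x : ZMod p, x ^ (m * ex k) * (1 - x) ^ (m * ex k) := by
  unfold J jacobiSum
  rw [map_sum, map_sum]
  refine sum_congr rfl fun x _ => ?_
  rw [map_mul, map_mul, s_chi, s_chi]

lemma pi0_J (h : QD p m (t z)) : pi t 0 ∣ J h := by
  rw [pi_dvd, s_J]
  apply sum_zero
  show 2 * (m * 1) < p - 1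
  have := h.hm
  have := h.mpos
  omega

lemma pi1_J (h : QD p m (t z)) : pi t 1 ∣ J h := by
  rw [pi_dvd, s_J]
  apply sum_zero
  show 2 * (m * 2) < p - 1
  have := h.hm
  have := h.mpos
  omega

lemma sg_comp_eq (a b c : ℕ) (ha : ¬ 5 ∣ a) (hb : ¬ 5 ∣ b) (hc : ¬ 5 ∣ c)
    (h : (a * b) % 5 = c % 5) (x : O) : sg a ha (sg b hb x) = sg c hc x := by
  have : (sg a ha).comp (sg b hb) = sg c hc := by
    apply hom_ext
    rw [RingHom.comp_apply, sg_z, map_pow, sg_z, sg_z, ← pow_mul, z_pow_mod, h, ← z_pow_mod]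
  exact congrArg (fun g => g x) this

lemma sg_one' (x : O) : sg 1 (by norm_num) x = x := by
  have : sg 1 (by norm_num) = RingHom.id O := by
    apply hom_ext
    rw [sg_z, pow_one]
    rfl
  rw [this]
  rfl

lemma pi2_J (h : QD p m (t z)) : pi t 2 ∣ sg 4 (by norm_num) (J h) := by
  have h1 := pi1_J t h
  rw [pi_dvd] at h1 ⊢
  rw [← h1]
  congr 1
  exact sg_comp_eq 3 4 2 _ _ _ rfl _

lemma pi3_J (h : QD p m (t z)) : pi t 3 ∣ sg 4 (by norm_num) (J h) := by
  have h1 := pi0_J t h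
  rw [pi_dvd] at h1 ⊢
  rw [← h1]
  congr 1
  exact sg_comp_eq 4 4 1 _ _ _ rfl _

/-- `J = π₀ π₁` up to a unit -/
theorem J_factor (hp : p ≠ 5) (h : QD p m (t z)) :
    ∃ a : O, IsUnit a ∧ J h = pi t 0 * pi t 1 * a := by
  obtain ⟨a, ha⟩ : pi t 0 * pi t 1 ∣ J h :=
    (pi_coprime t hp (by decide)).mul_dvd (pi0_J t h) (pi1_J t h)
  obtain ⟨b, hb⟩ : pi t 2 * pi t 3 ∣ sg 4 (by norm_num) (J h) :=
    (pi_coprime t hp (by decide)).mul_dvd (pi2_J t h) (pi3_J t h)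
  refine ⟨a, ?_, ha⟩
  have hJ := J_mul h
  obtain ⟨v, hv⟩ := prod_pi t hp
  rw [Fin.prod_univ_four] at hv
  rw [hb, ha, ← hv] at hJ
  have hne : pi t 0 * pi t 1 * pi t 2 * pi t 3 ≠ 0 :=
    mul_ne_zero (mul_ne_zero (mul_ne_zero (pi_prime t 0).ne_zero (pi_prime t 1).ne_zero)
      (pi_prime t 2).ne_zero) (pi_prime t 3).ne_zero
  have : a * b = v := by
    apply mul_left_cancel₀ hne
    linear_combination hJ
  exact isUnit_of_mul_isUnit_left (this ▸ v.isUnit)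

lemma ok_pi (hp : p ≠ 5) (l : Fin 4) : ok (pi t l) := by
  have h1 : pi t l ∣ (p : O) := by
    rw [pi_dvd, map_natCast, map_natCast, CharP.cast_eq_zero]
  have h2 := ok_p hp
  obtain ⟨q, hq⟩ := h1
  rw [hq] at h2
  exact (ok_mul.1 h2).1

lemma L3_J (hp : p ≠ 5) (h : QD p m (t z)) : L3 (J h) = 3 * L3 (pi1 t) := by
  obtain ⟨a, ha, haJ⟩ := J_factor t hp h
  rw [haJ, L3_mul (ok_mul.2 ⟨ok_pi t hp 0, ok_pi t hp 1⟩) (ok_unit ha),
    L3_mul (ok_pi t hp 0) (ok_pi t hp 1), unit_L3 ha, L3_pi, L3_pi]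
  have e0 : ((ix 0 : ℕ) : ZMod 5) ^ 3 = 1 := by decide
  have e1 : ((ix 1 : ℕ) : ZMod 5) ^ 3 = 2 := by decide
  rw [e0, e1]
  ring

lemma L3_J' (h : QD p m (t z)) : L3 (J h) = 2 * ind (t z) m (t ph) := by
  unfold L3
  rw [T_J, t_ph]
  unfold R4.l3
  simp only
  ring_nf

theorem P1_of (hp : p ≠ 5) (h : QD p m (t z)) (hph : (t ph) ^ m ≠ 1) : L3 (pi1 t) ≠ 0 := by
  intro h0
  have h1 := L3_J t hp h
  rw [h0, mul_zero, L3_J' t h] at h1
  rcases mul_eq_zero.1 h1 with h2 | h2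
  · exact absurd h2 (by decide)
  · apply hph
    have hne : t ph ≠ 0 := by
      rw [t_ph]; exact h.ph_ne
    have := h.ind_spec hne
    rw [h2, ZMod.val_zero, pow_zero] at this
    exact this.symm

/-- Binet -/
lemma binet {R : Type*} [CommRing R] (f : R) (hf : f ^ 2 = f + 1) (n : ℕ) :
    (Nat.fib n : R) * (2 * f - 1) = f ^ n - (1 - f) ^ n := by
  induction n using Nat.twoStepInduction with
  | zero => simp
  | one => simp; ring
  | more n ih1 ih2 =>
    rw [Nat.fib_add_two]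
    push_cast
    have e1 : f ^ (n + 2) = f ^ (n + 1) + f ^ n := by
      rw [pow_add f n 2, hf]; ring
    have e2 : (1 - f) ^ (n + 2) = (1 - f) ^ (n + 1) + (1 - f) ^ n := by
      have : (1 - f) ^ 2 = (1 - f) + 1 := by linear_combination hf
      rw [pow_add (1 - f) n 2, this]; ring
    rw [e1, e2]
    linear_combination ih1 + ih2

theorem fib_of {f : ZMod p} (hf : f ^ 2 = f + 1) (hp : p ≠ 5) {m : ℕ} (hm2 : Even m)
    (h : f ^ m = 1) : p ∣ Nat.fib m := by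
  have h1 := binet f hf m
  have h2 : (1 - f) ^ m = 1 := by
    have e : f * (1 - f) = -1 := by linear_combination -hf
    have := congrArg (· ^ m) e
    simp only [mul_pow, h, one_mul, hm2.neg_one_pow] at this
    exact this
  rw [h, h2, sub_self] at h1
  rcases mul_eq_zero.1 h1 with h3 | h3
  · exact (ZMod.natCast_eq_zero_iff _ _).1 h3
  · exfalso
    apply five_ne hp
    linear_combination (2 * f - 1) * h3 - 4 * hf

lemma t_ph_sq (s : O →+* ZMod p) : (s ph) ^ 2 = s ph + 1 := by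
  have := congrArg s ph_rel
  simpa using this

/-- the descent theorem under the Fibonacci condition -/
theorem descent_fib (hp : p ≠ 5) (hm : p - 1 = 5 * m) (hm2 : Even m) (hF : ¬ p ∣ Nat.fib m) :
    L3 (pi1 t) ≠ 0 ∧ (∀ k : Fin 4, (t (sg (ex k) (ex_nd k) ph)) ^ m ≠ 1) := by
  have P2 : ∀ k : Fin 4, (t (sg (ex k) (ex_nd k) ph)) ^ m ≠ 1 := by
    intro k h
    exact hF (fib_of (t_ph_sq (t.comp (sg (ex k) (ex_nd k)))) hp hm2 h)
  refine ⟨P1_of t hp (mk_QD t hp hm hm2) ?_, P2⟩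
  intro h
  exact hF (fib_of (t_ph_sq t) hp hm2 h)

end

end Pool.Agent.Helper38.F5
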