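import Pool.Agent.Helper38.F5.Units

/-! Project F5: the four primes of `ℤ[ζ₅]` above a prime `p ≡ 1 (mod 5)`. -/

namespace Pool.Agent.Helper38.F5

open NumberField Polynomial

/-- exponents `1,2,3,4` -/
def ex : Fin 4 → ℕ := ![1, 2, 3, 4]
/-- inverse exponents modulo `5` -/
def ix : Fin 4 → ℕ := ![1, 3, 2, 4]

lemma ex_nd (k : Fin 4) : ¬ 5 ∣ ex k := by revert k; decide
lemma ix_nd (k : Fin 4) : ¬ 5 ∣ ix k := by revert k; decide
lemma ex_ix (k : Fin 4) : (ex k * ix k) % 5 = 1 := by revert k; decide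

lemma z_pow_mod (n : ℕ) : z ^ n = z ^ (n % 5) := by
  conv_lhs => rw [← Nat.div_add_mod n 5]
  rw [pow_add, pow_mul, z5, one_pow, one_mul]

lemma sg_sg (a b : ℕ) (ha : ¬ 5 ∣ a) (hb : ¬ 5 ∣ b) (h : (a * b) % 5 = 1) (x : O) :
    sg a ha (sg b hb x) = x := by
  have : (sg a ha).comp (sg b hb) = RingHom.id O := by
    apply hom_ext
    rw [RingHom.comp_apply, sg_z, map_pow, sg_z, ← pow_mul, z_pow_mod, h, pow_one]
    rfl
  exact congrArg (fun g => g x) this

section
variable {p : ℕ} [Fact p.Prime] (t : O →+* ZMod p)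

lemma five_ne (hp : p ≠ 5) : (5 : ZMod p) ≠ 0 := by
  intro h
  have h' : ((5 : ℕ) : ZMod p) = 0 := by exact_mod_cast h
  rw [ZMod.natCast_eq_zero_iff] at h'
  exact hp ((Nat.prime_dvd_prime_iff_eq (Fact.out : p.Prime) Nat.prime_five).1 h')

lemma tz_rel : (t z) ^ 4 + (t z) ^ 3 + (t z) ^ 2 + (t z) + 1 = 0 := by
  have := congrArg t z_rel
  simpa using this

lemma tz_prim (hp : p ≠ 5) : IsPrimitiveRoot (t z) 5 := by
  have h5 : (t z) ^ 5 = 1 := by rw [← map_pow, z5, map_one]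
  have h1 : t z ≠ 1 := by
    intro h
    have := tz_rel t
    rw [h] at this
    apply five_ne hp
    linear_combination this
  have h := IsPrimitiveRoot.orderOf (t z)
  have e : orderOf (t z) = 5 := orderOf_eq_prime h5 h1
  rwa [e] at h

lemma tz_inj (hp : p ≠ 5) : Function.Injective (fun k : Fin 4 => (t z) ^ ex k) := by
  intro k l h
  have hlt : ∀ k : Fin 4, ex k < 5 := by decide
  have h2 := (tz_prim t hp).pow_inj (hlt k) (hlt l) h
  have hi : ∀ k l : Fin 4, ex k = ex l → k = l := by decide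
  exact hi k l h2

lemma t_sg_z (k : Fin 4) : t (sg (ex k) (ex_nd k) z) = (t z) ^ ex k := by
  rw [sg_z, map_pow]

lemma p_dvd_of (hp : p ≠ 5) (x : O) (h : ∀ k : Fin 4, t (sg (ex k) (ex_nd k) x) = 0) :
    (p : O) ∣ x := by
  obtain ⟨a, b, c, d, rfl⟩ := coords x
  have hP : (C (a : ZMod p) + C (b : ZMod p) * X + C (c : ZMod p) * X ^ 2 + C (d : ZMod p) * X ^ 3
      : (ZMod p)[X]) = 0 := by
    refine Polynomial.eq_zero_of_natDegree_lt_card_of_eval_eq_zero _ (tz_inj t hp) ?_ ?_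
    · intro k
      have := h k
      simp only [map_add, map_mul, map_pow, map_intCast, sg_z] at this
      simpa using this
    · rw [Fintype.card_fin]
      have : (C (a : ZMod p) + C (b : ZMod p) * X + C (c : ZMod p) * X ^ 2
          + C (d : ZMod p) * X ^ 3 : (ZMod p)[X]).natDegree ≤ 3 := by compute_degree
      omega
  have key : ∀ A B C' D : ZMod p, (C A + C B * X + C C' * X ^ 2 + C D * X ^ 3 : (ZMod p)[X]) = 0 →
      A = 0 ∧ B = 0 ∧ C' = 0 ∧ D = 0 := by
    intro A B C' D hP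
    have h0 := congrArg (fun P => Polynomial.coeff P 0) hP
    have h1 := congrArg (fun P => Polynomial.coeff P 1) hP
    have h2 := congrArg (fun P => Polynomial.coeff P 2) hP
    have h3 := congrArg (fun P => Polynomial.coeff P 3) hP
    simp [coeff_X, coeff_C] at h0 h1 h2 h3
    exact ⟨h0, h1, h2, h3⟩
  obtain ⟨h0, h1, h2, h3⟩ := key _ _ _ _ hP
  rw [ZMod.intCast_zmod_eq_zero_iff_dvd] at h0 h1 h2 h3
  obtain ⟨a', rfl⟩ := h0
  obtain ⟨b', rfl⟩ := h1
  obtain ⟨c', rfl⟩ := h2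
  obtain ⟨d', rfl⟩ := h3
  refine ⟨a' + b' * z + c' * z ^ 2 + d' * z ^ 3, ?_⟩
  push_cast
  ring

/-- a generator of the kernel -/
noncomputable def pi1 : O := (IsPrincipalIdealRing.principal (RingHom.ker t)).principal.choose

lemma pi1_spec : RingHom.ker t = Ideal.span {pi1 t} :=
  (IsPrincipalIdealRing.principal (RingHom.ker t)).principal.choose_spec

lemma pi1_dvd (x : O) : pi1 t ∣ x ↔ t x = 0 := by
  rw [← Ideal.mem_span_singleton, ← pi1_spec, RingHom.mem_ker]

/-- the four primes above `p` -/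
noncomputable def pi (k : Fin 4) : O := sg (ix k) (ix_nd k) (pi1 t)

lemma pi_dvd (k : Fin 4) (x : O) : pi t k ∣ x ↔ t (sg (ex k) (ex_nd k) x) = 0 := by
  unfold pi
  constructor
  · rintro ⟨y, rfl⟩
    rw [map_mul, sg_sg _ _ _ _ (ex_ix k), map_mul, (pi1_dvd t _).1 dvd_rfl, zero_mul]
  · intro h
    rw [← pi1_dvd] at h
    have := map_dvd (sg (ix k) (ix_nd k)) h
    rwa [sg_sg _ _ _ _ (by rw [mul_comm]; exact ex_ix k)] at this

lemma pi_prime (k : Fin 4) : Prime (pi t k) := by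
  refine ⟨?_, ?_, ?_⟩
  · intro h
    have h2 : pi t k ∣ (p : O) := by
      rw [pi_dvd, map_natCast, map_natCast, CharP.cast_eq_zero]
    rw [h, zero_dvd_iff] at h2
    have h3 : (p : ℤ) = 0 := by
      have : ((p : ℤ) : O) = 0 := by exact_mod_cast h2
      exact_mod_cast this
    have := (Fact.out : p.Prime).pos
    omega
  · intro h
    have h2 : pi t k ∣ 1 := h.dvd
    rw [pi_dvd, map_one, map_one] at h2
    exact one_ne_zero h2
  · intro a b h
    rw [pi_dvd, map_mul, map_mul, mul_eq_zero] at h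
    rwa [pi_dvd, pi_dvd]

lemma pi_coprime (hp : p ≠ 5) {k l : Fin 4} (h : k ≠ l) : IsCoprime (pi t k) (pi t l) := by
  rw [(pi_prime t k).coprime_iff_not_dvd]
  intro hd
  obtain ⟨n, hn⟩ := ZMod.intCast_surjective ((t z) ^ ex l)
  have h1 : pi t l ∣ z - n := by
    rw [pi_dvd, map_sub, map_sub, t_sg_z, map_intCast, map_intCast, hn, sub_self]
  have h2 := hd.trans h1
  rw [pi_dvd, map_sub, map_sub, t_sg_z, map_intCast, map_intCast, hn, sub_eq_zero] at h2
  exact h (tz_inj t hp h2)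

lemma prod_pi (hp : p ≠ 5) : Associated (∏ k, pi t k) (p : O) := by
  refine associated_of_dvd_dvd ?_ ?_
  · refine Finset.prod_dvd_of_coprime ?_ ?_
    · intro k _ l _ hkl
      exact pi_coprime t hp hkl
    · intro k _
      rw [pi_dvd, map_natCast, map_natCast, CharP.cast_eq_zero]
  · apply p_dvd_of t hp
    intro k
    rw [← pi_dvd]
    exact Finset.dvd_prod_of_mem _ (Finset.mem_univ k)

lemma L3_pi (k : Fin 4) : L3 (pi t k) = (ix k : ZMod 5) ^ 3 * L3 (pi1 t) := by
  unfold pi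
  rw [L3_sg]

end

end Pool.Agent.Helper38.F5
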