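import Pool.Agent.Helper38.F5.Primes

/-! Project F5: splitting `∏ g_i = e p² Z⁵` over pairwise coprime factors. -/

namespace Pool.Agent.Helper38.F5

open NumberField Polynomial

section
variable {p : ℕ} [Fact p.Prime] (t : O →+* ZMod p)

/-- product of the primes above `p` dividing the `i`-th factor -/
noncomputable def dl (c : Fin 4 → Fin 5) (i : Fin 5) : O := ∏ k with c k = i, pi t k

lemma prod_dl (c : Fin 4 → Fin 5) : ∏ i, dl t c i = ∏ k, pi t k := by
  unfold dl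
  exact Finset.prod_fiberwise Finset.univ c (fun k => pi t k)

theorem split (hp : p ≠ 5) (g : Fin 5 → O)
    (hco : ∀ i j, i ≠ j → IsCoprime (g i) (g j)) (e Z : O) (he : IsUnit e)
    (hprod : ∏ i, g i = e * (p : O) ^ 2 * Z ^ 5) :
    ∃ c : Fin 4 → Fin 5, (∀ k i, pi t k ∣ g i ↔ i = c k) ∧
      ∀ i, ∃ u r : O, IsUnit u ∧ (dl t c i) ^ 3 * g i = u * r ^ 5 := by
  have hpk : ∀ k, pi t k ∣ (p : O) := by
    intro k
    rw [pi_dvd, map_natCast, map_natCast, CharP.cast_eq_zero]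
  have hex : ∀ k, ∃ i, pi t k ∣ g i := by
    intro k
    have h1 : pi t k ∣ ∏ i, g i := by
      rw [hprod]
      exact ((hpk k).trans (dvd_pow_self _ (by norm_num))).mul_left e |>.mul_right _
    obtain ⟨i, -, hi⟩ := (pi_prime t k).exists_mem_finset_dvd h1
    exact ⟨i, hi⟩
  choose c hc using hex
  have hc2 : ∀ k i, pi t k ∣ g i ↔ i = c k := by
    intro k i
    constructor
    · intro h
      by_contra hne
      have := (hco i (c k) hne).isUnit_of_dvd' h (hc k)
      exact (pi_prime t k).not_isUnit this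
    · rintro rfl
      exact hc k
  refine ⟨c, hc2, ?_⟩
  have hdd : ∀ i j, i ≠ j → IsCoprime (dl t c i) (dl t c j) := by
    intro i j hij
    unfold dl
    refine IsCoprime.prod_left fun k hk => IsCoprime.prod_right fun l hl => ?_
    rw [Finset.mem_filter] at hk hl
    apply pi_coprime t hp
    rintro rfl
    exact hij (hk.2.symm.trans hl.2)
  have hdg : ∀ i j, i ≠ j → IsCoprime (dl t c i) (g j) := by
    intro i j hij
    unfold dl
    refine IsCoprime.prod_left fun k hk => ?_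
    rw [Finset.mem_filter] at hk
    rw [(pi_prime t k).coprime_iff_not_dvd, hc2]
    rintro rfl
    exact hij hk.2.symm
  obtain ⟨v, hv⟩ := prod_pi t hp
  intro i
  have hco2 : IsCoprime ((dl t c i) ^ 3 * g i) (∏ j ∈ Finset.univ.erase i, (dl t c j) ^ 3 * g j) := by
    refine IsCoprime.prod_right fun j hj => ?_
    have hij : i ≠ j := (Finset.ne_of_mem_erase hj).symm
    refine IsCoprime.mul_left ?_ ?_
    · refine IsCoprime.mul_right ?_ ?_
      · exact (hdd i j hij).pow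
      · exact (hdg i j hij).pow_left
    · refine IsCoprime.mul_right ?_ ?_
      · exact ((hdg j i hij.symm).symm).pow_right
      · exact hco i j hij
  have hmul : (dl t c i) ^ 3 * g i * (∏ j ∈ Finset.univ.erase i, (dl t c j) ^ 3 * g j)
      = ∏ j, (dl t c j) ^ 3 * g j :=
    Finset.mul_prod_erase Finset.univ (fun j => (dl t c j) ^ 3 * g j) (Finset.mem_univ i)
  obtain ⟨e', rfl⟩ := he
  have hall : (∏ j, (dl t c j) ^ 3 * g j) * ((v : O) ^ 3 * ((e'⁻¹ : (𝓞 K)ˣ) : O)) =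
      ((p : O) * Z) ^ 5 := by
    rw [Finset.prod_mul_distrib, Finset.prod_pow, prod_dl, hprod, ← hv]
    have : (e' : O) * ((e'⁻¹ : (𝓞 K)ˣ) : O) = 1 := by simp
    linear_combination (∏ k, pi t k) ^ 5 * (v : O) ^ 5 * Z ^ 5 * this
  have hall2 : (dl t c i) ^ 3 * g i * ((∏ j ∈ Finset.univ.erase i, (dl t c j) ^ 3 * g j) *
      ((v : O) ^ 3 * ((e'⁻¹ : (𝓞 K)ˣ) : O))) = ((p : O) * Z) ^ 5 := by
    rw [← hall, ← hmul]
    ring
  have hu : IsUnit ((v : O) ^ 3 * ((e'⁻¹ : (𝓞 K)ˣ) : O)) := (v.isUnit.pow 3).mul (e'⁻¹).isUnit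
  have hco3 : IsCoprime ((dl t c i) ^ 3 * g i) ((∏ j ∈ Finset.univ.erase i, (dl t c j) ^ 3 * g j) *
      ((v : O) ^ 3 * ((e'⁻¹ : (𝓞 K)ˣ) : O))) :=
    (isCoprime_mul_unit_right_right hu _ _).2 hco2
  obtain ⟨d, hd⟩ := exists_associated_pow_of_mul_eq_pow' hco3 hall2
  obtain ⟨w, hw⟩ := hd
  exact ⟨w, d, w.isUnit, by rw [← hw]; ring⟩

end

end Pool.Agent.Helper38.F5
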