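import Pool.Agent.Helper38.F5.Log

/-! Project F5: units of `ℤ[ζ₅]`. -/

namespace Pool.Agent.Helper38.F5

open NumberField Polynomial NumberField.Units

lemma rank_one : rank K = 1 := by
  dsimp only [rank]
  rw [InfinitePlace.card_eq_nrRealPlaces_add_nrComplexPlaces,
    IsCyclotomicExtension.Rat.nrRealPlaces_eq_zero (n := 5) K (by decide),
    zero_add, IsCyclotomicExtension.Rat.nrComplexPlaces_eq_totient_div_two (n := 5)]
  rfl

lemma z_unit : IsUnit z := IsUnit.of_pow_eq_one z5 (by norm_num)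

lemma ph_unit : IsUnit ph := by
  refine IsUnit.of_mul_eq_one (ph - 1) ?_
  linear_combination ph_rel

lemma tors_form (x : torsion K) : ∃ (s : O) (r : ℕ), (s = 1 ∨ s = -1) ∧
    (((x : (𝓞 K)ˣ) : O)) = s * z ^ r := by
  obtain ⟨n, hnpos, hn⟩ := isOfFinOrder_iff_pow_eq_one.1 <| (CommGroup.mem_torsion _).1 x.2
  have hn2 : (((x : (𝓞 K)ˣ) : O) : K) ^ n = 1 := by
    rw [← map_pow]
    convert! map_one (algebraMap (𝓞 K) K)
    rw_mod_cast [hn]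
    simp
  obtain ⟨r, -, hru⟩ := (IsCyclotomicExtension.zeta_spec 5 ℚ K
    ).exists_pow_or_neg_mul_pow_of_isOfFinOrder (by decide)
    (isOfFinOrder_iff_pow_eq_one.2 ⟨n, hnpos, hn2⟩)
  rcases hru with h | h
  · refine ⟨1, r, Or.inl rfl, ?_⟩
    rw [one_mul]
    ext; exact h
  · refine ⟨-1, r, Or.inr rfl, ?_⟩
    ext
    rw [h, neg_mul, one_mul]
    rfl

lemma exists_gen : ∃ e : (𝓞 K)ˣ, ∀ u : (𝓞 K)ˣ, ∃ (s : O) (r : ℕ) (n : ℤ),
    (s = 1 ∨ s = -1) ∧ (u : O) = s * z ^ r * ((e ^ n : (𝓞 K)ˣ) : O) := by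
  refine ⟨fundSystem K (Fin.cast rank_one.symm 0), fun u => ?_⟩
  obtain ⟨⟨x, f⟩, hxu, -⟩ := exist_unique_eq_mul_prod _ u
  obtain ⟨s, r, hs, hx⟩ := tors_form x
  refine ⟨s, r, f (Fin.cast rank_one.symm 0), hs, ?_⟩
  have hp : ∏ i, (fundSystem K i) ^ (f i) =
      fundSystem K (Fin.cast rank_one.symm 0) ^ f (Fin.cast rank_one.symm 0) := by
    have e : ∏ i, (fundSystem K i) ^ (f i) =
        ∏ i : Fin 1, (fundSystem K (Fin.cast rank_one.symm i)) ^ (f (Fin.cast rank_one.symm i)) := by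
      refine Fintype.prod_equiv (finCongr rank_one) _ _ ?_
      intro i
      simp
    rw [e, Fin.prod_univ_one]
  rw [hxu]
  simp only
  rw [hp, Units.val_mul, hx]

noncomputable def Lam1 : (𝓞 K)ˣ →* Multiplicative (ZMod 5) where
  toFun u := Multiplicative.ofAdd (L1 (u : O))
  map_one' := by rw [Units.val_one, L1_one]; rfl
  map_mul' u v := by
    rw [Units.val_mul, L1_mul (ok_unit u.isUnit) (ok_unit v.isUnit)]; rfl

noncomputable def Lam2 : (𝓞 K)ˣ →* Multiplicative (ZMod 5) where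
  toFun u := Multiplicative.ofAdd (L2 (u : O))
  map_one' := by rw [Units.val_one, L2_one]; rfl
  map_mul' u v := by
    rw [Units.val_mul, L2_mul (ok_unit u.isUnit) (ok_unit v.isUnit)]; rfl

noncomputable def Lam3 : (𝓞 K)ˣ →* Multiplicative (ZMod 5) where
  toFun u := Multiplicative.ofAdd (L3 (u : O))
  map_one' := by rw [Units.val_one, L3_one]; rfl
  map_mul' u v := by
    rw [Units.val_mul, L3_mul (ok_unit u.isUnit) (ok_unit v.isUnit)]; rfl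

lemma L1_zpow (e : (𝓞 K)ˣ) (n : ℤ) : L1 ((e ^ n : (𝓞 K)ˣ) : O) = n * L1 (e : O) := by
  have h : Lam1 (e ^ n) = Lam1 e ^ n := map_zpow _ _ _
  have h2 := congrArg Multiplicative.toAdd h
  rw [toAdd_zpow] at h2
  simpa [Lam1] using h2

lemma L2_zpow (e : (𝓞 K)ˣ) (n : ℤ) : L2 ((e ^ n : (𝓞 K)ˣ) : O) = n * L2 (e : O) := by
  have h : Lam2 (e ^ n) = Lam2 e ^ n := map_zpow _ _ _
  have h2 := congrArg Multiplicative.toAdd h
  rw [toAdd_zpow] at h2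
  simpa [Lam2] using h2

lemma L1_sign {s : O} (h : s = 1 ∨ s = -1) : ok s ∧ L1 s = 0 ∧ L2 s = 0 ∧ L3 s = 0 ∧ s ^ 5 = s := by
  rcases h with rfl | rfl
  · exact ⟨ok_unit isUnit_one, L1_one, L2_one, L3_one, by norm_num⟩
  · exact ⟨ok_neg_one, L1_neg_one, L2_neg_one, L3_neg_one, by norm_num⟩

/-- a unit with `L1 = L2 = 0` is a fifth power -/
theorem unit_fifth {w : O} (hw : IsUnit w) (h1 : L1 w = 0) (h2 : L2 w = 0) :
    ∃ y : O, IsUnit y ∧ w = y ^ 5 := by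
  obtain ⟨e, he⟩ := exists_gen
  obtain ⟨s', r', k, hs', hph⟩ := he ph_unit.unit
  obtain ⟨s, r, n, hs, hwe⟩ := he hw.unit
  rw [IsUnit.unit_spec] at hph hwe
  have hu : ∀ m : ℤ, ok ((e ^ m : (𝓞 K)ˣ) : O) := fun m => ok_unit (e ^ m).isUnit
  obtain ⟨a1, a2, a3, a4, a5⟩ := L1_sign hs
  obtain ⟨b1, b2, b3, b4, b5⟩ := L1_sign hs'
  have hph2 : L2 ph = k * L2 (e : O) := by
    rw [hph, L2_mul (ok_mul.2 ⟨b1, ok_pow ok_z _⟩) (hu _), L2_mul b1 (ok_pow ok_z _), b3,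
      L2_pow ok_z, L2_z, L2_zpow]
    ring
  have he2 : L2 (e : O) ≠ 0 := by
    intro h0
    rw [h0, L2_ph, mul_zero] at hph2
    exact absurd hph2 (by decide)
  have hw2 : L2 w = n * L2 (e : O) := by
    rw [hwe, L2_mul (ok_mul.2 ⟨a1, ok_pow ok_z _⟩) (hu _), L2_mul a1 (ok_pow ok_z _), a3,
      L2_pow ok_z, L2_z, L2_zpow]
    ring
  have hw1 : L1 w = r + n * L1 (e : O) := by
    rw [hwe, L1_mul (ok_mul.2 ⟨a1, ok_pow ok_z _⟩) (hu _), L1_mul a1 (ok_pow ok_z _), a2,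
      L1_pow ok_z, L1_z, L1_zpow]
    ring
  have hn : (n : ZMod 5) = 0 := by
    rw [h2] at hw2
    rcases mul_eq_zero.1 hw2.symm with h | h
    · exact h
    · exact absurd h he2
  have hr : ((r : ℕ) : ZMod 5) = 0 := by
    rw [h1, hn] at hw1
    rw [zero_mul, add_zero] at hw1
    exact hw1.symm
  rw [ZMod.intCast_zmod_eq_zero_iff_dvd] at hn
  rw [ZMod.natCast_eq_zero_iff] at hr
  obtain ⟨n', rfl⟩ := hn
  obtain ⟨r', rfl⟩ := hr
  have hz : z ^ (5 * r') = 1 := by rw [pow_mul, z5, one_pow]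
  refine ⟨s * ((e ^ n' : (𝓞 K)ˣ) : O), ?_, ?_⟩
  · refine IsUnit.mul ?_ (e ^ n').isUnit
    rcases hs with rfl | rfl
    · exact isUnit_one
    · exact isUnit_one.neg
  · have hcast : ((e ^ (((5 : ℕ) : ℤ) * n') : (𝓞 K)ˣ) : O) = ((e ^ n' : (𝓞 K)ˣ) : O) ^ 5 := by
      rw [← Units.val_pow_eq_pow_val, ← zpow_natCast, ← zpow_mul, mul_comm]
    rw [hwe, hz, mul_one, mul_pow, a5, ← hcast]

theorem unit_form {u : O} (hu : IsUnit u) : ∃ (r j : ℕ) (y : O), IsUnit y ∧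
    u = z ^ r * ph ^ j * y ^ 5 ∧ L1 u = r ∧ L2 u = 2 * j := by
  have okw : ok (u * z ^ (5 - (L1 u).val) * ph ^ (5 - (3 * L2 u).val)) :=
    ok_mul.2 ⟨ok_mul.2 ⟨ok_unit hu, ok_pow ok_z _⟩, ok_pow ok_ph _⟩
  have v1 := ZMod.val_lt (L1 u)
  have v2 := ZMod.val_lt (3 * L2 u)
  have c5 : ((5 : ℕ) : ZMod 5) = 0 := by decide
  have hw1 : L1 (u * z ^ (5 - (L1 u).val) * ph ^ (5 - (3 * L2 u).val)) = 0 := by
    rw [L1_mul (ok_mul.2 ⟨ok_unit hu, ok_pow ok_z _⟩) (ok_pow ok_ph _),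
      L1_mul (ok_unit hu) (ok_pow ok_z _), L1_pow ok_z, L1_pow ok_ph, L1_z, L1_ph,
      Nat.cast_sub v1.le, c5]
    simp
  have hw2 : L2 (u * z ^ (5 - (L1 u).val) * ph ^ (5 - (3 * L2 u).val)) = 0 := by
    rw [L2_mul (ok_mul.2 ⟨ok_unit hu, ok_pow ok_z _⟩) (ok_pow ok_ph _),
      L2_mul (ok_unit hu) (ok_pow ok_z _), L2_pow ok_z, L2_pow ok_ph, L2_z, L2_ph,
      Nat.cast_sub v2.le, c5]
    simp only [ZMod.natCast_val, ZMod.cast_id', id_eq, mul_zero, add_zero]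
    linear_combination (- L2 u) * R4.h5
  obtain ⟨y, hy, hwy⟩ := unit_fifth ((hu.mul (z_unit.pow _)).mul (ph_unit.pow _)) hw1 hw2
  obtain ⟨q, hq⟩ := ph_unit
  have hqi : ph * ((q⁻¹ : (𝓞 K)ˣ) : O) = 1 := by rw [← hq]; simp
  refine ⟨(L1 u).val, (3 * L2 u).val, y * ((q⁻¹ : (𝓞 K)ˣ) : O), hy.mul (q⁻¹).isUnit, ?_, ?_, ?_⟩
  · have e1 : z ^ (5 - (L1 u).val) * z ^ (L1 u).val = 1 := by
      rw [← pow_add, Nat.sub_add_cancel v1.le, z5]
    have e2 : ph ^ (5 - (3 * L2 u).val) * ph ^ (3 * L2 u).val = ph ^ 5 := by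
      rw [← pow_add, Nat.sub_add_cancel v2.le]
    have e3 : ph ^ 5 * ((q⁻¹ : (𝓞 K)ˣ) : O) ^ 5 = 1 := by
      rw [← mul_pow, hqi, one_pow]
    rw [mul_pow, ← hwy]
    calc u = u * (z ^ (5 - (L1 u).val) * z ^ (L1 u).val) *
        (ph ^ 5 * ((q⁻¹ : (𝓞 K)ˣ) : O) ^ 5) := by rw [e1, e3, mul_one, mul_one]
      _ = _ := by rw [← e2]; ring
  · simp
  · simp only [ZMod.natCast_val, ZMod.cast_id', id_eq]
    linear_combination (- L2 u) * R4.h5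

lemma unit_L3 {u : O} (hu : IsUnit u) : L3 u = 0 := by
  obtain ⟨r, j, y, hy, rfl, -, -⟩ := unit_form hu
  have oky := ok_unit hy
  rw [L3_mul (ok_mul.2 ⟨ok_pow ok_z _, ok_pow ok_ph _⟩) (ok_pow oky _),
    L3_mul (ok_pow ok_z _) (ok_pow ok_ph _), L3_pow ok_z, L3_pow ok_ph, L3_pow5 oky, L3_z, L3_ph]
  ring

end Pool.Agent.Helper38.F5
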