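import Pool.Agent.Helper38.F5.CaseTwoA

/-! Project F5: factorials, binomial coefficients and the values of the Jacobi sum. -/

namespace Pool.Agent.Helper38.F5

open NumberField Polynomial Finset Nat

section
variable {p : ℕ} [Fact p.Prime] {m : ℕ}

lemma wil (k : ℕ) (hk : k ≤ p - 1) :
    (((p - 1 - k)! : ℕ) : ZMod p) * ((k ! : ℕ) : ZMod p) = (-1) ^ (k + 1) := by
  induction k with
  | zero =>
    rw [Nat.sub_zero, ZMod.wilsons_lemma]
    simp
  | succ k ih =>
    have h1 := ih (by omega)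
    have e : p - 1 - k = (p - 1 - (k + 1)) + 1 := by omega
    rw [e, Nat.factorial_succ] at h1
    rw [Nat.factorial_succ]
    have h2 : ((p - 1 - (k + 1) + 1 : ℕ) : ZMod p) = - ((k + 1 : ℕ) : ZMod p) := by
      have h3 : ((p - 1 - (k + 1) + 1 + (k + 1) : ℕ) : ZMod p) = 0 := by
        have : p - 1 - (k + 1) + 1 + (k + 1) = p := by
          have := (Fact.out : p.Prime).two_le
          omega
        rw [this, CharP.cast_eq_zero]
      rw [Nat.cast_add] at h3
      linear_combination h3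
    rw [Nat.cast_mul, h2] at h1
    push_cast at h1 ⊢
    rw [pow_succ]
    linear_combination -h1

lemma fact_ne {k : ℕ} (hk : k < p) : ((k ! : ℕ) : ZMod p) ≠ 0 := by
  rw [Ne, ZMod.natCast_eq_zero_iff, (Fact.out : p.Prime).dvd_factorial]
  omega

lemma choose_ne {n k : ℕ} (hn : n < p) (hk : k ≤ n) : ((n.choose k : ℕ) : ZMod p) ≠ 0 := by
  intro h
  have h1 := Nat.choose_mul_factorial_mul_factorial hk
  have h2 := congrArg (Nat.cast : ℕ → ZMod p) h1
  push_cast at h2
  rw [h, zero_mul, zero_mul] at h2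
  exact fact_ne hn h2.symm

/-- `C(4m,m) ~ C(3m,m)²` modulo fifth powers -/
lemma ind_choose {w : ZMod p} (h : QD p m w) :
    ind w m (((4 * m).choose m : ℕ) : ZMod p) = 2 * ind w m (((3 * m).choose m : ℕ) : ZMod p) := by
  have hm := h.hm
  have hm0 := h.mpos
  have n1 : ((m ! : ℕ) : ZMod p) ≠ 0 := fact_ne (by omega)
  have n2 : (((2 * m)! : ℕ) : ZMod p) ≠ 0 := fact_ne (by omega)
  have n3 : (((3 * m)! : ℕ) : ZMod p) ≠ 0 := fact_ne (by omega)
  have n4 : (((4 * m)! : ℕ) : ZMod p) ≠ 0 := fact_ne (by omega)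
  have w1 := wil (p := p) m (by omega)
  have w2 := wil (p := p) (2 * m) (by omega)
  rw [show p - 1 - m = 4 * m by omega, pow_succ, h.hm2.neg_one_pow, one_mul] at w1
  rw [show p - 1 - 2 * m = 3 * m by omega, pow_succ, (even_two_mul m).neg_one_pow, one_mul] at w2
  have c4 := Nat.choose_mul_factorial_mul_factorial (show m ≤ 4 * m by omega)
  have c3 := Nat.choose_mul_factorial_mul_factorial (show m ≤ 3 * m by omega)
  rw [show 4 * m - m = 3 * m by omega] at c4
  rw [show 3 * m - m = 2 * m by omega] at c3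
  have c4' := congrArg (Nat.cast : ℕ → ZMod p) c4
  have c3' := congrArg (Nat.cast : ℕ → ZMod p) c3
  rw [Nat.cast_mul, Nat.cast_mul] at c4' c3'
  have k4 : (((4 * m).choose m : ℕ) : ZMod p) ≠ 0 := choose_ne (by omega) (by omega)
  have k3 : (((3 * m).choose m : ℕ) : ZMod p) ≠ 0 := choose_ne (by omega) (by omega)
  have i1 := congrArg (ind w m) w1
  have i2 := congrArg (ind w m) w2
  have i3 := congrArg (ind w m) c4'
  have i4 := congrArg (ind w m) c3'
  rw [h.ind_mul n4 n1, h.ind_neg_one] at i1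
  rw [h.ind_mul n3 n2, h.ind_neg_one] at i2
  rw [h.ind_mul (mul_ne_zero k4 n1) n3, h.ind_mul k4 n1] at i3
  rw [h.ind_mul (mul_ne_zero k3 n1) n2, h.ind_mul k3 n1] at i4
  have h5 := R4.h5
  linear_combination i3 + i1 - 2 * i4 - 3 * i2 + ind w m (((2 * m)! : ℕ) : ZMod p) * h5

lemma sum_pow_top : ∑ x : ZMod p, x ^ (p - 1) = -1 := by
  have h2 := (Fact.out : p.Prime).two_le
  have e : ∀ x : ZMod p, x ^ (p - 1) = 1 - (if x = 0 then 1 else 0) := by
    intro x
    by_cases hx : x = 0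
    · rw [if_pos hx, hx, zero_pow (by omega)]; ring
    · rw [if_neg hx, ZMod.pow_card_sub_one_eq_one hx]; ring
  simp_rw [e]
  rw [sum_sub_distrib, sum_const, Finset.card_univ, ZMod.card, nsmul_eq_mul, CharP.cast_eq_zero]
  simp

/-- the power sum of exponent `N`, `p - 1 ≤ 2 N < 2 (p - 1)` -/
lemma sum_val {N j : ℕ} (hj : N + j = p - 1) (hN : j ≤ N) (hj0 : 0 < j) :
    ∑ x : ZMod p, x ^ N * (1 - x) ^ N = - ((-1) ^ j * (N.choose j : ZMod p)) := by
  rw [binom_sum, Finset.sum_eq_single j]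
  · rw [hj, sum_pow_top]
    ring
  · intro i hi hij
    rw [mem_range] at hi
    have h0 : ∑ x : ZMod p, x ^ (N + i) = 0 := by
      rcases lt_or_gt_of_ne hij with h | h
      · exact FiniteField.sum_pow_lt_card_sub_one (K := ZMod p) (N + i) (by rw [ZMod.card]; omega)
      · have e : ∀ x : ZMod p, x ^ (N + i) = x ^ (i - j) := by
          intro x
          by_cases hx : x = 0
          · rw [hx, zero_pow (by omega), zero_pow (by omega)]
          · have : N + i = (p - 1) + (i - j) := by omega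
            rw [this, pow_add, ZMod.pow_card_sub_one_eq_one hx, one_mul]
        simp_rw [e]
        exact FiniteField.sum_pow_lt_card_sub_one (K := ZMod p) (i - j) (by rw [ZMod.card]; omega)
    rw [h0, mul_zero]
  · intro h
    rw [mem_range] at h
    omega

variable (t : O →+* ZMod p)

lemma ind_J3 (h : QD p m (t z)) : t (sg (ex 2) (ex_nd 2) (J h)) ≠ 0 ∧
    ind (t z) m (t (sg (ex 2) (ex_nd 2) (J h))) =
      ind (t z) m (((3 * m).choose m : ℕ) : ZMod p) := by
  have hm := h.hm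
  have hm0 := h.mpos
  have e : t (sg (ex 2) (ex_nd 2) (J h)) = (-1) * (((3 * m).choose m : ℕ) : ZMod p) := by
    rw [s_J]
    show ∑ x : ZMod p, x ^ (m * 3) * (1 - x) ^ (m * 3) = _
    rw [sum_val (j := 2 * m) (by omega) (by omega) (by omega), (even_two_mul m).neg_one_pow,
      show m * 3 = 3 * m by ring, Nat.choose_symm_of_eq_add (show 3 * m = 2 * m + m by ring)]
    ring
  have hne : (((3 * m).choose m : ℕ) : ZMod p) ≠ 0 := choose_ne (by omega) (by omega)
  rw [e]
  refine ⟨mul_ne_zero (neg_ne_zero.2 one_ne_zero) hne, ?_⟩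
  rw [h.ind_mul (neg_ne_zero.2 one_ne_zero) hne, h.ind_neg_one, zero_add]

lemma ind_J4 (h : QD p m (t z)) : t (sg (ex 3) (ex_nd 3) (J h)) ≠ 0 ∧
    ind (t z) m (t (sg (ex 3) (ex_nd 3) (J h))) =
      ind (t z) m (((4 * m).choose m : ℕ) : ZMod p) := by
  have hm := h.hm
  have hm0 := h.mpos
  have e : t (sg (ex 3) (ex_nd 3) (J h)) = (-1) * (((4 * m).choose m : ℕ) : ZMod p) := by
    rw [s_J]
    show ∑ x : ZMod p, x ^ (m * 4) * (1 - x) ^ (m * 4) = _
    rw [sum_val (j := m) (by omega) (by omega) (by omega), h.hm2.neg_one_pow,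
      show m * 4 = 4 * m by ring]
    ring
  have hne : (((4 * m).choose m : ℕ) : ZMod p) ≠ 0 := choose_ne (by omega) (by omega)
  rw [e]
  refine ⟨mul_ne_zero (neg_ne_zero.2 one_ne_zero) hne, ?_⟩
  rw [h.ind_mul (neg_ne_zero.2 one_ne_zero) hne, h.ind_neg_one, zero_add]

end

end Pool.Agent.Helper38.F5
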